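import Pool.Agent.H5.Perc.Graph

set_option autoImplicit false

namespace Pool.Agent.H5.Perc

open Finset MeasureTheory
open scoped ENNReal

variable {V : Type*} [DecidableEq V]

/-- open edges of a configuration -/
def openSet (G : SimpleGraph V) (ω : G.edgeSet → Bool) : Set (Sym2 V) :=
  {e : Sym2 V | ∃ h : e ∈ G.edgeSet, ω ⟨e, h⟩ = true}

/-- a connection uses finitely many edges -/
theorem Conn.finite {ω : Set (Sym2 V)} {x y : V} (h : Conn ω x y) :
    ∃ E : Finset (Sym2 V), (E : Set (Sym2 V)) ⊆ ω ∧ Conn (E : Set (Sym2 V)) x y := by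
  obtain ⟨w⟩ := h
  refine ⟨w.edges.toFinset, ?_, ?_⟩
  · intro e he
    rw [Finset.mem_coe, List.mem_toFinset] at he
    have := w.edges_subset_edgeSet he
    rw [SimpleGraph.edgeSet_fromEdgeSet] at this
    exact this.1
  · refine ⟨w.transfer _ ?_⟩
    intro e he
    rw [SimpleGraph.edgeSet_fromEdgeSet]
    refine ⟨by simpa using he, ?_⟩
    have := w.edges_subset_edgeSet he
    rw [SimpleGraph.edgeSet_fromEdgeSet] at this
    exact this.2

theorem measure_conn (G : SimpleGraph V) [Countable V] (μ : Measure Bool)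
    [IsProbabilityMeasure μ] {p : ℝ} (h0 : 0 ≤ p) (h1 : p ≤ 1)
    (hμ : μ {true} = ENNReal.ofReal p) (x y : V) :
    Measure.infinitePi (fun _ : G.edgeSet => μ)
      {ω : G.edgeSet → Bool | (SimpleGraph.fromEdgeSet
        {e : Sym2 V | ∃ h : e ∈ G.edgeSet, ω ⟨e, h⟩ = true}).Reachable x y} = tau G p x y := by
  classical
  let val : G.edgeSet ↪ Sym2 V := Function.Embedding.subtype _
  let A : Finset G.edgeSet → Prop := fun η => Conn ((η.map val : Finset (Sym2 V)) : Set (Sym2 V)) x y
  have hU : {ω : G.edgeSet → Bool | (SimpleGraph.fromEdgeSet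
        {e : Sym2 V | ∃ h : e ∈ G.edgeSet, ω ⟨e, h⟩ = true}).Reachable x y} =
      ⋃ F : Finset G.edgeSet, {ω : G.edgeSet → Bool | A (F.filter (fun e => ω e = true))} := by
    ext ω
    simp only [Set.mem_ofPred_eq, Set.mem_iUnion]
    constructor
    · intro h
      obtain ⟨E, hE, hc⟩ := Conn.finite (ω := openSet G ω) h
      have hEG : ∀ e ∈ E, e ∈ G.edgeSet := fun e he => (hE he).choose
      refine ⟨E.attach.map ⟨fun e => ⟨e.1, hEG e.1 e.2⟩, ?_⟩, ?_⟩
      · intro a b hab
        have := congrArg (fun z : G.edgeSet => z.1) hab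
        exact Subtype.ext this
      · refine hc.mono ?_
        intro e he
        rw [Finset.mem_coe, Finset.mem_map]
        obtain ⟨h2, h3⟩ := hE he
        refine ⟨⟨e, h2⟩, ?_, rfl⟩
        rw [Finset.mem_filter, Finset.mem_map]
        exact ⟨⟨⟨e, he⟩, Finset.mem_attach _ _, rfl⟩, h3⟩
    · rintro ⟨F, hF⟩
      refine Conn.mono (ω := ((F.filter (fun e => ω e = true)).map val : Finset (Sym2 V)))
        (ω' := openSet G ω) ?_ hF
      intro e he
      rw [Finset.mem_coe, Finset.mem_map] at he
      obtain ⟨e', he', rfl⟩ := he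
      exact ⟨e'.2, (Finset.mem_filter.1 he').2⟩
  have hdir : Directed (· ⊆ ·) (fun F : Finset G.edgeSet =>
      {ω : G.edgeSet → Bool | A (F.filter (fun e => ω e = true))}) := by
    intro F F'
    refine ⟨F ∪ F', ?_, ?_⟩
    · intro ω hω
      refine Conn.mono ?_ hω
      exact_mod_cast Finset.map_subset_map.2
        (Finset.filter_subset_filter _ Finset.subset_union_left)
    · intro ω hω
      refine Conn.mono ?_ hω
      exact_mod_cast Finset.map_subset_map.2
        (Finset.filter_subset_filter _ Finset.subset_union_right)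
  have : Countable (Sym2 V) := Quotient.countable
  rw [hU, hdir.measure_iUnion]
  apply le_antisymm
  · apply iSup_le
    intro F
    rw [measure_fin μ h0 h1 hμ F A]
    have : Pr p F A = Pr p (F.map val) (fun ω => Conn (ω : Set (Sym2 V)) x y) :=
      (Pr_map p val F (fun ω => Conn (ω : Set (Sym2 V)) x y)).symm
    rw [this]
    apply le_tau
    intro e he
    rw [Finset.mem_coe, Finset.mem_map] at he
    obtain ⟨e', _, rfl⟩ := he
    exact e'.2
  · rw [tau_le_iff]
    intro E hE
    have hE' : ∃ F : Finset G.edgeSet, F.map val = E := by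
      refine ⟨E.subtype (fun e => e ∈ G.edgeSet), ?_⟩
      exact Finset.subtype_map_of_mem (fun e he => hE he)
    obtain ⟨F, rfl⟩ := hE'
    refine le_trans (le_of_eq ?_) (le_iSup _ F)
    rw [measure_fin μ h0 h1 hμ F A, Pr_map]

end Pool.Agent.H5.Perc
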