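import Pool.Agent.H5.Perc.Tree

set_option autoImplicit false

/-! The tree of copies is nonamenable. -/

namespace Pool.Agent.H5.Perc

variable {Γ : Type} [Group Γ] {H : SimpleGraph Γ}

open Classical in
/-- the other end of the crossing edge at `x`, raw -/
noncomputable def crR (x : List Γ × Γ) : List Γ × Γ :=
  match x with
  | ([], h) => ([h], 1)
  | (g :: l, h) => if h = 1 then (l, g) else (h :: g :: l, 1)

theorem crR_nil (h : Γ) : crR (([] : List Γ), h) = ([h], 1) := rfl

theorem crR_cons_one (g : Γ) (l : List Γ) : crR (g :: l, (1 : Γ)) = (l, g) := by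
  simp [crR]

theorem crR_cons_ne {h : Γ} (hh : h ≠ 1) (g : Γ) (l : List Γ) :
    crR (g :: l, h) = (h :: g :: l, 1) := by
  simp [crR, hh]

theorem valid_crR {x : List Γ × Γ} (hx : Valid x.1) : Valid (crR x).1 := by
  obtain ⟨l, h⟩ := x
  match l with
  | [] => exact ⟨Or.inl rfl, trivial⟩
  | g :: l =>
    by_cases hh : h = 1
    · subst hh
      rw [crR_cons_one]
      exact hx.2
    · rw [crR_cons_ne hh]
      exact ⟨Or.inr hh, hx⟩

/-- the other end of the crossing edge -/
noncomputable def cr (x : TV Γ) : TV Γ := ⟨crR x.1, valid_crR x.2⟩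

theorem cr_cr (x : TV Γ) : cr (cr x) = x := by
  apply Subtype.ext
  obtain ⟨⟨l, h⟩, hl⟩ := x
  change crR (crR (l, h)) = (l, h)
  match l with
  | [] =>
    rw [crR_nil, crR_cons_one]
  | g :: l =>
    by_cases hh : h = 1
    · subst hh
      rw [crR_cons_one]
      match l with
      | [] => rfl
      | b :: m =>
        rw [crR_cons_ne]
        rcases hl.1 with h1 | h1
        · exact absurd h1 (by simp)
        · exact h1
    · rw [crR_cons_ne hh, crR_cons_one]

theorem adj_cr (x : TV Γ) : (TG H).Adj x (cr x) := by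
  obtain ⟨⟨l, h⟩, hl⟩ := x
  change adjR H (l, h) (crR (l, h))
  match l with
  | [] => exact Or.inr (Or.inl ⟨rfl, rfl⟩)
  | g :: l =>
    by_cases hh : h = 1
    · subst hh
      rw [crR_cons_one]
      exact Or.inr (Or.inr ⟨rfl, rfl⟩)
    · rw [crR_cons_ne hh]
      exact Or.inr (Or.inl ⟨rfl, rfl⟩)

theorem cr_list_ne (x : TV Γ) : (cr x).1.1 ≠ x.1.1 := by
  obtain ⟨⟨l, h⟩, hl⟩ := x
  change (crR (l, h)).1 ≠ l
  match l with
  | [] =>
    rw [crR_nil]
    simp
  | g :: l =>
    by_cases hh : h = 1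
    · subst hh
      rw [crR_cons_one]
      intro h1
      have := congrArg List.length h1
      simp at this
    · rw [crR_cons_ne hh]
      intro h1
      have := congrArg List.length h1
      simp at this

/-- `x` is the entrance of a non-root copy -/
def Gate (x : TV Γ) : Prop := x.1.1 ≠ [] ∧ x.1.2 = 1

theorem gate_or (x : TV Γ) : Gate x ∨ Gate (cr x) := by
  obtain ⟨⟨l, h⟩, hl⟩ := x
  match l with
  | [] =>
    right
    exact ⟨by change (crR (([] : List Γ), h)).1 ≠ []; rw [crR_nil]; simp, rfl⟩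
  | g :: l =>
    by_cases hh : h = 1
    · left
      exact ⟨by simp, hh⟩
    · right
      refine ⟨?_, ?_⟩
      · change (crR (g :: l, h)).1 ≠ []
        rw [crR_cons_ne hh]
        simp
      · change (crR (g :: l, h)).2 = 1
        rw [crR_cons_ne hh]

theorem exists_boundary (hc : H.Connected) [Infinite Γ] (K : Finset (TV Γ)) {x : TV Γ}
    (hx : x ∈ K) : ∃ w ∈ K, w.1.1 = x.1.1 ∧ ∃ v, (TG H).Adj w v ∧ v.1.1 = x.1.1 ∧ v ∉ K := by
  classical
  obtain ⟨⟨l, h⟩, hl⟩ := x
  have hfin : {a : Γ | copy l hl a ∈ K}.Finite := by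
    apply Set.Finite.preimage _ (Finset.finite_toSet K)
    intro a _ b _ hab
    have := congrArg (fun z : TV Γ => z.1.2) hab
    exact this
  obtain ⟨b, hb⟩ : ∃ b, b ∉ {a : Γ | copy l hl a ∈ K} := hfin.exists_notMem
  obtain ⟨p⟩ := hc.preconnected h b
  obtain ⟨d, _, hd1, hd2⟩ := p.exists_boundary_dart {a : Γ | copy l hl a ∈ K} hx hb
  exact ⟨copy l hl d.fst, hd1, rfl, copy l hl d.snd, adj_copy hl d.adj, rfl, hd2⟩

theorem TG_nonamenable (hc : H.Connected) [Infinite Γ] [DecidableEq (TV Γ)]
    [(TG H).LocallyFinite] (K : Finset (TV Γ)) :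
    (K.card : ℝ) ≤ 2 * ∑ u ∈ K, (((TG H).neighborFinset u \ K).card : ℝ) := by
  classical
  set A1 := K.filter (fun u => cr u ∉ K) with hA1
  set A2 := K.filter (fun u => cr u ∈ K) with hA2
  set Gt := K.filter (fun u => Gate u ∧ cr u ∈ K) with hGt
  set W := K.filter (fun w => ∃ v, (TG H).Adj w v ∧ v.1.1 = w.1.1 ∧ v ∉ K) with hW
  have h1 : K.card = A1.card + A2.card := by
    rw [hA1, hA2, add_comm]
    exact (Finset.card_filter_add_card_filter_not (s := K) (fun u => cr u ∈ K)).symm
  have h2 : A2.card ≤ 2 * Gt.card := by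
    have : A2 ⊆ Gt ∪ Gt.image cr := by
      intro u hu
      rw [hA2, Finset.mem_filter] at hu
      rw [Finset.mem_union, Finset.mem_image]
      rcases gate_or u with hg | hg
      · left
        rw [hGt, Finset.mem_filter]
        exact ⟨hu.1, hg, hu.2⟩
      · right
        refine ⟨cr u, ?_, cr_cr u⟩
        rw [hGt, Finset.mem_filter, cr_cr]
        exact ⟨hu.2, hg, hu.1⟩
    calc A2.card ≤ (Gt ∪ Gt.image cr).card := Finset.card_le_card this
      _ ≤ Gt.card + (Gt.image cr).card := Finset.card_union_le _ _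
      _ ≤ Gt.card + Gt.card := Nat.add_le_add_left (Finset.card_image_le (s := Gt) (f := cr)) _
      _ = 2 * Gt.card := by ring
  have h3 : Gt.card ≤ W.card := by
    have hex : ∀ x ∈ K, ∃ w ∈ K, w.1.1 = x.1.1 ∧ ∃ v, (TG H).Adj w v ∧ v.1.1 = x.1.1 ∧ v ∉ K :=
      fun x hx => exists_boundary hc K hx
    choose! f hf using hex
    apply Finset.card_le_card_of_injOn f
    · intro x hx
      have hx' := Finset.mem_filter.1 hx
      obtain ⟨a1, a2, v, a3, a4, a5⟩ := hf x hx'.1
      rw [Finset.mem_coe, hW, Finset.mem_filter]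
      exact ⟨a1, v, a3, a4.trans a2.symm, a5⟩
    · intro x hx y hy hxy
      have hx' := Finset.mem_filter.1 hx
      have hy' := Finset.mem_filter.1 hy
      have e1 := (hf x hx'.1).2.1
      have e2 := (hf y hy'.1).2.1
      have e3 : x.1.1 = y.1.1 := by rw [← e1, ← e2, hxy]
      apply Subtype.ext
      apply Prod.ext e3
      rw [hx'.2.1.2, hy'.2.1.2]
  have h4 : A1.card + W.card ≤ ∑ u ∈ K, ((TG H).neighborFinset u \ K).card := by
    rw [hA1, hW, Finset.card_filter, Finset.card_filter, ← Finset.sum_add_distrib]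
    apply Finset.sum_le_sum
    intro u hu
    by_cases c1 : cr u ∉ K
    · have m1 : cr u ∈ (TG H).neighborFinset u \ K := by
        rw [Finset.mem_sdiff, SimpleGraph.mem_neighborFinset]
        exact ⟨adj_cr u, c1⟩
      by_cases c2 : ∃ v, (TG H).Adj u v ∧ v.1.1 = u.1.1 ∧ v ∉ K
      · rw [if_pos c1, if_pos c2]
        obtain ⟨v, v1, v2, v3⟩ := c2
        have m2 : v ∈ (TG H).neighborFinset u \ K := by
          rw [Finset.mem_sdiff, SimpleGraph.mem_neighborFinset]
          exact ⟨v1, v3⟩
        have hne : cr u ≠ v := by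
          intro h
          apply cr_list_ne u
          rw [h, v2]
        have : ({cr u, v} : Finset (TV Γ)) ⊆ (TG H).neighborFinset u \ K := by
          intro z hz
          rcases Finset.mem_insert.1 hz with rfl | hz
          · exact m1
          · rw [Finset.mem_singleton.1 hz]
            exact m2
        have := Finset.card_le_card this
        rwa [Finset.card_pair hne] at this
      · rw [if_pos c1, if_neg c2]
        exact Finset.card_pos.2 ⟨_, m1⟩
    · by_cases c2 : ∃ v, (TG H).Adj u v ∧ v.1.1 = u.1.1 ∧ v ∉ K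
      · rw [if_neg c1, if_pos c2]
        obtain ⟨v, v1, v2, v3⟩ := c2
        have m2 : v ∈ (TG H).neighborFinset u \ K := by
          rw [Finset.mem_sdiff, SimpleGraph.mem_neighborFinset]
          exact ⟨v1, v3⟩
        rw [zero_add]
        exact Finset.card_pos.2 ⟨_, m2⟩
      · rw [if_neg c1, if_neg c2]
        exact Nat.zero_le _
  have h5 : K.card ≤ 2 * ∑ u ∈ K, ((TG H).neighborFinset u \ K).card := by
    omega
  exact_mod_cast h5

end Pool.Agent.H5.Perc
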