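import Pool.Agent.H5.Perc.Oper
import Pool.Agent.H5.Perc.NonAmen
import Pool.Agent.H5.Perc.Link

set_option autoImplicit false

/-! From a block graph to the plateau of `q ↦ p_{q → q}`. -/

namespace Pool.Agent.H5.Perc

open scoped ENNReal NNReal
open MeasureTheory

section

variable {Γ : Type} [Group Γ] [DecidableEq Γ] {H : SimpleGraph Γ}

/-- left multiplication as an automorphism -/
def leftIso (hinv : ∀ g a b, H.Adj a b → H.Adj (g * a) (g * b)) (g : Γ) : H ≃g H where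
  toEquiv := Equiv.mulLeft g
  map_rel_iff' := by
    intro a b
    constructor
    · intro h
      have := hinv g⁻¹ _ _ h
      simpa using this
    · intro h
      exact hinv g _ _ h

theorem tau_left (hinv : ∀ g a b, H.Adj a b → H.Adj (g * a) (g * b)) (p : ℝ) (g a b : Γ) :
    tau H p (g * a) (g * b) = tau H p a b := tau_iso (leftIso hinv g) p a b

theorem row_sum (hinv : ∀ g a b, H.Adj a b → H.Adj (g * a) (g * b)) (p : ℝ) (a : Γ) :
    ∑' b, tau H p a b = ∑' b, tau H p 1 b := by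
  rw [← (Equiv.mulLeft a).tsum_eq (fun b => tau H p a b)]
  apply tsum_congr
  intro b
  change tau H p a (a * b) = _
  have := tau_left hinv p a 1 b
  rwa [mul_one] at this

/-- Følner argument: `ℓ²`-boundedness gives finite susceptibility of the block -/
theorem chi_le (hinv : ∀ g a b, H.Adj a b → H.Adj (g * a) (g * b))
    (hfol : ∀ K : Finset Γ, ∃ F : Finset Γ, F.Nonempty ∧
      ∀ k ∈ K, F.card ≤ 2 * (F.filter (fun x => x * k ∈ F)).card)
    (p : ℝ) (C : ℝ≥0∞)
    (hC : ∀ f : TV Γ → ℝ≥0∞, ∑' x : TV Γ, (∑' y : TV Γ, tau (TG H) p x y * f y) ^ (2 : ℝ) ≤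
      C ^ (2 : ℝ) * ∑' x : TV Γ, f x ^ (2 : ℝ)) :
    ∑' b, tau H p 1 b ≤ 2 * C := by
  classical
  rw [ENNReal.tsum_eq_iSup_sum]
  apply iSup_le
  intro K
  obtain ⟨F, hF, hK⟩ := hfol K
  set ι := copyEmb ([] : List Γ) valid_nil with hι
  set f : TV Γ → ℝ≥0∞ := fun y => if y ∈ F.map ι then 1 else 0 with hf
  have hle : ∀ a b, tau H p a b ≤ tau (TG H) p (ι a) (ι b) := fun a b =>
    tau_le_of_embedding ι (fun a b h => adj_copy valid_nil h) p a b
  -- the ℓ² bound on the block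
  have h1 : ∑ a ∈ F, (∑ b ∈ F, tau H p a b) ^ (2 : ℝ) ≤ C ^ (2 : ℝ) * F.card := by
    have e1 : ∑' x : TV Γ, f x ^ (2 : ℝ) = F.card := by
      have : ∀ x, f x ^ (2 : ℝ) = if x ∈ F.map ι then 1 else 0 := by
        intro x
        rw [hf]
        by_cases hx : x ∈ F.map ι
        · simp only [hx, if_true, ENNReal.one_rpow]
        · simp only [hx, if_false]
          rw [ENNReal.zero_rpow_of_pos (by norm_num)]
      rw [tsum_congr this, tsum_eq_sum (s := F.map ι) (by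
        intro x hx
        simp [hx])]
      rw [Finset.sum_congr rfl (fun x hx => if_pos hx), Finset.sum_const, Finset.card_map]
      simp
    have e2 : ∀ a, ∑ b ∈ F, tau H p a b ≤ ∑' y : TV Γ, tau (TG H) p (ι a) y * f y := by
      intro a
      calc ∑ b ∈ F, tau H p a b ≤ ∑ b ∈ F, tau (TG H) p (ι a) (ι b) * f (ι b) := by
            apply Finset.sum_le_sum
            intro b hb
            have : f (ι b) = 1 := by
              rw [hf]
              simp only [Finset.mem_map', hb, if_true]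
            rw [this, mul_one]
            exact hle a b
        _ = ∑ y ∈ F.map ι, tau (TG H) p (ι a) y * f y := by rw [Finset.sum_map]
        _ ≤ _ := ENNReal.sum_le_tsum _
    calc ∑ a ∈ F, (∑ b ∈ F, tau H p a b) ^ (2 : ℝ)
        ≤ ∑ a ∈ F, (∑' y : TV Γ, tau (TG H) p (ι a) y * f y) ^ (2 : ℝ) := by
          apply Finset.sum_le_sum
          intro a _
          exact ENNReal.rpow_le_rpow (e2 a) (by norm_num)
      _ = ∑ x ∈ F.map ι, (∑' y : TV Γ, tau (TG H) p x y * f y) ^ (2 : ℝ) := by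
          rw [Finset.sum_map]
      _ ≤ ∑' x : TV Γ, (∑' y : TV Γ, tau (TG H) p x y * f y) ^ (2 : ℝ) :=
          ENNReal.sum_le_tsum _
      _ ≤ C ^ (2 : ℝ) * ∑' x : TV Γ, f x ^ (2 : ℝ) := hC f
      _ = _ := by rw [e1]
  have h2 : ∑ a ∈ F, ∑ b ∈ F, tau H p a b ≤ C * F.card := by
    have := ENNReal.rpow_sum_le_const_mul_sum_rpow F (fun a => ∑ b ∈ F, tau H p a b)
      (p := 2) (by norm_num)
    have h3 : (∑ a ∈ F, ∑ b ∈ F, tau H p a b) ^ (2 : ℝ) ≤ (C * F.card) ^ (2 : ℝ) := by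
      refine this.trans ?_
      have e : (2 : ℝ) - 1 = 1 := by norm_num
      rw [e, ENNReal.rpow_one, ENNReal.mul_rpow_of_nonneg _ _ (by norm_num)]
      calc (F.card : ℝ≥0∞) * ∑ a ∈ F, (∑ b ∈ F, tau H p a b) ^ (2 : ℝ)
          ≤ F.card * (C ^ (2 : ℝ) * F.card) := mul_le_mul' le_rfl h1
        _ = C ^ (2 : ℝ) * (F.card : ℝ≥0∞) ^ (2 : ℝ) := by
          rw [ENNReal.rpow_two (F.card : ℝ≥0∞)]
          ring
    exact (ENNReal.rpow_le_rpow_iff (by norm_num)).1 h3
  -- lower bound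
  have h4 : (∑ k ∈ K, tau H p 1 k) * F.card ≤ 2 * ∑ a ∈ F, ∑ b ∈ F, tau H p a b := by
    have e3 : ∀ a ∈ F, ∑ k ∈ K.filter (fun k => a * k ∈ F), tau H p 1 k ≤
        ∑ b ∈ F, tau H p a b := by
      intro a _
      calc ∑ k ∈ K.filter (fun k => a * k ∈ F), tau H p 1 k
          = ∑ k ∈ K.filter (fun k => a * k ∈ F), tau H p a (a * k) := by
            apply Finset.sum_congr rfl
            intro k _
            have := tau_left hinv p a 1 k
            rw [mul_one] at this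
            exact this.symm
        _ = ∑ b ∈ (K.filter (fun k => a * k ∈ F)).image (fun k => a * k), tau H p a b := by
            rw [Finset.sum_image]
            intro x _ y _ hxy
            exact mul_left_cancel hxy
        _ ≤ ∑ b ∈ F, tau H p a b := by
            apply Finset.sum_le_sum_of_subset
            intro b hb
            rw [Finset.mem_image] at hb
            obtain ⟨k, hk, rfl⟩ := hb
            exact (Finset.mem_filter.1 hk).2
    calc (∑ k ∈ K, tau H p 1 k) * F.card = ∑ k ∈ K, tau H p 1 k * F.card := by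
          rw [Finset.sum_mul]
      _ ≤ ∑ k ∈ K, tau H p 1 k * (2 * (F.filter (fun x => x * k ∈ F)).card) := by
          apply Finset.sum_le_sum
          intro k hk
          refine mul_le_mul' le_rfl ?_
          exact_mod_cast hK k hk
      _ = 2 * ∑ k ∈ K, ∑ a ∈ F, (if a * k ∈ F then tau H p 1 k else 0) := by
          rw [Finset.mul_sum]
          apply Finset.sum_congr rfl
          intro k _
          rw [← Finset.sum_filter, Finset.sum_const, nsmul_eq_mul]
          ring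
      _ = 2 * ∑ a ∈ F, ∑ k ∈ K.filter (fun k => a * k ∈ F), tau H p 1 k := by
          rw [Finset.sum_comm]
          congr 1
          apply Finset.sum_congr rfl
          intro a _
          rw [Finset.sum_filter]
      _ ≤ 2 * ∑ a ∈ F, ∑ b ∈ F, tau H p a b :=
          mul_le_mul' le_rfl (Finset.sum_le_sum e3)
  have h5 : (∑ k ∈ K, tau H p 1 k) * F.card ≤ (2 * C) * F.card := by
    refine h4.trans ?_
    rw [mul_assoc]
    exact mul_le_mul' le_rfl h2
  have hcard : (F.card : ℝ≥0∞) ≠ 0 := by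
    exact_mod_cast hF.card_pos.ne'
  exact (ENNReal.mul_le_mul_iff_left hcard (ENNReal.natCast_ne_top _)).1 h5

end

theorem exists_bernoulli {p : ℝ} (h0 : 0 ≤ p) (h1 : p ≤ 1) :
    ∃ μ : Measure Bool, IsProbabilityMeasure μ ∧ μ {true} = ENNReal.ofReal p := by
  refine ⟨ENNReal.ofReal p • Measure.dirac true + ENNReal.ofReal (1 - p) • Measure.dirac false,
    ⟨?_⟩, ?_⟩
  · simp only [Measure.coe_add, Measure.coe_smul, Pi.add_apply, Pi.smul_apply, measure_univ,
      smul_eq_mul, mul_one]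
    rw [← ENNReal.ofReal_add h0 (by linarith)]
    simp
  · simp

theorem not_main_of_block {Γ : Type} [Group Γ] [DecidableEq Γ] [Countable Γ] [Infinite Γ]
    (H : SimpleGraph Γ) (hinv : ∀ g a b, H.Adj a b → H.Adj (g * a) (g * b))
    (hconn : H.Connected) (hfin : ∀ a, (H.neighborSet a).Finite)
    (hfol : ∀ K : Finset Γ, ∃ F : Finset Γ, F.Nonempty ∧
      ∀ k ∈ K, F.card ≤ 2 * (F.filter (fun x => x * k ∈ F)).card)
    (hblock : ∀ p : ℝ, 0 ≤ p → p ≤ 1 → ∑' h, tau H p 1 h ≠ ⊤ →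
      p ≤ 1 / 16 ∧ ∑' h, tau H p 1 h ^ (3 / 2 : ℝ) ≤ 2) :
    ¬ (∀ (V : Type) [DecidableEq V] (G : SimpleGraph V) [G.LocallyFinite],
    G.Connected →
    (∃ S : Finset V, ∀ v : V, ∃ φ : G ≃g G, ∃ s ∈ S, φ s = v) →
    (∃ c : ℝ, 0 < c ∧ ∀ K : Finset V,
        c * (K.card : ℝ) ≤ ∑ u ∈ K, ((G.neighborFinset u \ K).card : ℝ)) →
    ∀ P : ℝ → ℝ,
      (∀ q : ℝ, P q = sSup {p : ℝ | p ∈ Set.Icc (0:ℝ) 1 ∧
          ∀ (μ : Measure Bool) [IsProbabilityMeasure μ], μ {true} = ENNReal.ofReal p →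
            ∃ C : ℝ≥0, ∀ f : V → ℝ≥0∞,
              ∑' x : V, (∑' y : V,
                  Measure.infinitePi (fun _ : G.edgeSet => μ)
                    {ω : G.edgeSet → Bool |
                      (SimpleGraph.fromEdgeSet
                        {e : Sym2 V | ∃ h : e ∈ G.edgeSet, ω ⟨e, h⟩ = true}).Reachable x y}
                  * f y) ^ q
                ≤ (C : ℝ≥0∞) ^ q * ∑' x : V, f x ^ q}) →
      ContinuousOn P (Set.Icc (1:ℝ) 2) ∧ StrictMonoOn P (Set.Icc (1:ℝ) 2)) := by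
  classical
  intro hall
  have hlf : (TG H).LocallyFinite := fun x => (TG_neighbor_finite hfin x).fintype
  have hcount : Countable (TV Γ) := inferInstance
  set S : ℝ → Set ℝ := fun q => {p : ℝ | p ∈ Set.Icc (0:ℝ) 1 ∧
          ∀ (μ : Measure Bool) [IsProbabilityMeasure μ], μ {true} = ENNReal.ofReal p →
            ∃ C : ℝ≥0, ∀ f : TV Γ → ℝ≥0∞,
              ∑' x : TV Γ, (∑' y : TV Γ,
                  Measure.infinitePi (fun _ : (TG H).edgeSet => μ)
                    {ω : (TG H).edgeSet → Bool |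
                      (SimpleGraph.fromEdgeSet
                        {e : Sym2 (TV Γ) | ∃ h : e ∈ (TG H).edgeSet, ω ⟨e, h⟩ = true}).Reachable x y}
                  * f y) ^ q
                ≤ (C : ℝ≥0∞) ^ q * ∑' x : TV Γ, f x ^ q} with hS
  have hmain := @hall (TV Γ) _ (TG H) hlf (TG_connected hconn)
    ⟨{root}, fun v => by
      obtain ⟨φ, hφ⟩ := TG_transitive hinv v
      exact ⟨φ, root, Finset.mem_singleton_self _, hφ⟩⟩
    ⟨1 / 2, by norm_num, fun K => by
      have := TG_nonamenable hconn K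
      linarith⟩
    (fun q => sSup (S q)) (fun q => rfl)
  have hlt := hmain.2 (show (3 / 2 : ℝ) ∈ Set.Icc (1 : ℝ) 2 by norm_num)
    (show (2 : ℝ) ∈ Set.Icc (1 : ℝ) 2 by norm_num) (by norm_num)
  have hsub : S 2 ⊆ S (3 / 2) := by
    intro p hp
    obtain ⟨⟨h0, h1⟩, hp⟩ := hp
    obtain ⟨μ₀, hμ₀, hμ₀'⟩ := exists_bernoulli h0 h1
    obtain ⟨C, hC⟩ := hp μ₀ hμ₀'
    have hchi : ∑' b, tau H p 1 b ≤ 2 * C := by
      apply chi_le hinv hfol p C
      intro f
      have := hC f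
      simp only [measure_conn (TG H) μ₀ h0 h1 hμ₀'] at this
      exact this
    have hchi' : ∑' b, tau H p 1 b ≠ ⊤ :=
      (hchi.trans_lt (ENNReal.mul_lt_top (by norm_num) ENNReal.coe_lt_top)).ne
    obtain ⟨hp4, hsum⟩ := hblock p h0 h1 hchi'
    have hq4 : ENNReal.ofReal p ≤ 16⁻¹ := by
      have : (16⁻¹ : ℝ≥0∞) = ENNReal.ofReal (1 / 16) := by
        rw [ENNReal.ofReal_div_of_pos (by norm_num)]
        simp
      rw [this]
      exact ENNReal.ofReal_le_ofReal hp4
    have hq1 : (16⁻¹ : ℝ≥0∞) ≤ 1 := by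
      rw [ENNReal.inv_le_one]
      norm_num
    have hq2 : (16⁻¹ : ℝ≥0∞) * 2 ≤ 4⁻¹ := by
      have e : (16⁻¹ : ℝ≥0∞) = 4⁻¹ * (2⁻¹ * 2⁻¹) := by
        rw [← ENNReal.mul_inv (by norm_num) (by norm_num),
          ← ENNReal.mul_inv (by norm_num) (by norm_num)]
        norm_num
      rw [e, mul_assoc, mul_assoc, ENNReal.inv_mul_cancel (by norm_num) (by norm_num), mul_one]
      calc (4⁻¹ : ℝ≥0∞) * 2⁻¹ ≤ 4⁻¹ * 1 := by
            refine mul_le_mul' le_rfl ?_
            rw [ENNReal.inv_le_one]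
            norm_num
        _ = 4⁻¹ := mul_one _
    have hcomm : ∀ h, tau H p h 1 = tau H p 1 h := fun h => tau_comm H p h 1
    have hw : ∑' h, (ENNReal.ofReal p * tau H p h 1) ^ (3 / 2 : ℝ) ≤ 4⁻¹ := by
      calc ∑' h, (ENNReal.ofReal p * tau H p h 1) ^ (3 / 2 : ℝ)
          = ENNReal.ofReal p ^ (3 / 2 : ℝ) * ∑' h, tau H p 1 h ^ (3 / 2 : ℝ) := by
            rw [← ENNReal.tsum_mul_left]
            apply tsum_congr
            intro h
            rw [ENNReal.mul_rpow_of_nonneg _ _ (by norm_num), hcomm]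
        _ ≤ (16⁻¹ : ℝ≥0∞) ^ (3 / 2 : ℝ) * 2 :=
            mul_le_mul' (ENNReal.rpow_le_rpow hq4 (by norm_num)) hsum
        _ ≤ (16⁻¹ : ℝ≥0∞) ^ (1 : ℝ) * 2 :=
            mul_le_mul' (ENNReal.rpow_le_rpow_of_exponent_ge hq1 (by norm_num)) le_rfl
        _ ≤ 4⁻¹ := by
            rw [ENNReal.rpow_one]
            exact hq2
    have hw' : (∑' h, (ENNReal.ofReal p * tau H p h 1) ^ (3 : ℝ)) ^ (1 / 2 : ℝ) ≤ 4⁻¹ := by
      have e1 : ∑' h, (ENNReal.ofReal p * tau H p h 1) ^ (3 : ℝ) ≤ (4⁻¹ : ℝ≥0∞) ^ (2 : ℝ) := by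
        calc ∑' h, (ENNReal.ofReal p * tau H p h 1) ^ (3 : ℝ)
            ≤ ∑' h, ENNReal.ofReal p ^ (3 : ℝ) * tau H p 1 h ^ (3 / 2 : ℝ) := by
              apply ENNReal.tsum_le_tsum
              intro h
              rw [ENNReal.mul_rpow_of_nonneg _ _ (by norm_num), hcomm]
              exact mul_le_mul' le_rfl (ENNReal.rpow_le_rpow_of_exponent_ge
                (tau_le_one H h0 h1 1 h) (by norm_num))
          _ = ENNReal.ofReal p ^ (3 : ℝ) * ∑' h, tau H p 1 h ^ (3 / 2 : ℝ) :=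
              ENNReal.tsum_mul_left
          _ ≤ (16⁻¹ : ℝ≥0∞) ^ (3 : ℝ) * 2 :=
              mul_le_mul' (ENNReal.rpow_le_rpow hq4 (by norm_num)) hsum
          _ = 16⁻¹ * (16⁻¹ * (16⁻¹ * 2)) := by
              rw [show (3 : ℝ) = ((3 : ℕ) : ℝ) by norm_num, ENNReal.rpow_natCast]
              ring
          _ ≤ 16⁻¹ * (1 * 1) := by
              refine mul_le_mul' le_rfl (mul_le_mul' hq1 (hq2.trans ?_))
              rw [ENNReal.inv_le_one]
              norm_num
          _ = (4⁻¹ : ℝ≥0∞) ^ (2 : ℝ) := by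
              rw [ENNReal.rpow_two, ← ENNReal.inv_pow]
              norm_num
      refine (ENNReal.rpow_le_rpow e1 (by norm_num)).trans ?_
      rw [← ENNReal.rpow_mul]
      norm_num
    refine ⟨⟨h0, h1⟩, ?_⟩
    intro μ hμ hμ'
    set χ := ∑' b, tau H p 1 b with hχ
    have hbound := operator_bound (H := H) h0 h1 (χ := χ)
      (fun a => (row_sum hinv p a).le) hw hw'
    have hD : (16 * χ ^ (3 / 2 : ℝ) : ℝ≥0∞) ≠ ⊤ :=
      ENNReal.mul_ne_top (by norm_num) (ENNReal.rpow_ne_top_of_nonneg (by norm_num) hchi')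
    obtain ⟨D, hDD⟩ : ∃ D : ℝ≥0, (D : ℝ≥0∞) = 16 * χ ^ (3 / 2 : ℝ) :=
      ⟨_, ENNReal.coe_toNNReal hD⟩
    refine ⟨max 1 D, ?_⟩
    intro f
    simp only [measure_conn (TG H) μ h0 h1 hμ']
    refine (hbound f).trans ?_
    refine mul_le_mul' ?_ le_rfl
    rw [← hDD]
    calc ((D : ℝ≥0) : ℝ≥0∞) ≤ ((max 1 D : ℝ≥0) : ℝ≥0∞) := by
          exact_mod_cast le_max_right _ _
      _ = ((max 1 D : ℝ≥0) : ℝ≥0∞) ^ (1 : ℝ) := (ENNReal.rpow_one _).symm
      _ ≤ ((max 1 D : ℝ≥0) : ℝ≥0∞) ^ (3 / 2 : ℝ) :=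
          ENNReal.rpow_le_rpow_of_exponent_le (by exact_mod_cast le_max_left _ _) (by norm_num)
  have hle : sSup (S 2) ≤ sSup (S (3 / 2)) := by
    by_cases hne : (S 2).Nonempty
    · exact csSup_le_csSup ⟨1, fun p hp => hp.1.2⟩ hne hsub
    · rw [Set.not_nonempty_iff_eq_empty.1 hne, Real.sSup_empty]
      exact Real.sSup_nonneg (fun p hp => hp.1.1)
  exact absurd hlt (not_lt.2 hle)

end Pool.Agent.H5.Perc
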