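import Pool.Agent.H5.Perc.Graph

set_option autoImplicit false

/-!
Decomposition of open paths (union bound + van den Berg–Kesten) for the two-point function
restricted to sets of vertices.
-/

namespace Pool.Agent.H5.Perc

open Finset
open scoped ENNReal

section Union

variable {ι κ : Type*} [DecidableEq ι]

theorem Pr_exists_tsum {p : ℝ} (h0 : 0 ≤ p) (h1 : p ≤ 1) (E : Finset ι)
    (A : κ → Finset ι → Prop) :
    ENNReal.ofReal (Pr p E (fun ω => ∃ k, A k ω)) ≤ ∑' k, ENNReal.ofReal (Pr p E (A k)) := by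
  classical
  have hch : ∀ ω : {ω : Finset ι // ω ∈ E.powerset.filter (fun ω => ∃ k, A k ω)},
      ∃ k, A k ω.1 := fun ω => (Finset.mem_filter.1 ω.2).2
  choose f hf using hch
  let s : Finset κ := (E.powerset.filter (fun ω => ∃ k, A k ω)).attach.image f
  have key : Pr p E (fun ω => ∃ k, A k ω) ≤ ∑ k ∈ s, Pr p E (A k) := by
    refine le_trans (Pr_mono h0 h1 E ?_) (Pr_exists_le h0 h1 E s A)
    intro ω hω h
    have hm : ω ∈ E.powerset.filter (fun ω => ∃ k, A k ω) :=
      Finset.mem_filter.2 ⟨Finset.mem_powerset.2 hω, h⟩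
    exact ⟨f ⟨ω, hm⟩, Finset.mem_image.2 ⟨⟨ω, hm⟩, Finset.mem_attach _ _, rfl⟩, hf ⟨ω, hm⟩⟩
  calc ENNReal.ofReal (Pr p E (fun ω => ∃ k, A k ω))
      ≤ ENNReal.ofReal (∑ k ∈ s, Pr p E (A k)) := ENNReal.ofReal_le_ofReal key
    _ = ∑ k ∈ s, ENNReal.ofReal (Pr p E (A k)) :=
        ENNReal.ofReal_sum_of_nonneg (fun k _ => Pr_nonneg h0 h1 _ _)
    _ ≤ _ := ENNReal.sum_le_tsum s

omit [DecidableEq ι] in
theorem incr_disj {A B : Finset ι → Prop} : Incr (Disj A B) := by
  rintro ω ω' h ⟨I, J, hI, hJ, hd, hA, hB⟩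
  exact ⟨I, J, hI.trans h, hJ.trans h, hd, hA, hB⟩

end Union

section Res

variable {V : Type*}

/-- the part of the graph inside `S` -/
def res (H : SimpleGraph V) (S : Set V) : SimpleGraph V where
  Adj a b := H.Adj a b ∧ a ∈ S ∧ b ∈ S
  symm := ⟨by
    rintro a b ⟨h, ha, hb⟩
    exact ⟨h.symm, hb, ha⟩⟩
  loopless := ⟨by
    rintro a ⟨h, _, _⟩
    exact h.ne rfl⟩

theorem res_adj {H : SimpleGraph V} {S : Set V} {a b : V} :
    (res H S).Adj a b ↔ H.Adj a b ∧ a ∈ S ∧ b ∈ S := Iff.rfl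

theorem res_le (H : SimpleGraph V) (S : Set V) : res H S ≤ H := fun _ _ h => h.1

theorem res_mono (H : SimpleGraph V) {S T : Set V} (h : S ⊆ T) : res H S ≤ res H T :=
  fun _ _ ⟨h1, h2, h3⟩ => ⟨h1, h h2, h h3⟩

theorem res_res_le (H : SimpleGraph V) (S T : Set V) : res (res H S) T ≤ res H T :=
  fun _ _ ⟨h1, h2, h3⟩ => ⟨h1.1, h2, h3⟩

/-- edges inside `S` -/
def inS (S : Set V) : Set (Sym2 V) := {e | ∀ v ∈ e, v ∈ S}

theorem mem_inS {S : Set V} {a b : V} : s(a, b) ∈ inS S ↔ a ∈ S ∧ b ∈ S := by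
  unfold inS
  rw [Set.mem_ofPred_eq]
  constructor
  · intro h
    exact ⟨h a (Sym2.mem_mk_left a b), h b (Sym2.mem_mk_right a b)⟩
  · rintro ⟨ha, hb⟩ v hv
    rcases Sym2.mem_iff.1 hv with rfl | rfl
    · exact ha
    · exact hb

theorem mem_res_edgeSet {H : SimpleGraph V} {S : Set V} {e : Sym2 V} :
    e ∈ (res H S).edgeSet ↔ e ∈ H.edgeSet ∧ e ∈ inS S := by
  induction e using Sym2.ind with
  | _ a b =>
    rw [SimpleGraph.mem_edgeSet, SimpleGraph.mem_edgeSet, mem_inS]
    rfl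

/-- all vertices of a walk in `res H S` starting in `S` are in `S` -/
theorem support_res {H : SimpleGraph V} {S : Set V} {x y : V} (w : (res H S).Walk x y)
    (hx : x ∈ S) : ∀ v ∈ w.support, v ∈ S := by
  induction w with
  | nil =>
    intro v hv
    rw [SimpleGraph.Walk.support_nil, List.mem_singleton] at hv
    exact hv ▸ hx
  | cons h w ih =>
    intro v hv
    rw [SimpleGraph.Walk.support_cons, List.mem_cons] at hv
    rcases hv with rfl | hv
    · exact hx
    · exact ih h.2.2 v hv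

theorem conn_of_walk {H : SimpleGraph V} {ω : Set (Sym2 V)} {x y : V} (w : H.Walk x y)
    (h : ∀ e ∈ w.edges, e ∈ ω) : Conn ω x y := by
  induction w with
  | nil => exact Conn.refl _ _
  | cons hadj w ih =>
    rw [SimpleGraph.Walk.edges_cons] at h
    exact (Conn.edge (h _ (List.mem_cons_self ..))).trans
      (ih (fun e he => h e (List.mem_cons_of_mem _ he)))

theorem edges_inS {H : SimpleGraph V} {S : Set V} {x y : V} (w : H.Walk x y)
    (h : ∀ v ∈ w.support, v ∈ S) : ∀ e ∈ w.edges, e ∈ inS S := by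
  intro e he v hv
  apply h
  induction e using Sym2.ind with
  | _ a b =>
    rcases Sym2.mem_iff.1 hv with rfl | rfl
    · exact w.fst_mem_support_of_mem_edges he
    · exact w.snd_mem_support_of_mem_edges he

/-- unreachable pairs -/
theorem tau_eq_zero [DecidableEq V] {H : SimpleGraph V} {p : ℝ} {x y : V}
    (h : ¬ H.Reachable x y) : tau H p x y = 0 := by
  rw [← nonpos_iff_eq_zero, tau_le_iff]
  intro E hE
  have : Pr p E (fun ω => Conn (ω : Set (Sym2 V)) x y) = Pr p E (fun _ => False) := by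
    apply Pr_congr
    intro ω hω
    refine ⟨fun hc => h ?_, False.elim⟩
    have h2 : Conn (H.edgeSet) x y := hc.mono (fun e he => hE (hω he))
    unfold Conn at h2
    rwa [SimpleGraph.fromEdgeSet_edgeSet] at h2
  rw [this, Pr_false]
  simp

theorem tau_res_eq_zero [DecidableEq V] {H : SimpleGraph V} {S : Set V} {p : ℝ} {x y : V}
    (hx : x ∉ S) (hxy : x ≠ y) : tau (res H S) p x y = 0 := by
  apply tau_eq_zero
  rintro ⟨w⟩
  cases w with
  | nil => exact hxy rfl
  | cons h w => exact hx h.2.1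

theorem Pr_inS_le [DecidableEq V] {H : SimpleGraph V} (S : Set V) {p : ℝ}
    (E : Finset (Sym2 V)) (hE : (E : Set (Sym2 V)) ⊆ H.edgeSet) (x y : V) :
    ENNReal.ofReal (Pr p E (fun ω => Conn ((ω : Set (Sym2 V)) ∩ inS S) x y)) ≤
      tau (res H S) p x y := by
  classical
  have hF : E.filter (· ∈ inS S) ⊆ E := Finset.filter_subset _ _
  have h1 : Pr p E (fun ω => Conn ((ω : Set (Sym2 V)) ∩ inS S) x y) =
      Pr p (E.filter (· ∈ inS S)) (fun ω => Conn ((ω : Set (Sym2 V)) ∩ inS S) x y) := by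
    apply Pr_restrict p hF
    intro ω hω
    have : ((ω ∩ E.filter (· ∈ inS S) : Finset (Sym2 V)) : Set (Sym2 V)) ∩ inS S =
        (ω : Set (Sym2 V)) ∩ inS S := by
      ext e
      simp only [Finset.coe_inter, Finset.coe_filter, Set.mem_inter_iff, Finset.mem_coe,
        Set.mem_ofPred_eq]
      constructor
      · rintro ⟨⟨h1, _⟩, h3⟩
        exact ⟨h1, h3⟩
      · rintro ⟨h1, h3⟩
        exact ⟨⟨h1, hω h1, h3⟩, h3⟩
    rw [this]
  have h2 : Pr p (E.filter (· ∈ inS S)) (fun ω => Conn ((ω : Set (Sym2 V)) ∩ inS S) x y) =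
      Pr p (E.filter (· ∈ inS S)) (fun ω => Conn (ω : Set (Sym2 V)) x y) := by
    apply Pr_congr
    intro ω hω
    have : (ω : Set (Sym2 V)) ∩ inS S = (ω : Set (Sym2 V)) := by
      apply Set.inter_eq_left.2
      intro e he
      exact (Finset.mem_filter.1 (hω he)).2
    rw [this]
  rw [h1, h2]
  apply le_tau
  intro e he
  rw [Finset.mem_coe, Finset.mem_filter] at he
  rw [mem_res_edgeSet]
  exact ⟨hE he.1, he.2⟩

theorem incr_inS [DecidableEq V] (S : Set V) (x y : V) :
    Incr (fun ω : Finset (Sym2 V) => Conn ((ω : Set (Sym2 V)) ∩ inS S) x y) := by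
  intro ω ω' h hc
  refine hc.mono ?_
  intro e he
  exact ⟨h he.1, he.2⟩

/-- splitting open paths into three pieces -/
theorem cut3 [DecidableEq V] {H : SimpleGraph V} {p : ℝ} (h0 : 0 ≤ p) (h1 : p ≤ 1 / 2) (x y : V)
    {κ : Type*} (good : κ → Prop) [DecidablePred good] (z₁ z₂ : κ → V) (S₁ S₂ S₃ : κ → Set V)
    (h : ∀ w : H.Walk x y, w.IsPath → ∃ k, good k ∧ ∃ (w₁ : H.Walk x (z₁ k))
      (w₂ : H.Walk (z₁ k) (z₂ k)) (w₃ : H.Walk (z₂ k) y), w = w₁.append (w₂.append w₃) ∧
      (∀ v ∈ w₁.support, v ∈ S₁ k) ∧ (∀ v ∈ w₂.support, v ∈ S₂ k) ∧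
      (∀ v ∈ w₃.support, v ∈ S₃ k)) :
    tau H p x y ≤ ∑' k, if good k then tau (res H (S₁ k)) p x (z₁ k) *
      (tau (res H (S₂ k)) p (z₁ k) (z₂ k) * tau (res H (S₃ k)) p (z₂ k) y) else 0 := by
  classical
  rw [tau_le_iff]
  intro E hE
  have hp1 : p ≤ 1 := by linarith
  let A : κ → Finset (Sym2 V) → Prop := fun k ω => Conn ((ω : Set (Sym2 V)) ∩ inS (S₁ k)) x (z₁ k)
  let B : κ → Finset (Sym2 V) → Prop :=
    fun k ω => Conn ((ω : Set (Sym2 V)) ∩ inS (S₂ k)) (z₁ k) (z₂ k)
  let C : κ → Finset (Sym2 V) → Prop := fun k ω => Conn ((ω : Set (Sym2 V)) ∩ inS (S₃ k)) (z₂ k) y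
  have step1 : Pr p E (fun ω => Conn (ω : Set (Sym2 V)) x y) ≤
      Pr p E (fun ω => ∃ k, (good k ∧ Disj (A k) (Disj (B k) (C k)) ω)) := by
    apply Pr_mono h0 hp1
    intro ω hω hc
    obtain ⟨w0, hw0⟩ := SimpleGraph.Reachable.exists_isPath hc
    have hle : SimpleGraph.fromEdgeSet (ω : Set (Sym2 V)) ≤ H := by
      intro a b hab
      rw [SimpleGraph.fromEdgeSet_adj] at hab
      have := hE (hω hab.1)
      rwa [SimpleGraph.mem_edgeSet] at this
    have hw : (w0.mapLe hle).IsPath := (SimpleGraph.Walk.isPath_mapLe hle).2 hw0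
    have hed : ∀ e ∈ (w0.mapLe hle).edges, e ∈ ω := by
      intro e he
      rw [SimpleGraph.Walk.edges_mapLe_eq_edges] at he
      have := w0.edges_subset_edgeSet he
      rw [SimpleGraph.edgeSet_fromEdgeSet] at this
      exact this.1
    obtain ⟨k, hg, w₁, w₂, w₃, hw123, hs1, hs2, hs3⟩ := h _ hw
    rw [hw123] at hw hed
    have hnd := hw.isTrail.edges_nodup
    rw [SimpleGraph.Walk.edges_append, SimpleGraph.Walk.edges_append] at hnd hed
    rw [List.nodup_append'] at hnd
    obtain ⟨_, hnd2, hd1⟩ := hnd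
    rw [List.nodup_append'] at hnd2
    obtain ⟨_, _, hd2⟩ := hnd2
    refine ⟨k, hg, w₁.edges.toFinset, w₂.edges.toFinset ∪ w₃.edges.toFinset, ?_, ?_, ?_, ?_, ?_⟩
    · intro e he
      exact hed e (List.mem_append_left _ (List.mem_toFinset.1 he))
    · intro e he
      rw [Finset.mem_union, List.mem_toFinset, List.mem_toFinset, ← List.mem_append] at he
      exact hed e (List.mem_append_right _ he)
    · rw [Finset.disjoint_left]
      intro e he he'
      rw [Finset.mem_union, List.mem_toFinset, List.mem_toFinset, ← List.mem_append] at he'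
      exact hd1 (List.mem_toFinset.1 he) he'
    · apply conn_of_walk w₁
      intro e he
      exact ⟨by simpa using he, edges_inS w₁ hs1 e he⟩
    · refine ⟨w₂.edges.toFinset, w₃.edges.toFinset, Finset.subset_union_left,
        Finset.subset_union_right, ?_, ?_, ?_⟩
      · rw [Finset.disjoint_left]
        intro e he he'
        exact hd2 (List.mem_toFinset.1 he) (List.mem_toFinset.1 he')
      · apply conn_of_walk w₂
        intro e he
        exact ⟨by simpa using he, edges_inS w₂ hs2 e he⟩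
      · apply conn_of_walk w₃
        intro e he
        exact ⟨by simpa using he, edges_inS w₃ hs3 e he⟩
  refine (ENNReal.ofReal_le_ofReal step1).trans ((Pr_exists_tsum h0 hp1 E _).trans ?_)
  apply ENNReal.tsum_le_tsum
  intro k
  by_cases hk : good k
  · rw [if_pos hk]
    have e1 : Pr p E (fun ω => good k ∧ Disj (A k) (Disj (B k) (C k)) ω) ≤
        Pr p E (Disj (A k) (Disj (B k) (C k))) := Pr_mono h0 hp1 E (fun _ _ h => h.2)
    have e2 := bk h0 h1 E (incr_inS (S₁ k) x (z₁ k)) (incr_disj (A := B k) (B := C k))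
    have e3 := bk h0 h1 E (incr_inS (S₂ k) (z₁ k) (z₂ k)) (incr_inS (S₃ k) (z₂ k) y)
    have n1 := Pr_nonneg h0 hp1 E (A k)
    have n2 := Pr_nonneg h0 hp1 E (B k)
    calc ENNReal.ofReal (Pr p E (fun ω => good k ∧ Disj (A k) (Disj (B k) (C k)) ω))
        ≤ ENNReal.ofReal (Pr p E (A k) * (Pr p E (B k) * Pr p E (C k))) := by
          apply ENNReal.ofReal_le_ofReal
          refine e1.trans (e2.trans ?_)
          exact mul_le_mul_of_nonneg_left e3 n1
      _ = ENNReal.ofReal (Pr p E (A k)) * (ENNReal.ofReal (Pr p E (B k)) *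
            ENNReal.ofReal (Pr p E (C k))) := by
          rw [ENNReal.ofReal_mul n1, ENNReal.ofReal_mul n2]
      _ ≤ _ := by
          refine mul_le_mul' (Pr_inS_le (S₁ k) E hE _ _) (mul_le_mul' ?_ ?_)
          · exact Pr_inS_le (S₂ k) E hE _ _
          · exact Pr_inS_le (S₃ k) E hE _ _
  · rw [if_neg hk]
    have : Pr p E (fun ω => good k ∧ Disj (A k) (Disj (B k) (C k)) ω) =
        Pr p E (fun _ => False) := by
      apply Pr_congr
      intro ω _
      exact ⟨fun h => hk h.1, False.elim⟩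
    rw [this, Pr_false]
    simp

/-- splitting open paths into two pieces -/
theorem cut2 [DecidableEq V] {H : SimpleGraph V} {p : ℝ} (h0 : 0 ≤ p) (h1 : p ≤ 1 / 2) (x y : V)
    {κ : Type*} (good : κ → Prop) [DecidablePred good] (z : κ → V) (S₁ S₂ : κ → Set V)
    (h : ∀ w : H.Walk x y, w.IsPath → ∃ k, good k ∧ ∃ (w₁ : H.Walk x (z k))
      (w₂ : H.Walk (z k) y), w = w₁.append w₂ ∧
      (∀ v ∈ w₁.support, v ∈ S₁ k) ∧ (∀ v ∈ w₂.support, v ∈ S₂ k)) :
    tau H p x y ≤ ∑' k, if good k then tau (res H (S₁ k)) p x (z k) *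
      tau (res H (S₂ k)) p (z k) y else 0 := by
  refine (cut3 h0 h1 x y good z (fun _ => y) S₁ S₂ (fun _ => Set.univ) ?_).trans ?_
  · intro w hw
    obtain ⟨k, hg, w₁, w₂, hw12, hs1, hs2⟩ := h w hw
    refine ⟨k, hg, w₁, w₂, SimpleGraph.Walk.nil, ?_, hs1, hs2, fun _ _ => trivial⟩
    rw [SimpleGraph.Walk.append_nil]
    exact hw12
  · apply ENNReal.tsum_le_tsum
    intro k
    split_ifs
    · rw [tau_self _ h0 (by linarith), mul_one]
    · exact le_rfl

/-- first hitting decomposition of a walk -/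
theorem first_hit {G : SimpleGraph V} {x y : V} (D : Set V) (w : G.Walk x y)
    (h : ∃ v ∈ w.support, v ∈ D) : ∃ z ∈ D, ∃ (w₁ : G.Walk x z) (w₂ : G.Walk z y),
      w = w₁.append w₂ ∧ ∀ v ∈ w₁.support, v ∈ D → v = z := by
  induction w with
  | @nil u =>
    obtain ⟨v, hv, hD⟩ := h
    rw [SimpleGraph.Walk.support_nil, List.mem_singleton] at hv
    subst hv
    refine ⟨v, hD, SimpleGraph.Walk.nil, SimpleGraph.Walk.nil, rfl, ?_⟩
    intro v' hv' _
    rwa [SimpleGraph.Walk.support_nil, List.mem_singleton] at hv'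
  | @cons u v t hadj w ih =>
    by_cases hu : u ∈ D
    · refine ⟨u, hu, SimpleGraph.Walk.nil, SimpleGraph.Walk.cons hadj w, rfl, ?_⟩
      intro v' hv' _
      rwa [SimpleGraph.Walk.support_nil, List.mem_singleton] at hv'
    · obtain ⟨v', hv', hD⟩ := h
      rw [SimpleGraph.Walk.support_cons, List.mem_cons] at hv'
      have hv'' : v' ∈ w.support := by
        rcases hv' with rfl | h
        · exact absurd hD hu
        · exact h
      obtain ⟨z, hz, w₁, w₂, hw, hfirst⟩ := ih ⟨v', hv'', hD⟩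
      refine ⟨z, hz, SimpleGraph.Walk.cons hadj w₁, w₂, by rw [hw]; rfl, ?_⟩
      intro a ha haD
      rw [SimpleGraph.Walk.support_cons, List.mem_cons] at ha
      rcases ha with rfl | ha
      · exact absurd haD hu
      · exact hfirst a ha haD

/-- the end point of a path only belongs to the last piece -/
theorem end_notMem {G : SimpleGraph V} {x y z : V} {w₁ : G.Walk x z} {w₂ : G.Walk z y}
    (hp : (w₁.append w₂).IsPath) (hy : y ∈ w₁.support) : y = z := by
  by_contra hne
  have hnd := hp.support_nodup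
  rw [SimpleGraph.Walk.support_append, List.nodup_append'] at hnd
  have h2 : y ∈ w₂.support := w₂.end_mem_support
  rw [← SimpleGraph.Walk.cons_tail_support, List.mem_cons] at h2
  rcases h2 with h2 | h2
  · exact hne h2
  · exact hnd.2.2 hy h2

/-- two vertices of a walk cut it into three pieces -/
theorem two_points [DecidableEq V] {G : SimpleGraph V} {x y u v : V} (w : G.Walk x y)
    (hu : u ∈ w.support) (hv : v ∈ w.support) :
    (∃ (w₁ : G.Walk x u) (w₂ : G.Walk u v) (w₃ : G.Walk v y), w = w₁.append (w₂.append w₃)) ∨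
    (∃ (w₁ : G.Walk x v) (w₂ : G.Walk v u) (w₃ : G.Walk u y), w = w₁.append (w₂.append w₃)) := by
  have hsp := w.take_spec hu
  rw [← hsp, SimpleGraph.Walk.mem_support_append_iff] at hv
  rcases hv with hv | hv
  · right
    refine ⟨(w.takeUntil u hu).takeUntil v hv, (w.takeUntil u hu).dropUntil v hv,
      w.dropUntil u hu, ?_⟩
    rw [SimpleGraph.Walk.append_assoc, SimpleGraph.Walk.take_spec, hsp]
  · left
    refine ⟨w.takeUntil u hu, (w.dropUntil u hu).takeUntil v hv,
      (w.dropUntil u hu).dropUntil v hv, ?_⟩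
    rw [SimpleGraph.Walk.take_spec, hsp]

end Res

section Indep

variable {V : Type*} [DecidableEq V]

/-- connections inside edge-disjoint subgraphs multiply -/
theorem tau_mul_le {G G₁ G₂ : SimpleGraph V} (h₁ : G₁ ≤ G) (h₂ : G₂ ≤ G)
    (hd : Disjoint G₁.edgeSet G₂.edgeSet) {p : ℝ} (h0 : 0 ≤ p) (h1 : p ≤ 1) (x y z : V) :
    tau G₁ p x y * tau G₂ p y z ≤ tau G p x z := by
  have key : ∀ E₁ : Finset (Sym2 V), (E₁ : Set (Sym2 V)) ⊆ G₁.edgeSet →
      ∀ E₂ : Finset (Sym2 V), (E₂ : Set (Sym2 V)) ⊆ G₂.edgeSet →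
      ENNReal.ofReal (Pr p E₁ (fun ω => Conn (ω : Set (Sym2 V)) x y)) *
      ENNReal.ofReal (Pr p E₂ (fun ω => Conn (ω : Set (Sym2 V)) y z)) ≤ tau G p x z := by
    intro E₁ hE₁ E₂ hE₂
    rw [← ENNReal.ofReal_mul (Pr_nonneg h0 h1 _ _)]
    refine le_trans ?_ (le_tau G p x z (E₁ ∪ E₂) ?_)
    · apply ENNReal.ofReal_le_ofReal
      let A : Finset (Sym2 V) → Prop := fun ω => Conn ((ω : Set (Sym2 V)) ∩ (E₁ : Set _)) x y
      let B : Finset (Sym2 V) → Prop := fun ω => Conn ((ω : Set (Sym2 V)) ∩ (E₂ : Set _)) y z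
      have hA : Pr p (E₁ ∪ E₂) A = Pr p E₁ (fun ω => Conn (ω : Set (Sym2 V)) x y) := by
        rw [Pr_restrict p (Finset.subset_union_left) (A := A)]
        · apply Pr_congr
          intro ω hω
          have : (ω : Set (Sym2 V)) ∩ (E₁ : Set _) = (ω : Set (Sym2 V)) :=
            Set.inter_eq_left.2 (by exact_mod_cast hω)
          change Conn ((ω : Set (Sym2 V)) ∩ (E₁ : Set _)) x y ↔ _
          rw [this]
        · intro ω _
          change Conn ((ω : Set (Sym2 V)) ∩ (E₁ : Set _)) x y ↔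
            Conn (((ω ∩ E₁ : Finset (Sym2 V)) : Set (Sym2 V)) ∩ (E₁ : Set _)) x y
          rw [Finset.coe_inter, Set.inter_assoc, Set.inter_self]
      have hB : Pr p (E₁ ∪ E₂) B = Pr p E₂ (fun ω => Conn (ω : Set (Sym2 V)) y z) := by
        rw [Pr_restrict p (Finset.subset_union_right) (A := B)]
        · apply Pr_congr
          intro ω hω
          have : (ω : Set (Sym2 V)) ∩ (E₂ : Set _) = (ω : Set (Sym2 V)) :=
            Set.inter_eq_left.2 (by exact_mod_cast hω)
          change Conn ((ω : Set (Sym2 V)) ∩ (E₂ : Set _)) y z ↔ _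
          rw [this]
        · intro ω _
          change Conn ((ω : Set (Sym2 V)) ∩ (E₂ : Set _)) y z ↔
            Conn (((ω ∩ E₂ : Finset (Sym2 V)) : Set (Sym2 V)) ∩ (E₂ : Set _)) y z
          rw [Finset.coe_inter, Set.inter_assoc, Set.inter_self]
      rw [← hA, ← hB, ← Pr_indep p (E₁ ∪ E₂) (S := (E₁ : Set _)) (T := (E₂ : Set _))]
      · apply Pr_mono h0 h1
        intro ω _ h
        exact (h.1.mono Set.inter_subset_left).trans (h.2.mono Set.inter_subset_left)
      · intro ω ω' h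
        have : (ω : Set (Sym2 V)) ∩ (E₁ : Set _) = (ω' : Set (Sym2 V)) ∩ (E₁ : Set _) := by
          ext e
          constructor
          · rintro ⟨a, b⟩
            exact ⟨(h e b).1 a, b⟩
          · rintro ⟨a, b⟩
            exact ⟨(h e b).2 a, b⟩
        change Conn _ x y ↔ Conn _ x y
        rw [this]
      · intro ω ω' h
        have : (ω : Set (Sym2 V)) ∩ (E₂ : Set _) = (ω' : Set (Sym2 V)) ∩ (E₂ : Set _) := by
          ext e
          constructor
          · rintro ⟨a, b⟩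
            exact ⟨(h e b).1 a, b⟩
          · rintro ⟨a, b⟩
            exact ⟨(h e b).2 a, b⟩
        change Conn _ y z ↔ Conn _ y z
        rw [this]
      · exact Set.disjoint_left.2 (fun e a b => Set.disjoint_left.1 hd (hE₁ a) (hE₂ b))
    · rw [Finset.coe_union]
      exact Set.union_subset (hE₁.trans (SimpleGraph.edgeSet_subset_edgeSet.2 h₁))
        (hE₂.trans (SimpleGraph.edgeSet_subset_edgeSet.2 h₂))
  unfold tau at key ⊢
  simp only [ENNReal.iSup_mul, ENNReal.mul_iSup, iSup_le_iff]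
  intro E₁ hE₁ E₂ hE₂
  first
    | exact key E₁ hE₁ E₂ hE₂
    | exact key _ hE₂ _ hE₁

/-- single edge -/
theorem edge_le_tau {G : SimpleGraph V} {p : ℝ} {x y : V}
    (h : G.Adj x y) : ENNReal.ofReal p ≤ tau G p x y := by
  refine le_trans ?_ (le_tau G p x y {s(x, y)} (by
    intro e he
    rw [Finset.coe_singleton, Set.mem_singleton_iff] at he
    rw [he, SimpleGraph.mem_edgeSet]
    exact h))
  apply ENNReal.ofReal_le_ofReal
  have h2 : ({s(x, y)} : Finset (Sym2 V)) = insert s(x, y) ∅ := rfl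
  classical
  have hA : ¬ Conn ((∅ : Finset (Sym2 V)) : Set (Sym2 V)) x y := by
    rintro ⟨w⟩
    cases w with
    | nil => exact h.ne rfl
    | cons h _ =>
      rw [SimpleGraph.fromEdgeSet_adj] at h
      simpa using h.1
  have hB : Conn ((insert s(x, y) ∅ : Finset (Sym2 V)) : Set (Sym2 V)) x y :=
    Conn.edge (by simp)
  rw [h2, Pr_insert p (Finset.notMem_empty _), Pr_empty, Pr_empty, if_neg hA, if_pos hB]
  simp

end Indep

end Pool.Agent.H5.Perc
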