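import Mathlib

set_option autoImplicit false

/-!
Finite Bernoulli product measures on subsets of a finite set `E`.
-/

namespace Pool.Agent.H5.Perc

open Finset

variable {ι : Type*} [DecidableEq ι]

/-- Bernoulli weight of `ω ⊆ E` -/
noncomputable def wt (p : ℝ) (E ω : Finset ι) : ℝ := p ^ ω.card * (1 - p) ^ (E \ ω).card

open Classical in
/-- probability of the event `A` when each element of `E` is kept with probability `p` -/
noncomputable def Pr (p : ℝ) (E : Finset ι) (A : Finset ι → Prop) : ℝ :=
  ∑ ω ∈ E.powerset, if A ω then wt p E ω else 0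

theorem wt_nonneg {p : ℝ} (h0 : 0 ≤ p) (h1 : p ≤ 1) (E ω : Finset ι) : 0 ≤ wt p E ω := by
  unfold wt
  have : 0 ≤ 1 - p := by linarith
  positivity

theorem Pr_empty (p : ℝ) (A : Finset ι → Prop) [Decidable (A ∅)] :
    Pr p ∅ A = if A ∅ then 1 else 0 := by
  classical
  unfold Pr
  simp [wt]

theorem Pr_insert (p : ℝ) {E : Finset ι} {e : ι} (he : e ∉ E) (A : Finset ι → Prop) :
    Pr p (insert e E) A = (1 - p) * Pr p E A + p * Pr p E (fun ω => A (insert e ω)) := by
  classical
  unfold Pr
  rw [Finset.sum_powerset_insert he, Finset.mul_sum, Finset.mul_sum]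
  congr 1
  · apply Finset.sum_congr rfl
    intro ω hω
    have heω : e ∉ ω := fun h => he (Finset.mem_powerset.1 hω h)
    have : insert e E \ ω = insert e (E \ ω) := Finset.insert_sdiff_of_notMem _ heω
    unfold wt
    rw [this, Finset.card_insert_of_notMem (fun h => he (Finset.mem_sdiff.1 h).1)]
    split_ifs <;> ring
  · apply Finset.sum_congr rfl
    intro ω hω
    have heω : e ∉ ω := fun h => he (Finset.mem_powerset.1 hω h)
    have h1 : insert e E \ insert e ω = E \ ω := by
      ext x
      simp only [Finset.mem_sdiff, Finset.mem_insert, not_or]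
      constructor
      · rintro ⟨h | h, h2, h3⟩
        · exact absurd h h2
        · exact ⟨h, h3⟩
      · rintro ⟨h, h3⟩
        exact ⟨Or.inr h, fun h4 => he (h4 ▸ h), h3⟩
    unfold wt
    rw [h1, Finset.card_insert_of_notMem heω]
    split_ifs <;> ring

theorem Pr_congr (p : ℝ) (E : Finset ι) {A B : Finset ι → Prop}
    (h : ∀ ω ⊆ E, A ω ↔ B ω) : Pr p E A = Pr p E B := by
  classical
  unfold Pr
  apply Finset.sum_congr rfl
  intro ω hω
  simp only [h ω (Finset.mem_powerset.1 hω)]

theorem Pr_mono {p : ℝ} (h0 : 0 ≤ p) (h1 : p ≤ 1) (E : Finset ι) {A B : Finset ι → Prop}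
    (h : ∀ ω ⊆ E, A ω → B ω) : Pr p E A ≤ Pr p E B := by
  classical
  unfold Pr
  apply Finset.sum_le_sum
  intro ω hω
  by_cases hA : A ω
  · rw [if_pos hA, if_pos (h ω (Finset.mem_powerset.1 hω) hA)]
  · rw [if_neg hA]
    split_ifs
    · exact wt_nonneg h0 h1 _ _
    · exact le_rfl

theorem Pr_nonneg {p : ℝ} (h0 : 0 ≤ p) (h1 : p ≤ 1) (E : Finset ι) (A : Finset ι → Prop) :
    0 ≤ Pr p E A := by
  classical
  unfold Pr
  apply Finset.sum_nonneg
  intro ω _
  split_ifs
  · exact wt_nonneg h0 h1 _ _
  · exact le_rfl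

theorem Pr_true (p : ℝ) (E : Finset ι) : Pr p E (fun _ => True) = 1 := by
  classical
  induction E using Finset.induction_on with
  | empty => rw [Pr_empty]; simp
  | insert e E he ih =>
    rw [Pr_insert p he, ih]
    ring

theorem Pr_le_one {p : ℝ} (h0 : 0 ≤ p) (h1 : p ≤ 1) (E : Finset ι) (A : Finset ι → Prop) :
    Pr p E A ≤ 1 := by
  rw [← Pr_true p E]
  exact Pr_mono h0 h1 E (fun _ _ _ => trivial)

theorem Pr_false (p : ℝ) (E : Finset ι) : Pr p E (fun _ => False) = 0 := by
  classical
  unfold Pr
  simp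

theorem Pr_or {p : ℝ} (h0 : 0 ≤ p) (h1 : p ≤ 1) (E : Finset ι) (A B : Finset ι → Prop) :
    Pr p E (fun ω => A ω ∨ B ω) ≤ Pr p E A + Pr p E B := by
  classical
  unfold Pr
  rw [← Finset.sum_add_distrib]
  apply Finset.sum_le_sum
  intro ω _
  have := wt_nonneg h0 h1 E ω
  by_cases hA : A ω <;> by_cases hB : B ω <;> simp [hA, hB, this]

theorem Pr_exists_le {κ : Type*} {p : ℝ} (h0 : 0 ≤ p) (h1 : p ≤ 1) (E : Finset ι)
    (s : Finset κ) (A : κ → Finset ι → Prop) :
    Pr p E (fun ω => ∃ k ∈ s, A k ω) ≤ ∑ k ∈ s, Pr p E (A k) := by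
  classical
  induction s using Finset.induction_on with
  | empty => simp [Pr_false]
  | insert a s ha ih =>
    rw [Finset.sum_insert ha]
    calc Pr p E (fun ω => ∃ k ∈ insert a s, A k ω)
        ≤ Pr p E (fun ω => A a ω ∨ ∃ k ∈ s, A k ω) := by
          apply Pr_mono h0 h1
          intro ω _ h
          obtain ⟨k, hk, hA⟩ := h
          rcases Finset.mem_insert.1 hk with rfl | hk
          · exact Or.inl hA
          · exact Or.inr ⟨k, hk, hA⟩
      _ ≤ _ := (Pr_or h0 h1 E _ _).trans (by gcongr)

/-- `A` depends only on the coordinates in `S`. -/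
def DependsOn (A : Finset ι → Prop) (S : Set ι) : Prop :=
  ∀ ω ω' : Finset ι, (∀ e ∈ S, e ∈ ω ↔ e ∈ ω') → (A ω ↔ A ω')

/-- independence of events depending on disjoint sets of coordinates -/
theorem Pr_indep (p : ℝ) (E : Finset ι) {A B : Finset ι → Prop} {S T : Set ι}
    (hA : DependsOn A S) (hB : DependsOn B T) (hST : Disjoint S T) :
    Pr p E (fun ω => A ω ∧ B ω) = Pr p E A * Pr p E B := by
  classical
  induction E using Finset.induction_on generalizing A B with
  | empty =>
    rw [Pr_empty, Pr_empty, Pr_empty]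
    by_cases h1 : A ∅ <;> by_cases h2 : B ∅ <;> simp [h1, h2]
  | insert e E he ih =>
    have hA' : DependsOn (fun ω => A (insert e ω)) S := by
      intro ω ω' h
      apply hA
      intro f hf
      simp only [Finset.mem_insert, h f hf]
    have hB' : DependsOn (fun ω => B (insert e ω)) T := by
      intro ω ω' h
      apply hB
      intro f hf
      simp only [Finset.mem_insert, h f hf]
    rw [Pr_insert p he, Pr_insert p he, Pr_insert p he, ih hA hB, ih hA' hB']
    by_cases hS : e ∈ S
    · have hT : e ∉ T := fun h => (Set.disjoint_left.1 hST hS h)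
      have : Pr p E (fun ω => B (insert e ω)) = Pr p E B := by
        apply Pr_congr
        intro ω _
        apply hB
        intro f hf
        have : f ≠ e := fun h => hT (h ▸ hf)
        simp [this]
      rw [this]
      ring
    · have : Pr p E (fun ω => A (insert e ω)) = Pr p E A := by
        apply Pr_congr
        intro ω _
        apply hA
        intro f hf
        have : f ≠ e := fun h => hS (h ▸ hf)
        simp [this]
      rw [this]
      ring

/-- coordinates on which the event does not depend may be dropped -/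
theorem Pr_restrict (p : ℝ) {E F : Finset ι} (hF : F ⊆ E) {A : Finset ι → Prop}
    (hA : ∀ ω ⊆ E, A ω ↔ A (ω ∩ F)) : Pr p E A = Pr p F A := by
  classical
  obtain ⟨G, hG, rfl⟩ : ∃ G, Disjoint F G ∧ E = F ∪ G :=
    ⟨E \ F, Finset.disjoint_sdiff, by rw [Finset.union_sdiff_of_subset hF]⟩
  clear hF
  induction G using Finset.induction_on with
  | empty => rw [Finset.union_empty]
  | insert e G he ih =>
    have heF : e ∉ F := fun h => Finset.disjoint_left.1 hG h (Finset.mem_insert_self _ _)
    have hG' : Disjoint F G := hG.mono_right (Finset.subset_insert _ _)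
    have hsub : ∀ ω ⊆ F ∪ G, A ω ↔ A (ω ∩ F) := fun ω hω => hA ω (hω.trans
      (Finset.union_subset_union le_rfl (Finset.subset_insert _ _)))
    rw [← ih hG' hsub]
    rw [Finset.union_insert, Pr_insert p (by
      rw [Finset.mem_union]
      rintro (h | h)
      · exact heF h
      · exact he h)]
    have : Pr p (F ∪ G) (fun ω => A (insert e ω)) = Pr p (F ∪ G) A := by
      apply Pr_congr
      intro ω hω
      rw [hA _ (by
        rw [Finset.union_insert]
        exact Finset.insert_subset_insert _ hω), hsub ω hω,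
        Finset.insert_inter_of_notMem heF]
    rw [this]
    ring

/-- increasing events -/
def Incr (A : Finset ι → Prop) : Prop := ∀ ω ω' : Finset ι, ω ⊆ ω' → A ω → A ω'

theorem Incr.insert {A : Finset ι → Prop} (hA : Incr A) (e : ι) :
    Incr (fun ω => A (insert e ω)) := fun _ _ h => hA _ _ (Finset.insert_subset_insert _ h)

/-- monotonicity in `p` of increasing events -/
theorem Pr_mono_p {p p' : ℝ} (h0 : 0 ≤ p) (hp : p ≤ p') (h1 : p' ≤ 1) (E : Finset ι)
    {A : Finset ι → Prop} (hA : Incr A) : Pr p E A ≤ Pr p' E A := by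
  classical
  induction E using Finset.induction_on generalizing A with
  | empty => rw [Pr_empty, Pr_empty]
  | insert e E he ih =>
    rw [Pr_insert p he, Pr_insert p' he]
    have a1 := ih hA
    have a2 := ih (hA.insert e)
    have a3 : Pr p' E A ≤ Pr p' E (fun ω => A (insert e ω)) :=
      Pr_mono (h0.trans hp) h1 E (fun ω _ h => hA _ _ (Finset.subset_insert _ _) h)
    have b1 : (1 - p) * Pr p E A ≤ (1 - p) * Pr p' E A :=
      mul_le_mul_of_nonneg_left a1 (by linarith)
    have b2 : p * Pr p E (fun ω => A (insert e ω)) ≤ p * Pr p' E (fun ω => A (insert e ω)) :=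
      mul_le_mul_of_nonneg_left a2 h0
    nlinarith

/-- monotonicity in `E` of increasing events -/
theorem Pr_mono_set {p : ℝ} (h0 : 0 ≤ p) (h1 : p ≤ 1) {E F : Finset ι} (hEF : E ⊆ F)
    {A : Finset ι → Prop} (hA : Incr A) : Pr p E A ≤ Pr p F A := by
  classical
  obtain ⟨G, hG, rfl⟩ : ∃ G, Disjoint E G ∧ F = E ∪ G :=
    ⟨F \ E, Finset.disjoint_sdiff, by rw [Finset.union_sdiff_of_subset hEF]⟩
  clear hEF
  induction G using Finset.induction_on with
  | empty => rw [Finset.union_empty]
  | insert e G he ih =>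
    have heE : e ∉ E := fun h => Finset.disjoint_left.1 hG h (Finset.mem_insert_self _ _)
    refine (ih (hG.mono_right (Finset.subset_insert _ _))).trans ?_
    rw [Finset.union_insert, Pr_insert p (by
      rw [Finset.mem_union]
      rintro (h | h)
      · exact heE h
      · exact he h)]
    have a3 : Pr p (E ∪ G) A ≤ Pr p (E ∪ G) (fun ω => A (insert e ω)) :=
      Pr_mono h0 h1 _ (fun ω _ h => hA _ _ (Finset.subset_insert _ _) h)
    nlinarith

/-- disjoint occurrence -/
def Disj (A B : Finset ι → Prop) : Finset ι → Prop :=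
  fun ω => ∃ I J : Finset ι, I ⊆ ω ∧ J ⊆ ω ∧ Disjoint I J ∧ A I ∧ B J

theorem Pr_or_and (p : ℝ) (E : Finset ι) (A B : Finset ι → Prop) :
    Pr p E (fun ω => A ω ∨ B ω) + Pr p E (fun ω => A ω ∧ B ω) = Pr p E A + Pr p E B := by
  classical
  unfold Pr
  rw [← Finset.sum_add_distrib, ← Finset.sum_add_distrib]
  apply Finset.sum_congr rfl
  intro ω _
  by_cases hA : A ω <;> by_cases hB : B ω <;> simp [hA, hB]

/-- the van den Berg–Kesten inequality for `p ≤ 1/2` -/
theorem bk {p : ℝ} (h0 : 0 ≤ p) (h1 : p ≤ 1 / 2) (E : Finset ι) {A B : Finset ι → Prop}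
    (hA : Incr A) (hB : Incr B) : Pr p E (Disj A B) ≤ Pr p E A * Pr p E B := by
  classical
  induction E using Finset.induction_on generalizing A B with
  | empty =>
    rw [Pr_empty, Pr_empty, Pr_empty]
    by_cases h : Disj A B ∅
    · obtain ⟨I, J, hI, hJ, _, hA, hB⟩ := h
      rw [Finset.subset_empty] at hI hJ
      subst hI hJ
      rw [if_pos hA, if_pos hB]
      split_ifs <;> norm_num
    · rw [if_neg h]
      split_ifs <;> simp
  | insert e E he ih =>
    have hp1 : p ≤ 1 := by linarith
    have hA' := hA.insert e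
    have hB' := hB.insert e
    set A₁ : Finset ι → Prop := fun ω => A (insert e ω) with hA₁
    set B₁ : Finset ι → Prop := fun ω => B (insert e ω) with hB₁
    rw [Pr_insert p he, Pr_insert p he, Pr_insert p he]
    have i00 := ih hA hB
    have i01 := ih hA hB'
    have i10 := ih hA' hB
    have key : Pr p E (fun ω => Disj A B (insert e ω)) ≤
        Pr p E (Disj A B₁) + Pr p E (Disj A₁ B) - Pr p E (Disj A B) := by
      have e1 : Pr p E (fun ω => Disj A B (insert e ω)) ≤
          Pr p E (fun ω => Disj A B₁ ω ∨ Disj A₁ B ω) := by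
        apply Pr_mono h0 hp1
        rintro ω hω ⟨I, J, hI, hJ, hIJ, hAI, hBJ⟩
        have sub : ∀ K ⊆ insert e ω, K.erase e ⊆ ω := by
          intro K hK x hx
          rcases Finset.mem_insert.1 (hK (Finset.mem_of_mem_erase hx)) with h | h
          · exact absurd h (Finset.ne_of_mem_erase hx)
          · exact h
        by_cases heI : e ∈ I
        · right
          refine ⟨I.erase e, J, sub I hI, ?_, hIJ.mono_left (Finset.erase_subset _ _), ?_, hBJ⟩
          · have heJ : e ∉ J := fun h => Finset.disjoint_left.1 hIJ heI h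
            have := sub J hJ
            rwa [Finset.erase_eq_of_notMem heJ] at this
          · change A (insert e (I.erase e))
            rwa [Finset.insert_erase heI]
        · left
          refine ⟨I, J.erase e, ?_, sub J hJ, hIJ.mono_right (Finset.erase_subset _ _), hAI, ?_⟩
          · have := sub I hI
            rwa [Finset.erase_eq_of_notMem heI] at this
          · change B (insert e (J.erase e))
            exact hB _ _ (Finset.subset_insert_iff.2 (by simp)) hBJ
      have e2 : Pr p E (Disj A B) ≤ Pr p E (fun ω => Disj A B₁ ω ∧ Disj A₁ B ω) := by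
        apply Pr_mono h0 hp1
        rintro ω hω ⟨I, J, hI, hJ, hIJ, hAI, hBJ⟩
        exact ⟨⟨I, J, hI, hJ, hIJ, hAI, hB _ _ (Finset.subset_insert _ _) hBJ⟩,
          ⟨I, J, hI, hJ, hIJ, hA _ _ (Finset.subset_insert _ _) hAI, hBJ⟩⟩
      have e3 := Pr_or_and p E (Disj A B₁) (Disj A₁ B)
      linarith
    have m1 : Pr p E A ≤ Pr p E A₁ :=
      Pr_mono h0 hp1 E (fun ω _ h => hA _ _ (Finset.subset_insert _ _) h)
    have m2 : Pr p E B ≤ Pr p E B₁ :=
      Pr_mono h0 hp1 E (fun ω _ h => hB _ _ (Finset.subset_insert _ _) h)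
    have k1 : (1 - 2 * p) * Pr p E (Disj A B) ≤ (1 - 2 * p) * (Pr p E A * Pr p E B) :=
      mul_le_mul_of_nonneg_left i00 (by linarith)
    have k2 : p * Pr p E (fun ω => Disj A B (insert e ω)) ≤
        p * (Pr p E A * Pr p E B₁ + Pr p E A₁ * Pr p E B - Pr p E (Disj A B)) :=
      mul_le_mul_of_nonneg_left (by linarith) h0
    have k3 : 0 ≤ p ^ 2 * ((Pr p E A₁ - Pr p E A) * (Pr p E B₁ - Pr p E B)) :=
      mul_nonneg (sq_nonneg p) (mul_nonneg (by linarith) (by linarith))
    nlinarith

end Pool.Agent.H5.Perc
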