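import Pool.Agent.H5.Perc.Fin

set_option autoImplicit false

/-!
Bernoulli bond percolation: the two-point function as a supremum of finite sums, and its
identification with the infinite product measure.
-/

namespace Pool.Agent.H5.Perc

open Finset MeasureTheory
open scoped ENNReal

section Conn

variable {V W : Type*}

/-- `x` and `y` are connected by the edges of `ω` -/
def Conn (ω : Set (Sym2 V)) (x y : V) : Prop := (SimpleGraph.fromEdgeSet ω).Reachable x y

theorem Conn.refl (ω : Set (Sym2 V)) (x : V) : Conn ω x x := SimpleGraph.Reachable.refl x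

theorem Conn.symm {ω : Set (Sym2 V)} {x y : V} (h : Conn ω x y) : Conn ω y x :=
  SimpleGraph.Reachable.symm h

theorem Conn.trans {ω : Set (Sym2 V)} {x y z : V} (h : Conn ω x y) (h' : Conn ω y z) :
    Conn ω x z := SimpleGraph.Reachable.trans h h'

theorem Conn.mono {ω ω' : Set (Sym2 V)} (h : ω ⊆ ω') {x y : V} (hc : Conn ω x y) :
    Conn ω' x y := SimpleGraph.Reachable.mono (SimpleGraph.fromEdgeSet_mono h) hc

theorem Conn.edge {ω : Set (Sym2 V)} {x y : V} (h : s(x, y) ∈ ω) : Conn ω x y := by
  by_cases hxy : x = y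
  · subst hxy
    exact Conn.refl _ _
  · exact SimpleGraph.Adj.reachable (by
      rw [SimpleGraph.fromEdgeSet_adj]
      exact ⟨h, hxy⟩)

/-- connectivity is pushed forward by maps that contract or preserve the open edges -/
theorem Conn.map {ω : Set (Sym2 V)} {ω' : Set (Sym2 W)} (f : V → W)
    (h : ∀ a b, s(a, b) ∈ ω → f a = f b ∨ s(f a, f b) ∈ ω') {x y : V} (hc : Conn ω x y) :
    Conn ω' (f x) (f y) := by
  obtain ⟨w⟩ := hc
  induction w with
  | nil => exact Conn.refl _ _
  | cons hadj w ih =>
    rw [SimpleGraph.fromEdgeSet_adj] at hadj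
    refine Conn.trans ?_ ih
    rcases h _ _ hadj.1 with h1 | h1
    · rw [h1]
      exact Conn.refl _ _
    · exact Conn.edge h1

theorem incr_conn [DecidableEq V] (x y : V) :
    Incr (fun ω : Finset (Sym2 V) => Conn (ω : Set (Sym2 V)) x y) := by
  intro ω ω' h hc
  exact hc.mono (by exact_mod_cast h)

end Conn

section Tau

variable {V : Type*} [DecidableEq V]

/-- two-point function of Bernoulli bond percolation on `G` -/
noncomputable def tau (G : SimpleGraph V) (p : ℝ) (x y : V) : ℝ≥0∞ :=
  ⨆ (E : Finset (Sym2 V)) (_ : (E : Set (Sym2 V)) ⊆ G.edgeSet),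
    ENNReal.ofReal (Pr p E (fun ω => Conn (ω : Set (Sym2 V)) x y))

theorem le_tau (G : SimpleGraph V) (p : ℝ) (x y : V) (E : Finset (Sym2 V))
    (hE : (E : Set (Sym2 V)) ⊆ G.edgeSet) :
    ENNReal.ofReal (Pr p E (fun ω => Conn (ω : Set (Sym2 V)) x y)) ≤ tau G p x y :=
  le_iSup₂ (f := fun (E : Finset (Sym2 V)) (_ : (E : Set (Sym2 V)) ⊆ G.edgeSet) =>
    ENNReal.ofReal (Pr p E (fun ω => Conn (ω : Set (Sym2 V)) x y))) E hE

theorem tau_le_iff {G : SimpleGraph V} {p : ℝ} {x y : V} {c : ℝ≥0∞} :
    tau G p x y ≤ c ↔ ∀ E : Finset (Sym2 V), (E : Set (Sym2 V)) ⊆ G.edgeSet →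
      ENNReal.ofReal (Pr p E (fun ω => Conn (ω : Set (Sym2 V)) x y)) ≤ c :=
  iSup₂_le_iff

theorem tau_le_one (G : SimpleGraph V) {p : ℝ} (h0 : 0 ≤ p) (h1 : p ≤ 1) (x y : V) :
    tau G p x y ≤ 1 := by
  rw [tau_le_iff]
  intro E _
  rw [ENNReal.ofReal_le_one]
  exact Pr_le_one h0 h1 _ _

theorem tau_ne_top (G : SimpleGraph V) {p : ℝ} (h0 : 0 ≤ p) (h1 : p ≤ 1) (x y : V) :
    tau G p x y ≠ ⊤ := ((tau_le_one G h0 h1 x y).trans_lt ENNReal.one_lt_top).ne

theorem tau_self (G : SimpleGraph V) {p : ℝ} (h0 : 0 ≤ p) (h1 : p ≤ 1) (x : V) :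
    tau G p x x = 1 := by
  apply le_antisymm (tau_le_one G h0 h1 x x)
  refine le_trans ?_ (le_tau G p x x ∅ (by simp))
  classical
  rw [Pr_empty, if_pos (Conn.refl _ _)]
  simp

theorem tau_comm (G : SimpleGraph V) (p : ℝ) (x y : V) : tau G p x y = tau G p y x := by
  unfold tau
  congr 1
  funext E
  congr 1
  funext _
  congr 1
  exact Pr_congr p E (fun ω _ => ⟨Conn.symm, Conn.symm⟩)

theorem tau_mono_p (G : SimpleGraph V) {p p' : ℝ} (h0 : 0 ≤ p) (hp : p ≤ p') (h1 : p' ≤ 1)
    (x y : V) : tau G p x y ≤ tau G p' x y := by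
  rw [tau_le_iff]
  intro E hE
  refine le_trans ?_ (le_tau G p' x y E hE)
  exact ENNReal.ofReal_le_ofReal (Pr_mono_p h0 hp h1 E (incr_conn x y))

theorem tau_mono_graph {G G' : SimpleGraph V} (h : G ≤ G') (p : ℝ) (x y : V) :
    tau G p x y ≤ tau G' p x y := by
  rw [tau_le_iff]
  intro E hE
  exact le_tau G' p x y E (hE.trans (SimpleGraph.edgeSet_subset_edgeSet.2 h))

end Tau

section Map

variable {ι κ : Type*} [DecidableEq ι] [DecidableEq κ]

theorem Pr_map (p : ℝ) (f : ι ↪ κ) (E : Finset ι) (A : Finset κ → Prop) :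
    Pr p (E.map f) A = Pr p E (fun ω => A (ω.map f)) := by
  classical
  induction E using Finset.induction_on generalizing A with
  | empty =>
    rw [Finset.map_empty, Pr_empty, Pr_empty, Finset.map_empty]
  | insert e E he ih =>
    rw [Finset.map_insert, Pr_insert p (by
      rw [Finset.mem_map']
      exact he), Pr_insert p he, ih, ih]
    congr 2
    apply Pr_congr
    intro ω _
    rw [Finset.map_insert]

end Map

section Iso

variable {V W : Type*} [DecidableEq V] [DecidableEq W]

/-- the embedding of edges induced by an embedding of vertices -/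
def symEmb (f : V ↪ W) : Sym2 V ↪ Sym2 W := ⟨Sym2.map f, Sym2.map.injective f.injective⟩

theorem Pr_conn_map (p : ℝ) (f : V ↪ W) (E : Finset (Sym2 V)) (x y : V) :
    Pr p (E.map (symEmb f)) (fun ω => Conn (ω : Set (Sym2 W)) (f x) (f y)) =
      Pr p E (fun ω => Conn (ω : Set (Sym2 V)) x y) := by
  rw [Pr_map]
  apply Pr_congr
  intro ω _
  have hmem : ∀ a b : V, s(f a, f b) ∈ ((ω.map (symEmb f) : Finset (Sym2 W)) : Set (Sym2 W)) ↔
      s(a, b) ∈ (ω : Set (Sym2 V)) := by
    intro a b
    have : s(f a, f b) = symEmb f s(a, b) := rfl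
    rw [this, Finset.mem_coe, Finset.mem_map', Finset.mem_coe]
  constructor
  · intro h
    -- map back with a partial inverse
    classical
    have : Nonempty V := ⟨x⟩
    let g : W → V := Function.invFun f
    have hg : ∀ a, g (f a) = a := Function.leftInverse_invFun f.injective
    have := h.map (ω' := (ω : Set (Sym2 V))) g (by
      intro a b hab
      rw [Finset.mem_coe, Finset.mem_map] at hab
      obtain ⟨e, he, hab⟩ := hab
      right
      induction e using Sym2.ind with
      | _ u v =>
        have h1 : s(f u, f v) = s(a, b) := hab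
        rw [Sym2.eq_iff] at h1
        rcases h1 with ⟨rfl, rfl⟩ | ⟨rfl, rfl⟩
        · rw [hg, hg]
          exact he
        · rw [hg, hg, Sym2.eq_swap]
          exact he)
    rwa [hg, hg] at this
  · intro h
    exact h.map f (fun a b hab => Or.inr ((hmem a b).2 hab))

theorem tau_le_of_embedding {G : SimpleGraph V} {G' : SimpleGraph W} (f : V ↪ W)
    (hf : ∀ a b, G.Adj a b → G'.Adj (f a) (f b)) (p : ℝ) (x y : V) :
    tau G p x y ≤ tau G' p (f x) (f y) := by
  rw [tau_le_iff]
  intro E hE
  rw [← Pr_conn_map p f E x y]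
  apply le_tau
  intro e he
  rw [Finset.mem_coe, Finset.mem_map] at he
  obtain ⟨e', he', rfl⟩ := he
  have h1 := hE he'
  induction e' using Sym2.ind with
  | _ u v =>
    rw [SimpleGraph.mem_edgeSet] at h1
    change s(f u, f v) ∈ G'.edgeSet
    rw [SimpleGraph.mem_edgeSet]
    exact hf _ _ h1

theorem tau_iso {G : SimpleGraph V} {G' : SimpleGraph W} (e : G ≃g G') (p : ℝ) (x y : V) :
    tau G' p (e x) (e y) = tau G p x y := by
  apply le_antisymm
  · have := tau_le_of_embedding (G := G') (G' := G) e.symm.toEquiv.toEmbedding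
      (fun a b h => (e.symm.map_adj_iff).2 h) p (e x) (e y)
    simpa using this
  · exact tau_le_of_embedding (G := G) (G' := G') e.toEquiv.toEmbedding
      (fun a b h => (e.map_adj_iff).2 h) p x y

end Iso

section Measure

variable {V : Type*} [DecidableEq V]

/-- measure of a finite dimensional connectivity event -/
theorem measure_fin {κ : Type*} [DecidableEq κ] (μ : Measure Bool) [IsProbabilityMeasure μ]
    {p : ℝ} (h0 : 0 ≤ p) (h1 : p ≤ 1) (hμ : μ {true} = ENNReal.ofReal p) (F : Finset κ)
    (A : Finset κ → Prop) :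
    Measure.infinitePi (fun _ : κ => μ) {ω : κ → Bool | A (F.filter (fun e => ω e = true))} =
      ENNReal.ofReal (Pr p F A) := by
  classical
  have hμ' : μ {false} = ENNReal.ofReal (1 - p) := by
    have h2 : μ {true}ᶜ = 1 - μ {true} := prob_compl_eq_one_sub (MeasurableSet.singleton _)
    have h3 : ({true}ᶜ : Set Bool) = {false} := by
      ext b
      cases b <;> simp
    rw [h3, hμ] at h2
    rw [h2, ENNReal.ofReal_sub _ h0, ENNReal.ofReal_one]
  -- decompose over the trace on `F`
  have hdec : {ω : κ → Bool | A (F.filter (fun e => ω e = true))} =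
      ⋃ η ∈ F.powerset.filter A, Set.pi (F : Set κ) (fun e => {decide (e ∈ η)}) := by
    ext ω
    simp only [Set.mem_ofPred_eq, Set.mem_iUnion, Finset.mem_filter, Finset.mem_powerset,
      Set.mem_pi, Finset.mem_coe, Set.mem_singleton_iff, exists_prop]
    constructor
    · intro h
      refine ⟨F.filter (fun e => ω e = true), ⟨Finset.filter_subset _ _, h⟩, ?_⟩
      intro e he
      by_cases h2 : ω e = true
      · simp [he, h2]
      · simp [h2]
    · rintro ⟨η, ⟨hη, hA⟩, h⟩
      have : F.filter (fun e => ω e = true) = η := by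
        ext e
        simp only [Finset.mem_filter]
        constructor
        · rintro ⟨he, h2⟩
          rw [h e he] at h2
          simpa using h2
        · intro he
          exact ⟨hη he, by rw [h e (hη he)]; simpa using he⟩
      rwa [this]
  rw [hdec, measure_biUnion_finset]
  · unfold Pr
    rw [← Finset.sum_filter, ENNReal.ofReal_sum_of_nonneg (fun ω _ => wt_nonneg h0 h1 _ _)]
    apply Finset.sum_congr rfl
    intro η hη
    have hηF : η ⊆ F := Finset.mem_powerset.1 (Finset.mem_filter.1 hη).1
    rw [Measure.infinitePi_pi (fun _ : κ => μ) (fun _ _ => MeasurableSet.singleton _)]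
    unfold wt
    have e1 : ∏ e ∈ F, μ {decide (e ∈ η)} =
        ∏ e ∈ F, (if e ∈ η then ENNReal.ofReal p else ENNReal.ofReal (1 - p)) := by
      apply Finset.prod_congr rfl
      intro e _
      by_cases h : e ∈ η
      · simp [h, hμ]
      · simp [h, hμ']
    rw [e1, Finset.prod_ite, Finset.prod_const, Finset.prod_const, Finset.filter_mem_eq_inter,
      Finset.inter_eq_right.2 hηF, ENNReal.ofReal_mul (by positivity),
      ENNReal.ofReal_pow h0, ENNReal.ofReal_pow (by linarith)]
    congr 2
    congr 1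
    ext e
    simp
  · intro η hη η' hη' hne
    apply Set.disjoint_left.2
    intro ω h1 h2
    apply hne
    have a1 := Finset.mem_powerset.1 (Finset.mem_filter.1 hη).1
    have a2 := Finset.mem_powerset.1 (Finset.mem_filter.1 hη').1
    ext e
    constructor
    · intro he
      have b1 := h1 e (a1 he)
      have b2 := h2 e (a1 he)
      simp only [Set.mem_singleton_iff] at b1 b2
      rw [b1] at b2
      simpa [he] using b2
    · intro he
      have b1 := h1 e (a2 he)
      have b2 := h2 e (a2 he)
      simp only [Set.mem_singleton_iff] at b1 b2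
      rw [b1] at b2
      simpa [he] using b2
  · intro η _
    exact MeasurableSet.pi (Finset.countable_toSet F) (fun _ _ => MeasurableSet.singleton _)

end Measure

end Pool.Agent.H5.Perc
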