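import Pool.Agent.H5.Perc.Tree

set_option autoImplicit false

/-! Bounds for the two-point function of the tree of copies. -/

namespace Pool.Agent.H5.Perc

open scoped ENNReal

variable {Γ : Type} [Group Γ] [DecidableEq Γ] {H : SimpleGraph Γ}

theorem conn_empty {V : Type*} {x y : V} (h : Conn (∅ : Set (Sym2 V)) x y) : x = y := by
  unfold Conn at h
  rw [SimpleGraph.fromEdgeSet_empty, SimpleGraph.reachable_bot] at h
  exact h

theorem Pr_mem_le {ι : Type*} [DecidableEq ι] {p : ℝ} (h0 : 0 ≤ p) (E : Finset ι) (e : ι) :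
    Pr p E (fun ω => e ∈ ω) ≤ p := by
  classical
  by_cases he : e ∈ E
  · have h1 : E = insert e (E.erase e) := (Finset.insert_erase he).symm
    rw [h1, Pr_insert p (Finset.notMem_erase e E)]
    have h2 : Pr p (E.erase e) (fun ω => e ∈ ω) = 0 := by
      rw [← Pr_false p (E.erase e)]
      apply Pr_congr
      intro ω hω
      exact ⟨fun h => Finset.notMem_erase e E (hω h), fun h => h.elim⟩
    have h3 : Pr p (E.erase e) (fun ω => e ∈ insert e ω) = 1 := by
      rw [← Pr_true p (E.erase e)]
      apply Pr_congr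
      intro ω _
      simp
    rw [h2, h3]
    linarith
  · have h2 : Pr p E (fun ω => e ∈ ω) = 0 := by
      rw [← Pr_false p E]
      apply Pr_congr
      intro ω hω
      exact ⟨fun h => he (hω h), fun h => h.elim⟩
    rw [h2]
    exact h0

/-- the inclusion of a copy -/
def copyEmb (l : List Γ) (hl : Valid l) : Γ ↪ TV Γ :=
  ⟨copy l hl, fun _ _ h => congrArg (fun z : TV Γ => z.1.2) h⟩

/-- connection inside the copy `l` -/
def inCopy (l : List Γ) (hl : Valid l) (a b : Γ) (ω : Finset (Sym2 (TV Γ))) : Prop :=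
  Conn {e : Sym2 Γ | Sym2.map (copy l hl) e ∈ ω} a b

theorem adj_of_copy {l : List Γ} {hl : Valid l} {a b : Γ}
    (h : (TG H).Adj (copy l hl a) (copy l hl b)) : H.Adj a b := by
  rcases h with ⟨_, h2⟩ | ⟨h1, _⟩ | ⟨h1, _⟩
  · exact h2
  · exact absurd (congrArg List.length h1) (by simp [copy])
  · exact absurd (congrArg List.length h1) (by simp [copy])

theorem Pr_inCopy_le {p : ℝ} (E : Finset (Sym2 (TV Γ)))
    (hE : (E : Set (Sym2 (TV Γ))) ⊆ (TG H).edgeSet) (l : List Γ) (hl : Valid l) (a b : Γ) :
    ENNReal.ofReal (Pr p E (inCopy l hl a b)) ≤ tau H p a b := by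
  classical
  set ι := copyEmb l hl with hι
  set E' : Finset (Sym2 Γ) := E.preimage (Sym2.map (copy l hl))
    ((Sym2.map.injective ι.injective).injOn) with hE'
  have hsub : E'.map (symEmb ι) ⊆ E := by
    intro e he
    rw [Finset.mem_map] at he
    obtain ⟨e', he', rfl⟩ := he
    exact Finset.mem_preimage.1 he'
  have h1 : Pr p E (inCopy l hl a b) = Pr p (E'.map (symEmb ι)) (inCopy l hl a b) := by
    apply Pr_restrict p hsub
    intro ω hω
    unfold inCopy
    have : {e : Sym2 Γ | Sym2.map (copy l hl) e ∈ ω} =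
        {e : Sym2 Γ | Sym2.map (copy l hl) e ∈ ω ∩ E'.map (symEmb ι)} := by
      ext e
      simp only [Set.mem_ofPred_eq, Finset.mem_inter]
      constructor
      · intro h
        refine ⟨h, ?_⟩
        have : Sym2.map (copy l hl) e = symEmb ι e := rfl
        rw [this, Finset.mem_map']
        exact Finset.mem_preimage.2 (hω h)
      · exact fun h => h.1
    rw [this]
  rw [h1, Pr_map]
  have h2 : Pr p E' (fun ω => inCopy l hl a b (ω.map (symEmb ι))) =
      Pr p E' (fun ω => Conn (ω : Set (Sym2 Γ)) a b) := by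
    apply Pr_congr
    intro ω _
    unfold inCopy
    have : {e : Sym2 Γ | Sym2.map (copy l hl) e ∈ ω.map (symEmb ι)} = (ω : Set (Sym2 Γ)) := by
      ext e
      have : Sym2.map (copy l hl) e = symEmb ι e := rfl
      simp only [Set.mem_ofPred_eq, this, Finset.mem_map', Finset.mem_coe]
    rw [this]
  rw [h2]
  apply le_tau
  intro e he
  have h3 := hE (Finset.mem_preimage.1 he)
  induction e using Sym2.ind with
  | _ u v =>
    change s(copy l hl u, copy l hl v) ∈ (TG H).edgeSet at h3
    rw [SimpleGraph.mem_edgeSet] at h3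
    exact adj_of_copy h3

open Classical in
/-- the retraction onto a copy -/
noncomputable def ret (l : List Γ) : List Γ → Γ → Γ
  | [], h => if [] = l then h else 1
  | g :: m, h => if g :: m = l then h else ret l m g

theorem ret_self (l : List Γ) (h : Γ) : ret l l h = h := by
  match l with
  | [] => simp [ret]
  | g :: m => simp [ret]

theorem ret_short (l : List Γ) : ∀ (m : List Γ) (h : Γ), m.length < l.length → ret l m h = 1
  | [], h, hlen => by
    have : [] ≠ l := by
      rintro rfl
      simp at hlen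
    simp [ret, this]
  | g :: m, h, hlen => by
    have : g :: m ≠ l := by
      rintro rfl
      simp at hlen
    rw [ret, if_neg this]
    exact ret_short l m g (by
      simp only [List.length_cons] at hlen
      omega)

theorem ret_cross (l : List Γ) (m : List Γ) (h : Γ) : ret l (h :: m) 1 = ret l m h := by
  by_cases h1 : h :: m = l
  · rw [ret_short l m h (by rw [← h1]; simp), ← h1, ret_self]
  · rw [ret, if_neg h1]

theorem ret_const {l m : List Γ} (h1 : m ≠ l) (h h' : Γ) : ret l m h = ret l m h' := by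
  match m with
  | [] => rw [ret, ret, if_neg (Ne.symm h1.symm), if_neg (Ne.symm h1.symm)]
  | g :: m => rw [ret, ret, if_neg h1, if_neg h1]

theorem conn_inCopy {E : Finset (Sym2 (TV Γ))}
    (hE : (E : Set (Sym2 (TV Γ))) ⊆ (TG H).edgeSet) (l : List Γ) (hl : Valid l)
    {x y : TV Γ} (hc : Conn (E : Set (Sym2 (TV Γ))) x y) :
    inCopy l hl (ret l x.1.1 x.1.2) (ret l y.1.1 y.1.2) E := by
  refine hc.map (fun z : TV Γ => ret l z.1.1 z.1.2) ?_
  intro a b hab
  have hadj : (TG H).Adj a b := by
    have := hE hab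
    rwa [SimpleGraph.mem_edgeSet] at this
  rcases hadj with ⟨h1, h2⟩ | ⟨h1, h2⟩ | ⟨h1, h2⟩
  · by_cases h3 : a.1.1 = l
    · right
      have h4 : b.1.1 = l := h1 ▸ h3
      have e1 : ret l a.1.1 a.1.2 = a.1.2 := by rw [h3, ret_self]
      have e2 : ret l b.1.1 b.1.2 = b.1.2 := by rw [h4, ret_self]
      change Sym2.map (copy l hl) s(ret l a.1.1 a.1.2, ret l b.1.1 b.1.2) ∈ E
      rw [e1, e2]
      have ea : copy l hl a.1.2 = a := Subtype.ext (Prod.ext h3.symm rfl)
      have eb : copy l hl b.1.2 = b := Subtype.ext (Prod.ext h4.symm rfl)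
      change s(copy l hl a.1.2, copy l hl b.1.2) ∈ E
      rw [ea, eb]
      exact hab
    · left
      change ret l a.1.1 a.1.2 = ret l b.1.1 b.1.2
      rw [← h1]
      exact ret_const h3 _ _
  · left
    change ret l a.1.1 a.1.2 = ret l b.1.1 b.1.2
    rw [h1, h2, ret_cross]
  · left
    change ret l a.1.1 a.1.2 = ret l b.1.1 b.1.2
    rw [h1, h2, ret_cross]

/-- bound inside one copy -/
theorem tau_copy_le {p : ℝ} (h0 : 0 ≤ p) (h1 : p ≤ 1) (l : List Γ) (hl : Valid l) (a b : Γ) :
    tau (TG H) p (copy l hl a) (copy l hl b) ≤ tau H p a b := by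
  rw [tau_le_iff]
  intro E hE
  refine le_trans ?_ (Pr_inCopy_le (p := p) E hE l hl a b)
  apply ENNReal.ofReal_le_ofReal
  apply Pr_mono h0 h1
  intro ω hω hc
  have hω' : (ω : Set (Sym2 (TV Γ))) ⊆ (TG H).edgeSet := fun e he => hE (hω he)
  have := conn_inCopy hω' l hl hc
  change inCopy l hl (ret l l a) (ret l l b) ω at this
  rwa [ret_self, ret_self] at this

/-! ### leaving a subtree -/

/-- vertices beyond the crossing edge leading to the copy `g :: l` -/
def Sub (k : List Γ) (v : TV Γ) : Prop := k <:+ v.1.1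

theorem cut_edge {g : Γ} {l : List Γ} (hl : Valid (g :: l)) {x y : TV Γ}
    (hadj : (TG H).Adj x y) (hx : Sub (g :: l) x) (hy : ¬ Sub (g :: l) y) :
    x = copy (g :: l) hl 1 ∧ y = copy l hl.2 g := by
  unfold Sub at hx hy
  rcases hadj with ⟨h1, h2⟩ | ⟨h1, h2⟩ | ⟨h1, h2⟩
  · exact absurd (h1 ▸ hx) hy
  · exfalso
    apply hy
    rw [h1]
    exact hx.trans (List.suffix_cons _ _)
  · rw [h1, List.suffix_cons_iff] at hx
    rcases hx with h3 | h3
    · rw [List.cons.injEq] at h3
      constructor
      · apply Subtype.ext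
        apply Prod.ext
        · change x.1.1 = g :: l
          rw [h1, ← h3.1, ← h3.2]
        · exact h2
      · apply Subtype.ext
        exact Prod.ext h3.2.symm h3.1.symm
    · exact absurd h3 hy

/-- edges outside the subtree -/
def OutE (k : List Γ) : Set (Sym2 (TV Γ)) := {e | ∀ v ∈ e, ¬ Sub k v}

/-- connection outside the subtree -/
def outConn (k : List Γ) (x y : TV Γ) (ω : Finset (Sym2 (TV Γ))) : Prop :=
  Conn {e | e ∈ ω ∧ e ∈ OutE k} x y

theorem tau_sub_le {p : ℝ} (h0 : 0 ≤ p) (h1 : p ≤ 1) {g : Γ} {l : List Γ}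
    (hl : Valid (g :: l)) (h : Γ) {y : TV Γ} (hy : ¬ (g :: l) <:+ y.1.1) :
    tau (TG H) p (copy (g :: l) hl h) y ≤
      ENNReal.ofReal p * tau H p h 1 * tau (TG H) p (copy l hl.2 g) y := by
  classical
  rw [tau_le_iff]
  intro E hE
  set k := g :: l with hk
  set x := copy k hl h with hx
  set e₀ : Sym2 (TV Γ) := s(copy l hl.2 g, copy k hl 1) with he₀
  set S1 : Set (Sym2 (TV Γ)) := Set.range (Sym2.map (copy k hl)) with hS1
  have hxSub : Sub k x := List.suffix_rfl
  have hcopySub : ∀ a, Sub k (copy k hl a) := fun a => List.suffix_rfl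
  have hySub : ¬ Sub k y := hy
  have hlSub : ¬ Sub k (copy l hl.2 g) := by
    intro h
    have := List.IsSuffix.length_le h
    simp [copy, hk] at this
  -- the three events
  have hmain : Pr p E (fun ω => Conn (ω : Set (Sym2 (TV Γ))) x y) ≤
      Pr p E (fun ω => inCopy k hl h 1 ω ∧ (e₀ ∈ ω ∧ outConn k (copy l hl.2 g) y ω)) := by
    apply Pr_mono h0 h1
    intro ω hω hc
    have hω' : (ω : Set (Sym2 (TV Γ))) ⊆ (TG H).edgeSet := fun e he => hE (hω he)
    refine ⟨?_, ?_, ?_⟩
    · have := conn_inCopy hω' k hl hc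
      have e1 : ret k x.1.1 x.1.2 = h := ret_self k h
      have e2 : ret k y.1.1 y.1.2 = 1 := by
        have : ∀ (m : List Γ) (b : Γ), ¬ k <:+ m → ret k m b = 1 := by
          intro m
          induction m with
          | nil =>
            intro b hm
            have : [] ≠ k := fun h => hm (h ▸ List.suffix_rfl)
            rw [ret, if_neg this]
          | cons c m ih =>
            intro b hm
            have h2 : c :: m ≠ k := fun h => hm (h ▸ List.suffix_rfl)
            rw [ret, if_neg h2]
            exact ih c (fun h3 => hm (h3.trans (List.suffix_cons _ _)))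
        exact this _ _ hy
      rwa [e1, e2] at this
    · by_contra hne
      have := hc.map (ω' := (∅ : Set (Sym2 Prop))) (fun v => Sub k v) (by
        intro a b hab
        left
        have hadj : (TG H).Adj a b := by
          have := hω' hab
          rwa [SimpleGraph.mem_edgeSet] at this
        by_cases ha : Sub k a
        · by_cases hb : Sub k b
          · simp only [ha, hb]
          · exfalso
            obtain ⟨e1, e2⟩ := cut_edge hl hadj ha hb
            apply hne
            rw [he₀, Sym2.eq_swap, ← e1, ← e2]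
            exact hab
        · by_cases hb : Sub k b
          · exfalso
            obtain ⟨e1, e2⟩ := cut_edge hl hadj.symm hb ha
            apply hne
            rw [he₀, ← e1, ← e2]
            exact hab
          · simp only [ha, hb])
      have h2 := conn_empty this
      exact hySub (h2 ▸ hxSub)
    · have := hc.map (ω' := {e | e ∈ ω ∧ e ∈ OutE k})
        (fun v => if Sub k v then copy l hl.2 g else v) (by
        intro a b hab
        have hadj : (TG H).Adj a b := by
          have := hω' hab
          rwa [SimpleGraph.mem_edgeSet] at this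
        by_cases ha : Sub k a
        · by_cases hb : Sub k b
          · left
            simp only [ha, hb, if_true]
          · left
            obtain ⟨e1, e2⟩ := cut_edge hl hadj ha hb
            simp only [ha, hb, if_true, if_false]
            exact e2.symm
        · by_cases hb : Sub k b
          · left
            obtain ⟨e1, e2⟩ := cut_edge hl hadj.symm hb ha
            simp only [ha, hb, if_true, if_false]
            exact e2
          · right
            simp only [ha, hb, if_false]
            refine ⟨hab, ?_⟩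
            intro v hv
            rcases Sym2.mem_iff.1 hv with rfl | rfl
            · exact ha
            · exact hb)
      simp only [hxSub, hySub, if_true, if_false] at this
      exact this
  have d1 : DependsOn (inCopy k hl h 1) S1 := by
    intro ω ω' hh
    unfold inCopy
    have : {e : Sym2 Γ | Sym2.map (copy k hl) e ∈ ω} = {e | Sym2.map (copy k hl) e ∈ ω'} := by
      ext e
      exact hh _ ⟨e, rfl⟩
    rw [this]
  have d2 : DependsOn (fun ω : Finset (Sym2 (TV Γ)) => e₀ ∈ ω) {e₀} := by
    intro ω ω' hh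
    exact hh _ rfl
  have d3 : DependsOn (outConn k (copy l hl.2 g) y) (OutE k) := by
    intro ω ω' hh
    unfold outConn
    have : {e | e ∈ ω ∧ e ∈ OutE k} = {e | e ∈ ω' ∧ e ∈ OutE k} := by
      ext e
      simp only [Set.mem_ofPred_eq]
      constructor
      · rintro ⟨a, b⟩
        exact ⟨(hh e b).1 a, b⟩
      · rintro ⟨a, b⟩
        exact ⟨(hh e b).2 a, b⟩
    rw [this]
  have d23 : DependsOn (fun ω : Finset (Sym2 (TV Γ)) => e₀ ∈ ω ∧ outConn k (copy l hl.2 g) y ω)
      ({e₀} ∪ OutE k) := by
    intro ω ω' hh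
    have a1 := d2 ω ω' (fun e he => hh e (Or.inl he))
    have a2 := d3 ω ω' (fun e he => hh e (Or.inr he))
    simp only [a1, a2]
  have disj1 : Disjoint S1 ({e₀} ∪ OutE k) := by
    rw [Set.disjoint_left]
    rintro _ ⟨e, rfl⟩ h2
    induction e using Sym2.ind with
    | _ u v =>
      change s(copy k hl u, copy k hl v) ∈ _ at h2
      rcases h2 with h2 | h2
      · rw [Set.mem_singleton_iff, he₀, Sym2.eq_iff] at h2
        rcases h2 with ⟨h3, _⟩ | ⟨_, h3⟩
        · exact hlSub (h3 ▸ hcopySub u)
        · exact hlSub (h3 ▸ hcopySub v)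
      · exact h2 (copy k hl u) (Sym2.mem_mk_left _ _) (hcopySub u)
  have disj2 : Disjoint ({e₀} : Set (Sym2 (TV Γ))) (OutE k) := by
    rw [Set.disjoint_left]
    rintro e he h2
    rw [Set.mem_singleton_iff] at he
    subst he
    exact h2 (copy k hl 1) (Sym2.mem_mk_right _ _) (hcopySub 1)
  rw [Pr_indep p E d1 d23 disj1, Pr_indep p E d2 d3 disj2] at hmain
  have n1 := Pr_nonneg h0 h1 E (inCopy k hl h 1)
  have n2 := Pr_nonneg h0 h1 E (fun ω => e₀ ∈ ω)
  have n3 := Pr_nonneg h0 h1 E (outConn k (copy l hl.2 g) y)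
  refine (ENNReal.ofReal_le_ofReal hmain).trans ?_
  rw [ENNReal.ofReal_mul n1, ENNReal.ofReal_mul n2, ← mul_assoc,
    mul_comm (ENNReal.ofReal (Pr p E (inCopy k hl h 1)))]
  refine mul_le_mul' (mul_le_mul' (ENNReal.ofReal_le_ofReal (Pr_mem_le h0 E e₀))
    (Pr_inCopy_le E hE k hl h 1)) ?_
  refine le_trans ?_ (le_tau (TG H) p _ _ E hE)
  apply ENNReal.ofReal_le_ofReal
  apply Pr_mono h0 h1
  intro ω _ hc
  exact Conn.mono (fun e he => he.1) hc

end Pool.Agent.H5.Perc
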