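import Pool.Agent.H5.Perc.Level

set_option autoImplicit false

/-!
The lamplighter group `ℤ_k ≀ ℤ` with its Diestel–Leader generators.
-/

namespace Pool.Agent.H5.Perc

open Finset
open scoped ENNReal

/-- the lamplighter group: position and lamps -/
@[ext]
structure LL (k : ℕ) where
  /-- position -/
  n : ℤ
  /-- lamps -/
  f : ℤ →₀ ZMod k

namespace LL

variable {k : ℕ}

noncomputable instance : DecidableEq (LL k) := Classical.decEq _

/-- shift of a lamp configuration -/
noncomputable def sh (n : ℤ) (f : ℤ →₀ ZMod k) : ℤ →₀ ZMod k := f.equivMapDomain (Equiv.addRight n)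

theorem sh_apply (n : ℤ) (f : ℤ →₀ ZMod k) (j : ℤ) : sh n f j = f (j - n) := by
  unfold sh
  rw [Finsupp.equivMapDomain_apply]
  rfl

noncomputable instance : Mul (LL k) := ⟨fun x y => ⟨x.n + y.n, x.f + sh x.n y.f⟩⟩
noncomputable instance : One (LL k) := ⟨⟨0, 0⟩⟩
noncomputable instance : Inv (LL k) := ⟨fun x => ⟨-x.n, -sh (-x.n) x.f⟩⟩

theorem mul_n (x y : LL k) : (x * y).n = x.n + y.n := rfl
theorem mul_f (x y : LL k) : (x * y).f = x.f + sh x.n y.f := rfl
theorem mul_f_apply (x y : LL k) (j : ℤ) : (x * y).f j = x.f j + y.f (j - x.n) := by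
  rw [mul_f, Finsupp.add_apply, sh_apply]
theorem one_n : (1 : LL k).n = 0 := rfl
theorem one_f : (1 : LL k).f = 0 := rfl
theorem inv_n (x : LL k) : (x⁻¹).n = -x.n := rfl
theorem inv_f_apply (x : LL k) (j : ℤ) : (x⁻¹).f j = -x.f (j + x.n) := by
  change (-sh (-x.n) x.f) j = _
  rw [Finsupp.neg_apply, sh_apply, sub_neg_eq_add]

noncomputable instance : Group (LL k) := Group.ofLeftAxioms
  (by
    intro a b c
    apply LL.ext
    · rw [mul_n, mul_n, mul_n, mul_n]
      ring
    · ext j
      rw [mul_f_apply, mul_f_apply, mul_f_apply, mul_f_apply, mul_n, add_assoc, sub_sub])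
  (by
    intro a
    apply LL.ext
    · rw [mul_n, one_n, zero_add]
    · ext j
      rw [mul_f_apply, one_n, one_f, Finsupp.zero_apply, zero_add, sub_zero])
  (by
    intro a
    apply LL.ext
    · rw [mul_n, inv_n, one_n, neg_add_cancel]
    · ext j
      rw [mul_f_apply, inv_n, inv_f_apply, one_f, Finsupp.zero_apply, sub_neg_eq_add,
        neg_add_cancel])

instance [NeZero k] : Countable (LL k) := by
  have : Finite (ZMod k) := inferInstance
  have : Function.Injective (fun x : LL k => (x.n, x.f)) := by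
    intro x y h
    rw [Prod.mk.injEq] at h
    exact LL.ext h.1 h.2
  exact this.countable

instance : Infinite (LL k) := by
  apply Infinite.of_injective (fun n : ℤ => (⟨n, 0⟩ : LL k))
  intro a b h
  exact congrArg LL.n h

/-- the Diestel–Leader graph `DL(k,k)` -/
def DL (k : ℕ) : SimpleGraph (LL k) where
  Adj x y := (y.n = x.n + 1 ∧ ∀ j, j ≠ x.n → y.f j = x.f j) ∨
    (x.n = y.n + 1 ∧ ∀ j, j ≠ y.n → x.f j = y.f j)
  symm := ⟨by
    rintro x y (h | h)
    · exact Or.inr h
    · exact Or.inl h⟩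
  loopless := ⟨by
    rintro x (h | h)
    · linarith [h.1]
    · linarith [h.1]⟩

theorem DL_adj {x y : LL k} : (DL k).Adj x y ↔ (y.n = x.n + 1 ∧ ∀ j, j ≠ x.n → y.f j = x.f j) ∨
    (x.n = y.n + 1 ∧ ∀ j, j ≠ y.n → x.f j = y.f j) := Iff.rfl

theorem DL_inv (g a b : LL k) (h : (DL k).Adj a b) : (DL k).Adj (g * a) (g * b) := by
  rw [DL_adj] at h ⊢
  rcases h with ⟨h1, h2⟩ | ⟨h1, h2⟩
  · left
    refine ⟨by rw [mul_n, mul_n, h1]; ring, ?_⟩
    intro j hj
    rw [mul_f_apply, mul_f_apply, h2]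
    intro h
    apply hj
    rw [mul_n]
    linarith
  · right
    refine ⟨by rw [mul_n, mul_n, h1]; ring, ?_⟩
    intro j hj
    rw [mul_f_apply, mul_f_apply, h2]
    intro h
    apply hj
    rw [mul_n]
    linarith

/-! ### connectedness -/

theorem reach_pos (f : ℤ →₀ ZMod k) (n : ℤ) : (DL k).Reachable ⟨0, f⟩ ⟨n, f⟩ := by
  induction n using Int.induction_on with
  | zero => exact SimpleGraph.Reachable.refl _
  | succ i ih =>
    refine ih.trans (SimpleGraph.Adj.reachable ?_)
    rw [DL_adj]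
    exact Or.inl ⟨rfl, fun _ _ => rfl⟩
  | pred i ih =>
    refine ih.trans (SimpleGraph.Adj.reachable ?_)
    rw [DL_adj]
    exact Or.inr ⟨by change -(i : ℤ) = -(i : ℤ) - 1 + 1; ring, fun _ _ => rfl⟩

theorem reach_lamp (f : ℤ →₀ ZMod k) (j : ℤ) (a : ZMod k) :
    (DL k).Reachable ⟨0, f⟩ ⟨0, Finsupp.single j a + f⟩ := by
  refine (reach_pos f j).trans (SimpleGraph.Reachable.trans ?_
    (reach_pos (Finsupp.single j a + f) (j + 1)).symm)
  apply SimpleGraph.Adj.reachable
  rw [DL_adj]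
  left
  refine ⟨rfl, ?_⟩
  intro i hi
  change (Finsupp.single j a + f) i = f i
  rw [Finsupp.add_apply, Finsupp.single_eq_of_ne hi, zero_add]

theorem DL_connected : (DL k).Connected := by
  have key : ∀ x : LL k, (DL k).Reachable 1 x := by
    rintro ⟨n, f⟩
    refine SimpleGraph.Reachable.trans ?_ (reach_pos f n)
    change (DL k).Reachable ⟨0, 0⟩ ⟨0, f⟩
    induction f using Finsupp.induction with
    | zero => exact SimpleGraph.Reachable.refl _
    | single_add a b f _ _ ih => exact ih.trans (reach_lamp f a b)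
  have : Nonempty (LL k) := ⟨1⟩
  exact ⟨fun x y => (key x).symm.trans (key y)⟩

theorem DL_finite [NeZero k] (x : LL k) : ((DL k).neighborSet x).Finite := by
  have h1 : (Set.range (fun a : ZMod k => (⟨x.n + 1, x.f + Finsupp.single x.n a⟩ : LL k))).Finite :=
    Set.finite_range _
  have h2 : (Set.range (fun a : ZMod k =>
      (⟨x.n - 1, x.f + Finsupp.single (x.n - 1) a⟩ : LL k))).Finite := Set.finite_range _
  refine (h1.union h2).subset ?_
  intro y hy
  rw [SimpleGraph.mem_neighborSet, DL_adj] at hy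
  rcases hy with ⟨e, h⟩ | ⟨e, h⟩
  · left
    refine ⟨y.f x.n - x.f x.n, ?_⟩
    apply LL.ext
    · exact e.symm
    · ext j
      change (x.f + Finsupp.single x.n (y.f x.n - x.f x.n)) j = y.f j
      rw [Finsupp.add_apply]
      by_cases hj : j = x.n
      · subst hj
        rw [Finsupp.single_eq_same]
        ring
      · rw [Finsupp.single_eq_of_ne hj, h j hj, add_zero]
  · right
    have e' : x.n - 1 = y.n := by linarith
    refine ⟨y.f y.n - x.f y.n, ?_⟩
    apply LL.ext
    · exact e'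
    · ext j
      change (x.f + Finsupp.single (x.n - 1) (y.f y.n - x.f y.n)) j = y.f j
      rw [e', Finsupp.add_apply]
      by_cases hj : j = y.n
      · subst hj
        rw [Finsupp.single_eq_same]
        ring
      · rw [Finsupp.single_eq_of_ne hj, h j hj, add_zero]

/-! ### lamp configurations in an interval -/

variable [NeZero k]

/-- lamp configurations supported in `[a, b)` -/
noncomputable def lamps (k : ℕ) [NeZero k] (a b : ℤ) : Finset (ℤ →₀ ZMod k) :=
  (Finset.Ico a b).finsupp (fun _ => Finset.univ)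

theorem mem_lamps {a b : ℤ} {f : ℤ →₀ ZMod k} :
    f ∈ lamps k a b ↔ ∀ j, ¬ (a ≤ j ∧ j < b) → f j = 0 := by
  unfold lamps
  rw [Finset.mem_finsupp_iff]
  constructor
  · rintro ⟨h, _⟩ j hj
    by_contra hne
    exact hj (Finset.mem_Ico.1 (h (Finsupp.mem_support_iff.2 hne)))
  · intro h
    refine ⟨?_, fun _ _ => Finset.mem_univ _⟩
    intro j hj
    rw [Finsupp.mem_support_iff] at hj
    rw [Finset.mem_Ico]
    by_contra hn
    exact hj (h j hn)

theorem card_lamps (a : ℤ) (m : ℕ) : (lamps k a (a + m)).card = k ^ m := by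
  unfold lamps
  rw [Finset.card_finsupp, Finset.prod_const, Finset.card_univ, ZMod.card, Int.card_Ico]
  congr 1
  simp

/-! ### Følner sets -/

/-- box `0 ≤ n < m` with lamps in `[0, m)` -/
noncomputable def box (k : ℕ) [NeZero k] (a b : ℤ) (m : ℕ) : Finset (LL k) :=
  ((Finset.Ico a b) ×ˢ (lamps k 0 m)).map ⟨fun x => (⟨x.1, x.2⟩ : LL k), by
    rintro ⟨a, b⟩ ⟨c, d⟩ h
    exact Prod.ext (congrArg LL.n h) (congrArg LL.f h)⟩

theorem mem_box {a b : ℤ} {m : ℕ} {x : LL k} :
    x ∈ box k a b m ↔ (a ≤ x.n ∧ x.n < b) ∧ x.f ∈ lamps k 0 m := by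
  unfold box
  rw [Finset.mem_map]
  constructor
  · rintro ⟨⟨c, d⟩, h, rfl⟩
    rw [Finset.mem_product, Finset.mem_Ico] at h
    exact h
  · rintro ⟨h1, h2⟩
    refine ⟨(x.n, x.f), ?_, rfl⟩
    rw [Finset.mem_product, Finset.mem_Ico]
    exact ⟨h1, h2⟩

theorem card_box (a b : ℤ) (m : ℕ) : (box k a b m).card = (b - a).toNat * k ^ m := by
  unfold box
  rw [Finset.card_map, Finset.card_product, Int.card_Ico]
  congr 1
  have := card_lamps (k := k) 0 m
  rwa [zero_add] at this

theorem folner (K : Finset (LL k)) : ∃ F : Finset (LL k), F.Nonempty ∧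
    ∀ g ∈ K, F.card ≤ 2 * (F.filter (fun x => x * g ∈ F)).card := by
  classical
  -- a bound for the extent of the elements of `K`
  obtain ⟨r, hr⟩ : ∃ r : ℕ, ∀ g ∈ K, |g.n| ≤ r ∧ ∀ j ∈ g.f.support, |j| < r := by
    have h1 : ∀ g : LL k, ∃ r : ℕ, |g.n| ≤ r ∧ ∀ j ∈ g.f.support, |j| < r := by
      intro g
      refine ⟨g.n.natAbs + ∑ j ∈ g.f.support, (j.natAbs + 1), ?_, ?_⟩
      · rw [Int.abs_eq_natAbs]
        exact_mod_cast Nat.le_add_right _ _
      · intro j hj
        rw [Int.abs_eq_natAbs]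
        have : j.natAbs + 1 ≤ ∑ j ∈ g.f.support, (j.natAbs + 1) :=
          Finset.single_le_sum (f := fun j : ℤ => j.natAbs + 1) (fun _ _ => Nat.zero_le _) hj
        have h2 : j.natAbs < g.n.natAbs + ∑ j ∈ g.f.support, (j.natAbs + 1) := by omega
        exact_mod_cast h2
    choose R hR using h1
    refine ⟨∑ g ∈ K, R g, ?_⟩
    intro g hg
    have h2 : R g ≤ ∑ g ∈ K, R g := Finset.single_le_sum (fun _ _ => Nat.zero_le _) hg
    have h3 : (R g : ℤ) ≤ (∑ g ∈ K, R g : ℕ) := by exact_mod_cast h2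
    exact ⟨(hR g).1.trans h3, fun j hj => lt_of_lt_of_le ((hR g).2 j hj) h3⟩
  set m : ℕ := 4 * (r + 1) with hm
  refine ⟨box k 0 m m, ?_, ?_⟩
  · refine ⟨⟨0, 0⟩, ?_⟩
    rw [mem_box]
    refine ⟨⟨le_rfl, ?_⟩, ?_⟩
    · change (0 : ℤ) < (m : ℤ)
      rw [hm]
      positivity
    · rw [mem_lamps]
      intro _ _
      rfl
  · intro g hg
    obtain ⟨h1, h2⟩ := hr g hg
    rw [abs_le] at h1
    have hsub : box k r (m - r) m ⊆ (box k 0 m m).filter (fun x => x * g ∈ box k 0 m m) := by
      intro x hx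
      rw [mem_box, mem_lamps] at hx
      obtain ⟨⟨x1, x2⟩, x3⟩ := hx
      have hrr : (0 : ℤ) ≤ r := by positivity
      rw [Finset.mem_filter, mem_box, mem_box, mem_lamps, mem_lamps]
      refine ⟨⟨⟨by linarith, by linarith⟩, x3⟩, ⟨?_, ?_⟩, ?_⟩
      · rw [mul_n]
        linarith [h1.1]
      · rw [mul_n]
        linarith [h1.2]
      · intro j hj
        rw [mul_f_apply, x3 j hj, zero_add]
        by_contra hne
        have h3 := h2 _ (Finsupp.mem_support_iff.2 hne)
        rw [abs_lt] at h3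
        apply hj
        constructor <;> linarith [h3.1, h3.2]
    have hcard := Finset.card_le_card hsub
    rw [card_box] at hcard ⊢
    have e1 : ((m : ℤ) - 0).toNat = m := by simp
    have e2 : ((m : ℤ) - r - r).toNat = m - 2 * r := by omega
    rw [e1]
    rw [e2] at hcard
    calc m * k ^ m ≤ 2 * ((m - 2 * r) * k ^ m) := by
          rw [← mul_assoc]
          apply Nat.mul_le_mul_right
          omega
      _ ≤ _ := Nat.mul_le_mul_left _ hcard

end LL

end Pool.Agent.H5.Perc
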