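import Pool.Agent.H5.Perc.LL
import Pool.Agent.H5.Perc.Assembly

set_option autoImplicit false

/-!
Percolation estimates on `DL(k,k)` when the susceptibility is finite.
-/

namespace Pool.Agent.H5.Perc

open Finset
open scoped ENNReal

theorem tau_res_iso {V : Type*} [DecidableEq V] {H : SimpleGraph V} (e : H ≃g H) {S T : Set V}
    (h : ∀ v, e v ∈ T ↔ v ∈ S) (p : ℝ) (x y : V) :
    tau (res H T) p (e x) (e y) = tau (res H S) p x y := by
  let e' : res H S ≃g res H T :=
    { e.toEquiv with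
      map_rel_iff' := by
        intro a b
        change (res H T).Adj (e a) (e b) ↔ (res H S).Adj a b
        rw [res_adj, res_adj, e.map_adj_iff, h, h] }
  exact tau_iso e' p x y

namespace LL

variable {k : ℕ}

/-- level -/
def lev (x : LL k) : ℤ := x.n

/-- twist: add `g j` to the lamps `j` below the current position -/
noncomputable def tw (g : ℤ →₀ ZMod k) (x : LL k) : LL k :=
  ⟨x.n, x.f + g.filter (fun j => j < x.n)⟩

theorem tw_n (g : ℤ →₀ ZMod k) (x : LL k) : (tw g x).n = x.n := rfl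

theorem tw_f (g : ℤ →₀ ZMod k) (x : LL k) (j : ℤ) :
    (tw g x).f j = x.f j + if j < x.n then g j else 0 := by
  change (x.f + g.filter (fun j => j < x.n)) j = _
  rw [Finsupp.add_apply, Finsupp.filter_apply]

theorem tw_adj {g : ℤ →₀ ZMod k} {x y : LL k} (h : (DL k).Adj x y) :
    (DL k).Adj (tw g x) (tw g y) := by
  rw [DL_adj] at h ⊢
  rcases h with ⟨h1, h2⟩ | ⟨h1, h2⟩
  · left
    refine ⟨h1, ?_⟩
    intro j hj
    rw [tw_n] at hj
    rw [tw_f, tw_f, h2 j hj, h1]
    congr 1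
    have : (j < x.n + 1) ↔ (j < x.n) := by
      constructor
      · intro h3
        exact lt_of_le_of_ne (Int.lt_add_one_iff.1 h3) hj
      · intro h3
        linarith
    simp only [this]
  · right
    refine ⟨h1, ?_⟩
    intro j hj
    rw [tw_n] at hj
    rw [tw_f, tw_f, h2 j hj, h1]
    congr 1
    have : (j < y.n + 1) ↔ (j < y.n) := by
      constructor
      · intro h3
        exact lt_of_le_of_ne (Int.lt_add_one_iff.1 h3) hj
      · intro h3
        linarith
    simp only [this]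

theorem tw_tw (g : ℤ →₀ ZMod k) (x : LL k) : tw (-g) (tw g x) = x := by
  apply LL.ext
  · rfl
  · ext j
    rw [tw_f, tw_f, tw_n, Finsupp.neg_apply]
    split_ifs <;> ring

/-- the twist as an automorphism -/
noncomputable def twIso (g : ℤ →₀ ZMod k) : DL k ≃g DL k where
  toFun := tw g
  invFun := tw (-g)
  left_inv := tw_tw g
  right_inv := by
    intro x
    have := tw_tw (-g) x
    rwa [neg_neg] at this
  map_rel_iff' := by
    intro x y
    change (DL k).Adj (tw g x) (tw g y) ↔ (DL k).Adj x y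
    constructor
    · intro h
      have := tw_adj (g := -g) h
      rwa [tw_tw, tw_tw] at this
    · exact tw_adj

/-- crossing probability between the base point and the vertex `m` levels above -/
noncomputable def t (k : ℕ) (p : ℝ) (m : ℕ) : ℝ≥0∞ :=
  tau (res (DL k) (slab lev 0 m)) p 1 ⟨m, 0⟩

theorem slab_inv {a b : ℤ} {x y : LL k} (h : (res (DL k) (slab lev a b)).Reachable x y) :
    ∀ j, ¬ (a ≤ j ∧ j < b) → y.f j = x.f j := by
  intro j hj
  obtain ⟨w⟩ := h
  induction w with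
  | nil => rfl
  | @cons u v z hadj w ih =>
    rw [ih]
    obtain ⟨h1, h2, h3⟩ := hadj
    rw [mem_slab] at h2 h3
    rw [DL_adj] at h1
    rcases h1 with ⟨e, h⟩ | ⟨e, h⟩
    · apply h
      intro hju
      apply hj
      rw [hju]
      refine ⟨h2.1, ?_⟩
      have : v.n ≤ b := h3.2
      linarith
    · symm
      apply h
      intro hju
      apply hj
      rw [hju]
      refine ⟨h3.1, ?_⟩
      have : u.n ≤ b := h2.2
      linarith

theorem tau_pair (p : ℝ) {x y : LL k} {m : ℕ} (hm : y.n = x.n + m)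
    (h : ∀ j, ¬ (x.n ≤ j ∧ j < y.n) → y.f j = x.f j) :
    tau (res (DL k) (slab lev x.n y.n)) p x y = t k p m := by
  -- translate the lower point to the identity
  have e1 : tau (res (DL k) (slab lev x.n y.n)) p (x * 1) (x * (x⁻¹ * y)) =
      tau (res (DL k) (slab lev 0 m)) p 1 (x⁻¹ * y) := by
    apply tau_res_iso (leftIso (H := DL k) DL_inv x)
    intro v
    rw [mem_slab, mem_slab]
    change (x.n ≤ (x * v).n ∧ (x * v).n ≤ y.n) ↔ (0 ≤ v.n ∧ v.n ≤ m)
    rw [mul_n, hm]
    constructor <;> rintro ⟨h1, h2⟩ <;> constructor <;> linarith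
  rw [mul_one, mul_inv_cancel_left] at e1
  rw [e1]
  -- twist
  set g := (x⁻¹ * y).f with hg
  have hgn : (x⁻¹ * y).n = m := by
    rw [mul_n, inv_n, hm]
    ring
  have hg0 : ∀ j, ¬ (0 ≤ j ∧ j < (m : ℤ)) → g j = 0 := by
    intro j hj
    rw [hg, mul_f_apply, inv_f_apply, inv_n, sub_neg_eq_add, h]
    · ring
    · rintro ⟨h1, h2⟩
      apply hj
      rw [hm] at h2
      constructor <;> linarith
  have e2 : tau (res (DL k) (slab lev 0 m)) p (tw g 1) (tw g ⟨m, 0⟩) =
      tau (res (DL k) (slab lev 0 m)) p 1 ⟨m, 0⟩ := by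
    apply tau_res_iso (twIso g)
    intro v
    exact Iff.rfl
  have e3 : tw g (1 : LL k) = 1 := by
    apply LL.ext
    · rfl
    · ext j
      rw [tw_f, one_f, one_n, Finsupp.zero_apply, zero_add]
      split_ifs with h4
      · exact hg0 j (fun h5 => by linarith [h5.1])
      · rfl
  have e4 : tw g (⟨m, 0⟩ : LL k) = x⁻¹ * y := by
    apply LL.ext
    · exact hgn.symm
    · ext j
      rw [tw_f, ← hg]
      change (0 : ℤ →₀ ZMod k) j + (if j < (m : ℤ) then g j else 0) = g j
      rw [Finsupp.zero_apply, zero_add]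
      split_ifs with h4
      · rfl
      · exact (hg0 j (fun h5 => h4 h5.2)).symm
  rw [e3, e4] at e2
  exact e2

theorem t_mul_le {p : ℝ} (h0 : 0 ≤ p) (h1 : p ≤ 1) (m n : ℕ) :
    t k p m * t k p n ≤ t k p (m + n) := by
  have e1 : tau (res (DL k) (slab lev ((⟨m, 0⟩ : LL k)).n ((⟨(m + n : ℕ), 0⟩ : LL k)).n)) p
      ⟨m, 0⟩ ⟨(m + n : ℕ), 0⟩ = t k p n := by
    apply tau_pair
    · change ((m + n : ℕ) : ℤ) = (m : ℤ) + n
      push_cast
      ring
    · intro j _
      rfl
  rw [← e1]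
  unfold t
  apply tau_mul_le
  · apply res_mono
    intro v hv
    rw [mem_slab] at hv ⊢
    push_cast
    exact ⟨hv.1, by linarith [hv.2, (show (0 : ℤ) ≤ n by positivity)]⟩
  · apply res_mono
    intro v hv
    rw [mem_slab] at hv ⊢
    exact ⟨le_trans (by positivity) hv.1, hv.2⟩
  · rw [Set.disjoint_left]
    intro e he he'
    induction e using Sym2.ind with
    | _ a b =>
      rw [SimpleGraph.mem_edgeSet, res_adj, mem_slab, mem_slab] at he he'
      obtain ⟨h2, ⟨_, h3⟩, ⟨_, h4⟩⟩ := he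
      obtain ⟨_, ⟨h5, _⟩, ⟨h6, _⟩⟩ := he'
      change (m : ℤ) ≤ a.n at h5
      change (m : ℤ) ≤ b.n at h6
      change a.n ≤ (m : ℤ) at h3
      change b.n ≤ (m : ℤ) at h4
      rw [DL_adj] at h2
      rcases h2 with h2 | h2 <;> linarith [h2.1]
  · exact h0
  · exact h1

variable [NeZero k]

theorem t_sum_le (p : ℝ) (m : ℕ) : (k : ℝ≥0∞) ^ m * t k p m ≤ ∑' y, tau (DL k) p 1 y := by
  classical
  have e1 : ∀ f ∈ lamps k 0 m, t k p m ≤ tau (DL k) p 1 ⟨m, f⟩ := by
    intro f hf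
    rw [mem_lamps] at hf
    have := tau_pair p (x := (1 : LL k)) (y := ⟨m, f⟩) (m := m) (by
      rw [one_n, zero_add]) (by
      intro j hj
      rw [one_n] at hj
      rw [one_f]
      exact hf j hj)
    rw [← this]
    exact tau_mono_graph (res_le _ _) _ _ _
  have hinj : Function.Injective (fun f : ℤ →₀ ZMod k => (⟨m, f⟩ : LL k)) := by
    intro f g h
    exact congrArg LL.f h
  calc (k : ℝ≥0∞) ^ m * t k p m = ∑ f ∈ lamps k 0 m, t k p m := by
        have := card_lamps (k := k) 0 m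
        rw [zero_add] at this
        rw [Finset.sum_const, this, nsmul_eq_mul]
        push_cast
        rfl
    _ ≤ ∑ f ∈ lamps k 0 m, tau (DL k) p 1 ⟨m, f⟩ := Finset.sum_le_sum e1
    _ = ∑ y ∈ (lamps k 0 m).map ⟨_, hinj⟩, tau (DL k) p 1 y := by
        rw [Finset.sum_map]
        rfl
    _ ≤ _ := ENNReal.sum_le_tsum _

omit [NeZero k] in
theorem t_pow_le {p : ℝ} (h0 : 0 ≤ p) (h1 : p ≤ 1) (m r : ℕ) :
    ((k : ℝ≥0∞) ^ m * t k p m) ^ (r + 1) ≤ (k : ℝ≥0∞) ^ (m * (r + 1)) * t k p (m * (r + 1)) := by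
  induction r with
  | zero => simp
  | succ r ih =>
    rw [pow_succ]
    calc ((k : ℝ≥0∞) ^ m * t k p m) ^ (r + 1) * ((k : ℝ≥0∞) ^ m * t k p m)
        ≤ (k : ℝ≥0∞) ^ (m * (r + 1)) * t k p (m * (r + 1)) * ((k : ℝ≥0∞) ^ m * t k p m) :=
          mul_le_mul' ih le_rfl
      _ = (k : ℝ≥0∞) ^ (m * (r + 1) + m) * (t k p (m * (r + 1)) * t k p m) := by
          rw [pow_add]
          ring
      _ ≤ (k : ℝ≥0∞) ^ (m * (r + 1) + m) * t k p (m * (r + 1) + m) :=
          mul_le_mul' le_rfl (t_mul_le h0 h1 _ _)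
      _ = _ := by
          have : m * (r + 1) + m = m * (r + 1 + 1) := by ring
          rw [this]

theorem t_le {p : ℝ} (h0 : 0 ≤ p) (h1 : p ≤ 1) (hχ : ∑' y, tau (DL k) p 1 y ≠ ⊤) (m : ℕ) :
    (k : ℝ≥0∞) ^ m * t k p m ≤ 1 := by
  set χ := ∑' y, tau (DL k) p 1 y with hχdef
  set a := (k : ℝ≥0∞) ^ m * t k p m with ha
  have hb : ∀ r : ℕ, a ^ (r + 1) ≤ χ := fun r =>
    (t_pow_le h0 h1 m r).trans (t_sum_le p _)
  have ha_top : a ≠ ⊤ := by
    have := hb 0
    rw [zero_add, pow_one] at this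
    exact ne_top_of_le_ne_top hχ this
  by_contra hlt
  rw [not_le] at hlt
  have h2 : 1 < a.toReal := by
    have := (ENNReal.toReal_lt_toReal ENNReal.one_ne_top ha_top).2 hlt
    rwa [ENNReal.toReal_one] at this
  obtain ⟨r, hr⟩ := pow_unbounded_of_one_lt χ.toReal h2
  have h3 : (a ^ (r + 1)).toReal ≤ χ.toReal := ENNReal.toReal_mono hχ (hb r)
  rw [ENNReal.toReal_pow] at h3
  have h4 : a.toReal ^ r ≤ a.toReal ^ (r + 1) := pow_le_pow_right₀ h2.le (Nat.le_succ r)
  linarith

theorem t_le' {p : ℝ} (h0 : 0 ≤ p) (h1 : p ≤ 1) (hχ : ∑' y, tau (DL k) p 1 y ≠ ⊤) (m : ℕ) :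
    t k p m ≤ ((k : ℝ≥0∞)⁻¹) ^ m := by
  rw [← ENNReal.inv_pow, ENNReal.le_inv_iff_mul_le, mul_comm]
  exact t_le h0 h1 hχ m

theorem p_le {p : ℝ} (h0 : 0 ≤ p) (h1 : p ≤ 1) (hχ : ∑' y, tau (DL k) p 1 y ≠ ⊤) :
    (k : ℝ) * p ≤ 1 := by
  have h2 : ENNReal.ofReal p ≤ t k p 1 := by
    unfold t
    apply edge_le_tau
    refine ⟨?_, ?_, ?_⟩
    · rw [DL_adj]
      left
      refine ⟨by rw [one_n]; simp, fun _ _ => rfl⟩
    · rw [mem_slab]
      change (0 : ℤ) ≤ 0 ∧ (0 : ℤ) ≤ ((1 : ℕ) : ℤ)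
      simp
    · rw [mem_slab]
      change (0 : ℤ) ≤ ((1 : ℕ) : ℤ) ∧ ((1 : ℕ) : ℤ) ≤ ((1 : ℕ) : ℤ)
      simp
  have h3 := t_le h0 h1 hχ 1
  rw [pow_one] at h3
  have h4 : (k : ℝ≥0∞) * ENNReal.ofReal p ≤ 1 := (mul_le_mul' le_rfl h2).trans h3
  rw [← ENNReal.ofReal_natCast, ← ENNReal.ofReal_mul (by positivity), ENNReal.ofReal_le_one] at h4
  exact h4

theorem tau_pair_le {p : ℝ} (h0 : 0 ≤ p) (h1 : p ≤ 1) (hχ : ∑' y, tau (DL k) p 1 y ≠ ⊤)
    (x y : LL k) (m : ℕ) (hm : lev y = lev x + m) :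
    tau (res (DL k) (slab lev (lev x) (lev y))) p x y ≤ ((k : ℝ≥0∞)⁻¹) ^ m := by
  by_cases h : ∀ j, ¬ (x.n ≤ j ∧ j < y.n) → y.f j = x.f j
  · have := tau_pair p hm h
    change tau (res (DL k) (slab lev x.n y.n)) p x y ≤ _
    rw [this]
    exact t_le' h0 h1 hχ m
  · rw [tau_eq_zero]
    · exact zero_le
    · intro hr
      exact h (slab_inv hr)

/-- vertices at a given level, with prescribed lamps outside `[a, a + m)` -/
theorem level_sum_le (z : LL k) (c a : ℤ) (m : ℕ) (g : LL k → ℝ≥0∞) (v : ℝ≥0∞)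
    (hg : ∀ y, g y ≤ v) (h0 : ∀ y, g y ≠ 0 → ∀ j, ¬ (a ≤ j ∧ j < a + m) → y.f j = z.f j) :
    ∑' y, (if y.n = c then g y else 0) ≤ (k : ℝ≥0∞) ^ m * v := by
  classical
  let F : Finset (LL k) := (lamps k a (a + m)).image (fun f => (⟨c, z.f + f⟩ : LL k))
  have hF : F.card ≤ k ^ m := Finset.card_image_le.trans (card_lamps a m).le
  rw [tsum_eq_sum (s := F)]
  · calc ∑ y ∈ F, (if y.n = c then g y else 0) ≤ ∑ y ∈ F, v := by
          apply Finset.sum_le_sum
          intro y _
          split_ifs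
          · exact hg y
          · exact zero_le
      _ = (F.card : ℝ≥0∞) * v := by rw [Finset.sum_const, nsmul_eq_mul]
      _ ≤ _ := by
          refine mul_le_mul' ?_ le_rfl
          exact_mod_cast hF
  · intro y hy
    split_ifs with hc
    · by_contra hne
      apply hy
      have h2 := h0 y hne
      refine Finset.mem_image.2 ⟨y.f - z.f, ?_, ?_⟩
      · rw [mem_lamps]
        intro j hj
        rw [Finsupp.sub_apply, h2 j hj, sub_self]
      · apply LL.ext
        · exact hc.symm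
        · change z.f + (y.f - z.f) = y.f
          abel
    · rfl

omit [NeZero k] in
theorem inv_mul_le_one (m : ℕ) : (k : ℝ≥0∞) ^ m * ((k : ℝ≥0∞)⁻¹) ^ m ≤ 1 := by
  rw [← mul_pow]
  apply pow_le_one₀ (by positivity)
  exact ENNReal.mul_inv_le_one _

theorem cross_up {p : ℝ} (h0 : 0 ≤ p) (h1 : p ≤ 1) (hχ : ∑' y, tau (DL k) p 1 y ≠ ⊤) :
    Cross (DL k) p lev := by
  intro z m
  refine (level_sum_le z (z.n + m) z.n m
    (fun y => if lev y = lev z + m then tau (res (DL k) (slab lev (lev z) (lev z + m))) p z y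
      else 0) (((k : ℝ≥0∞)⁻¹) ^ m) ?_ ?_).trans (inv_mul_le_one m) |> le_trans (le_of_eq ?_)
  · congr 1
    funext y
    change (if y.n = z.n + m then _ else _) = (if y.n = z.n + m then (if y.n = z.n + m then _
      else _) else _)
    split_ifs <;> rfl
  · intro y
    split_ifs with h
    · have := tau_pair_le h0 h1 hχ z y m h
      rwa [h] at this
    · exact zero_le
  · intro y hy
    have h2 : (res (DL k) (slab lev (lev z) (lev z + m))).Reachable z y := by
      by_contra h3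
      apply hy
      rw [tau_eq_zero h3]
      split_ifs <;> rfl
    exact slab_inv h2

theorem cross_down {p : ℝ} (h0 : 0 ≤ p) (h1 : p ≤ 1) (hχ : ∑' y, tau (DL k) p 1 y ≠ ⊤) :
    Cross (DL k) p (fun x => - lev x) := by
  intro z m
  have hslab : slab (fun x : LL k => - lev x) (- lev z) (- lev z + m) =
      slab lev (lev z - m) (lev z) := by
    have := slab_neg (lev (k := k)) (lev z - m) (lev z)
    rw [← this]
    congr 1
    ring
  rw [hslab]
  refine (level_sum_le z (z.n - m) (z.n - m) m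
    (fun y => if lev y = lev z - m then tau (res (DL k) (slab lev (lev z - m) (lev z))) p z y
      else 0) (((k : ℝ≥0∞)⁻¹) ^ m) ?_ ?_).trans (inv_mul_le_one m) |> le_trans (le_of_eq ?_)
  · congr 1
    funext y
    have : (- lev y = - lev z + m) ↔ (y.n = z.n - m) := by
      change (- y.n = - z.n + m) ↔ (y.n = z.n - m)
      constructor <;> intro h <;> linarith
    simp only [this]
    change (if y.n = z.n - m then _ else _) = (if y.n = z.n - m then (if y.n = z.n - m then _
      else _) else _)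
    split_ifs <;> rfl
  · intro y
    split_ifs with h
    · have := tau_pair_le h0 h1 hχ y z m (by rw [h]; ring)
      rw [h, tau_comm] at this
      exact this
    · exact zero_le
  · intro y hy j hj
    have h2 : (res (DL k) (slab lev (lev z - m) (lev z))).Reachable z y := by
      by_contra h3
      apply hy
      rw [tau_eq_zero h3]
      split_ifs <;> rfl
    apply slab_inv h2
    rintro ⟨h3, h4⟩
    apply hj
    refine ⟨h3, ?_⟩
    change j < z.n at h4
    linarith

end LL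

end Pool.Agent.H5.Perc
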