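import Pool.Agent.H5.Perc.LLBlock

set_option autoImplicit false

/-!
The block estimate for `DL(2^48, 2^48)`.
-/

namespace Pool.Agent.H5.Perc

open Finset
open scoped ENNReal

namespace LL

variable {k : ℕ} [NeZero k]

/-- the slab of extent `(l, n)` around the identity joins `1` to `y` -/
def R (k l n : ℕ) (y : LL k) : Prop :=
  (res (DL k) (slab lev (lev (1 : LL k) - l) (lev (1 : LL k) + n))).Reachable 1 y

omit [NeZero k] in
theorem R_spec {l n : ℕ} {y : LL k} (h : R k l n y) :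
    (-(l : ℤ) ≤ y.n ∧ y.n ≤ n) ∧ ∀ j, ¬ (-(l : ℤ) ≤ j ∧ j < n) → y.f j = 0 := by
  unfold R at h
  have h1 : lev (1 : LL k) - l = -(l : ℤ) := by
    change (0 : ℤ) - l = -l
    ring
  have h2 : lev (1 : LL k) + n = (n : ℤ) := by
    change (0 : ℤ) + n = n
    ring
  rw [h1, h2] at h
  refine ⟨?_, ?_⟩
  · obtain ⟨w⟩ := h
    have := support_res w (by
      rw [mem_slab]
      change -(l : ℤ) ≤ 0 ∧ (0 : ℤ) ≤ n
      constructor
      · simp
      · positivity) y w.end_mem_support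
    exact this
  · intro j hj
    have := slab_inv h j hj
    rw [this, one_f]
    rfl

theorem count_le (l n : ℕ) (v : ℝ≥0∞) :
    ∑' y : LL k, (⨆ (_ : R k l n y), v) ≤ ((l + n : ℕ) + 1) * (k : ℝ≥0∞) ^ (l + n) * v := by
  classical
  let F : Finset (LL k) := ((Finset.Ico (-(l : ℤ)) (n + 1)) ×ˢ (lamps k (-(l : ℤ)) n)).image
    (fun x => (⟨x.1, x.2⟩ : LL k))
  have hF : F.card ≤ (l + n + 1) * k ^ (l + n) := by
    refine Finset.card_image_le.trans ?_
    rw [Finset.card_product, Int.card_Ico]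
    have h1 := card_lamps (k := k) (-(l : ℤ)) (l + n)
    have h2 : (-(l : ℤ)) + ((l + n : ℕ) : ℤ) = n := by
      push_cast
      ring
    rw [h2] at h1
    rw [h1]
    have h3 : ((n : ℤ) + 1 - -(l : ℤ)).toNat = l + n + 1 := by omega
    rw [h3]
  rw [tsum_eq_sum (s := F)]
  · calc ∑ y ∈ F, (⨆ (_ : R k l n y), v) ≤ ∑ y ∈ F, v :=
          Finset.sum_le_sum (fun y _ => iSup_le (fun _ => le_rfl))
      _ = (F.card : ℝ≥0∞) * v := by rw [Finset.sum_const, nsmul_eq_mul]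
      _ ≤ _ := by
          refine mul_le_mul' ?_ le_rfl
          exact_mod_cast hF
  · intro y hy
    by_cases h : R k l n y
    · exfalso
      apply hy
      obtain ⟨h1, h2⟩ := R_spec h
      refine Finset.mem_image.2 ⟨(y.n, y.f), ?_, rfl⟩
      rw [Finset.mem_product, Finset.mem_Ico]
      refine ⟨⟨h1.1, by linarith [h1.2]⟩, ?_⟩
      rw [mem_lamps]
      exact h2
    · simp [h]

/-- half -/
noncomputable def u : ℝ≥0∞ := 2⁻¹

theorem two_mul_u (a : ℕ) : (2 : ℝ≥0∞) ^ a * u ^ a = 1 := by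
  unfold u
  rw [← mul_pow, ENNReal.mul_inv_cancel (by norm_num) (by norm_num), one_pow]

theorem two_pow_mul_u (a b : ℕ) : (2 : ℝ≥0∞) ^ a * u ^ (a + b) = u ^ b := by
  rw [pow_add, ← mul_assoc, two_mul_u, one_mul]

theorem u_le_one : u ≤ 1 := by
  unfold u
  rw [ENNReal.inv_le_one]
  norm_num

theorem succ_le_two_pow (m : ℕ) : ((m : ℝ≥0∞) + 1) ≤ 2 ^ m := by
  have : m + 1 ≤ 2 ^ m := Nat.succ_le_of_lt Nat.lt_two_pow_self
  exact_mod_cast this

/-- the weight of the slab of height `m` -/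
noncomputable def wgt (k m : ℕ) : ℝ≥0∞ := 2 * (((k : ℝ≥0∞)⁻¹) ^ m * (((m : ℕ) + 1) * 2 ^ m) ^ 2)

theorem inv_two_pow (a : ℕ) : (((2 ^ a : ℕ) : ℝ≥0∞))⁻¹ = u ^ a := by
  unfold u
  push_cast
  rw [ENNReal.inv_pow]

theorem wgt_le (m : ℕ) : wgt (2 ^ 48) m ≤ (2 * u ^ (22 * m)) ^ 2 := by
  unfold wgt
  rw [inv_two_pow]
  calc 2 * ((u ^ 48) ^ m * (((m : ℝ≥0∞) + 1) * 2 ^ m) ^ 2)
      ≤ 4 * ((u ^ 48) ^ m * (2 ^ m * 2 ^ m) ^ 2) := by
        refine mul_le_mul' (by norm_num) (mul_le_mul' le_rfl ?_)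
        exact pow_le_pow_left' (mul_le_mul' (succ_le_two_pow m) le_rfl) 2
    _ = 4 * (2 ^ (4 * m) * u ^ (4 * m + 44 * m)) := by
        congr 1
        rw [mul_comm, ← pow_mul, ← pow_add, ← pow_mul]
        congr 2
        · ring
        · ring
    _ = (2 * u ^ (22 * m)) ^ 2 := by
        rw [two_pow_mul_u, mul_pow, ← pow_mul]
        congr 2
        · norm_num
        · ring

theorem wgt_rpow_le (m : ℕ) : wgt (2 ^ 48) m ^ (3 / 2 : ℝ) ≤ 8 * u ^ (66 * m) := by
  calc wgt (2 ^ 48) m ^ (3 / 2 : ℝ) ≤ ((2 * u ^ (22 * m)) ^ 2) ^ (3 / 2 : ℝ) :=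
        ENNReal.rpow_le_rpow (wgt_le m) (by norm_num)
    _ = (2 * u ^ (22 * m)) ^ 3 := by
        rw [← ENNReal.rpow_natCast, ← ENNReal.rpow_natCast, ← ENNReal.rpow_mul]
        norm_num
    _ = 8 * u ^ (66 * m) := by
        rw [mul_pow, ← pow_mul]
        congr 2
        · norm_num
        · ring

theorem final_term (m : ℕ) (hm : m ≠ 0) :
    2 ^ m * (((m : ℝ≥0∞) + 1) * ((2 ^ 48 : ℕ) : ℝ≥0∞) ^ m * wgt (2 ^ 48) m ^ (3 / 2 : ℝ)) ≤
      8 * (u ^ 8 * u ^ m) := by
  calc 2 ^ m * (((m : ℝ≥0∞) + 1) * ((2 ^ 48 : ℕ) : ℝ≥0∞) ^ m * wgt (2 ^ 48) m ^ (3 / 2 : ℝ))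
      ≤ 2 ^ m * (2 ^ m * ((2 ^ 48 : ℕ) : ℝ≥0∞) ^ m * (8 * u ^ (66 * m))) :=
        mul_le_mul' le_rfl (mul_le_mul' (mul_le_mul' (succ_le_two_pow m) le_rfl) (wgt_rpow_le m))
    _ = 8 * (2 ^ (50 * m) * u ^ (50 * m + 16 * m)) := by
        rw [Nat.cast_pow, Nat.cast_ofNat, ← pow_mul]
        have e1 : (2 : ℝ≥0∞) ^ (50 * m) = 2 ^ m * (2 ^ m * 2 ^ (48 * m)) := by
          rw [← pow_add, ← pow_add]
          congr 1
          ring
        have e2 : 50 * m + 16 * m = 66 * m := by ring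
        rw [e1, e2]
        ring
    _ = 8 * u ^ (16 * m) := by rw [two_pow_mul_u]
    _ ≤ 8 * (u ^ 8 * u ^ m) := by
        refine mul_le_mul' le_rfl ?_
        rw [← pow_add]
        apply pow_le_pow_right_of_le_one' u_le_one
        omega

theorem tsum_u : ∑' l : ℕ, u ^ l = 2 := by
  unfold u
  rw [ENNReal.tsum_geometric, ENNReal.one_sub_inv_two, inv_inv]

theorem iSup_rpow (P : Prop) (v : ℝ≥0∞) :
    (⨆ (_ : P), v) ^ (3 / 2 : ℝ) = ⨆ (_ : P), v ^ (3 / 2 : ℝ) := by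
  by_cases hP : P
  · simp [hP]
  · simp [hP]

theorem block_estimate (p : ℝ) (h0 : 0 ≤ p) (h1 : p ≤ 1)
    (hχ : ∑' h, tau (DL (2 ^ 48)) p 1 h ≠ ⊤) :
    p ≤ 1 / 16 ∧ ∑' h, tau (DL (2 ^ 48)) p 1 h ^ (3 / 2 : ℝ) ≤ 2 := by
  classical
  have hp := p_le h0 h1 hχ
  have hp16 : p ≤ 1 / 16 := by
    push_cast at hp
    nlinarith
  refine ⟨hp16, ?_⟩
  have hc := cross_up h0 h1 hχ
  have hc' := cross_down h0 h1 hχ
  have hP := fun (z₁ z₂ : LL (2 ^ 48)) (m : ℕ) (h : lev z₂ = lev z₁ + m) =>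
    tau_pair_le h0 h1 hχ z₁ z₂ m h
  have hrange := fun y => tau_range h0 (by linarith) hc hc' _ hP 1 y
  -- pointwise bound
  have hpt : ∀ y : LL (2 ^ 48), tau (DL (2 ^ 48)) p 1 y ^ (3 / 2 : ℝ) ≤
      (if y = 1 then 1 else 0) + 2 * ∑' l : ℕ, 2 ^ l * (2 * ∑' n : ℕ, 2 ^ n *
        (if l + n = 0 then 0 else ⨆ (_ : R (2 ^ 48) l n y),
          wgt (2 ^ 48) (l + n) ^ (3 / 2 : ℝ))) := by
    intro y
    by_cases hy : y = 1
    · rw [if_pos hy, hy, tau_self _ h0 h1, ENNReal.one_rpow]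
      exact le_self_add
    · rw [if_neg hy, zero_add]
      have e1 : tau (DL (2 ^ 48)) p 1 y ≤ ∑' l : ℕ, ∑' n : ℕ,
          (if l + n = 0 then 0 else ⨆ (_ : R (2 ^ 48) l n y), wgt (2 ^ 48) (l + n)) := by
        refine (hrange y).trans ?_
        rw [ENNReal.tsum_prod']
        apply ENNReal.tsum_le_tsum
        intro l
        apply ENNReal.tsum_le_tsum
        intro n
        split_ifs with hln
        · have hl : l = 0 := by omega
          have hn : n = 0 := by omega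
          subst hl hn
          apply iSup_le
          intro hr
          exfalso
          apply hy
          obtain ⟨h2, h3⟩ := R_spec (show R (2 ^ 48) 0 0 y from hr)
          apply LL.ext
          · rw [one_n]
            push_cast at h2
            linarith [h2.1, h2.2]
          · ext j
            rw [h3 j (by push_cast; rintro ⟨h4, h5⟩; linarith), one_f]
            rfl
        · exact le_rfl
      calc tau (DL (2 ^ 48)) p 1 y ^ (3 / 2 : ℝ)
          ≤ (∑' l : ℕ, ∑' n : ℕ, (if l + n = 0 then 0 else ⨆ (_ : R (2 ^ 48) l n y),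
              wgt (2 ^ 48) (l + n))) ^ (3 / 2 : ℝ) := ENNReal.rpow_le_rpow e1 (by norm_num)
        _ ≤ 2 * ∑' l : ℕ, 2 ^ l * (∑' n : ℕ, (if l + n = 0 then 0 else
              ⨆ (_ : R (2 ^ 48) l n y), wgt (2 ^ 48) (l + n))) ^ (3 / 2 : ℝ) := geom32 _
        _ ≤ 2 * ∑' l : ℕ, 2 ^ l * (2 * ∑' n : ℕ, 2 ^ n * (if l + n = 0 then 0 else
              ⨆ (_ : R (2 ^ 48) l n y), wgt (2 ^ 48) (l + n)) ^ (3 / 2 : ℝ)) := by
            refine mul_le_mul' le_rfl (ENNReal.tsum_le_tsum (fun l => ?_))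
            exact mul_le_mul' le_rfl (geom32 _)
        _ = _ := by
            congr 1
            congr 1
            funext l
            congr 2
            congr 1
            funext n
            congr 1
            split_ifs
            · rw [ENNReal.zero_rpow_of_pos (by norm_num)]
            · exact iSup_rpow _ _
  calc ∑' y, tau (DL (2 ^ 48)) p 1 y ^ (3 / 2 : ℝ)
      ≤ ∑' y : LL (2 ^ 48), ((if y = 1 then 1 else 0) + 2 * ∑' l : ℕ, 2 ^ l * (2 * ∑' n : ℕ,
          2 ^ n * (if l + n = 0 then 0 else ⨆ (_ : R (2 ^ 48) l n y),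
          wgt (2 ^ 48) (l + n) ^ (3 / 2 : ℝ)))) := ENNReal.tsum_le_tsum hpt
    _ = 1 + 2 * ∑' l : ℕ, 2 ^ l * (2 * ∑' n : ℕ, 2 ^ n * ∑' y : LL (2 ^ 48),
          (if l + n = 0 then 0 else ⨆ (_ : R (2 ^ 48) l n y),
          wgt (2 ^ 48) (l + n) ^ (3 / 2 : ℝ))) := by
        rw [ENNReal.tsum_add, tsum_ite_eq, ENNReal.tsum_mul_left, ENNReal.tsum_comm]
        congr 2
        congr 1
        funext l
        rw [ENNReal.tsum_mul_left, ENNReal.tsum_mul_left, ENNReal.tsum_comm]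
        congr 2
        congr 1
        funext n
        rw [ENNReal.tsum_mul_left]
    _ ≤ 1 + 2 * ∑' l : ℕ, (2 * ∑' n : ℕ, 8 * (u ^ 8 * u ^ (l + n))) := by
        refine add_le_add le_rfl (mul_le_mul' le_rfl (ENNReal.tsum_le_tsum (fun l => ?_)))
        calc 2 ^ l * (2 * ∑' n : ℕ, 2 ^ n * ∑' y : LL (2 ^ 48),
              (if l + n = 0 then 0 else ⨆ (_ : R (2 ^ 48) l n y),
              wgt (2 ^ 48) (l + n) ^ (3 / 2 : ℝ)))
            = 2 * ∑' n : ℕ, 2 ^ (l + n) * ∑' y : LL (2 ^ 48),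
              (if l + n = 0 then 0 else ⨆ (_ : R (2 ^ 48) l n y),
              wgt (2 ^ 48) (l + n) ^ (3 / 2 : ℝ)) := by
              rw [← mul_assoc, mul_comm (2 ^ l) 2, mul_assoc, ← ENNReal.tsum_mul_left]
              congr 2
              funext n
              rw [pow_add, mul_assoc]
          _ ≤ 2 * ∑' n : ℕ, 8 * (u ^ 8 * u ^ (l + n)) := by
              refine mul_le_mul' le_rfl (ENNReal.tsum_le_tsum (fun n => ?_))
              by_cases hln : l + n = 0
              · simp [hln]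
              · simp only [if_neg hln]
                refine le_trans (mul_le_mul' le_rfl (count_le l n _)) ?_
                exact final_term (l + n) hln
    _ = 1 + 2 * (2 * (8 * u ^ 8)) * (2 * 2) := by
        congr 1
        have : ∀ l : ℕ, (2 * ∑' n : ℕ, 8 * (u ^ 8 * u ^ (l + n))) =
            2 * (8 * u ^ 8) * 2 * u ^ l := by
          intro l
          have e : ∀ n : ℕ, 8 * (u ^ 8 * u ^ (l + n)) = (8 * u ^ 8 * u ^ l) * u ^ n := by
            intro n
            rw [pow_add]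
            ring
          simp only [e]
          rw [ENNReal.tsum_mul_left, tsum_u]
          ring
        simp only [this]
        rw [ENNReal.tsum_mul_left, tsum_u]
        ring
    _ = 1 + u := by
        congr 1
        have h2 := two_pow_mul_u 7 1
        rw [pow_one] at h2
        calc 2 * (2 * (8 * u ^ 8)) * (2 * 2) = 2 ^ 7 * u ^ (7 + 1) := by
              norm_num
              ring
          _ = u := h2
    _ ≤ 2 := by
        calc 1 + u ≤ 1 + 1 := add_le_add le_rfl u_le_one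
          _ = 2 := by norm_num

end LL

end Pool.Agent.H5.Perc
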