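import Pool.Agent.H5.Perc.Cut

set_option autoImplicit false

/-!
Two-point function of a graph with a level function all of whose full slab crossings have
total mass at most `1`.
-/

namespace Pool.Agent.H5.Perc

open Finset
open scoped ENNReal

section Sum

variable {V κ : Type*}

theorem sum_split (P : V → Prop) [DecidablePred P] (good : κ → Prop) [DecidablePred good]
    (f : V → ℝ≥0∞) (a : κ → ℝ≥0∞) (b : κ → V → ℝ≥0∞) (c : ℝ≥0∞)
    (hf : ∀ y, P y → f y ≤ ∑' k, if good k then a k * b k y else 0)
    (hb : ∀ k, good k → ∑' y, (if P y then b k y else 0) ≤ c) :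
    ∑' y, (if P y then f y else 0) ≤ c * ∑' k, (if good k then a k else 0) := by
  calc ∑' y, (if P y then f y else 0)
      ≤ ∑' y, ∑' k, (if good k then a k * (if P y then b k y else 0) else 0) := by
        apply ENNReal.tsum_le_tsum
        intro y
        split_ifs with h
        · exact hf y h
        · exact zero_le
    _ = ∑' k, ∑' y, (if good k then a k * (if P y then b k y else 0) else 0) :=
        ENNReal.tsum_comm
    _ ≤ ∑' k, c * (if good k then a k else 0) := by
        apply ENNReal.tsum_le_tsum
        intro k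
        split_ifs with h
        · rw [ENNReal.tsum_mul_left, mul_comm]
          exact mul_le_mul' (hb k h) le_rfl
        · simp
    _ = _ := ENNReal.tsum_mul_left

theorem geom_two (m : ℕ) : ∑ i ∈ Finset.range m, (2 : ℝ≥0∞) ^ i ≤ 2 ^ m := by
  induction m with
  | zero => simp
  | succ m ih =>
    rw [Finset.sum_range_succ, pow_succ, mul_two]
    exact add_le_add ih le_rfl

/-- restricting the first coordinate of a double sum -/
theorem tsum_fst_le (l : ℕ) (P : ℕ → V → Prop) [∀ j, DecidablePred (P j)]
    (g : ℕ → V → ℝ≥0∞) (B : ℕ → ℝ≥0∞)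
    (h : ∀ j ≤ l, ∑' z, (if P j z then g j z else 0) ≤ B j) :
    ∑' q : ℕ × V, (if q.1 ≤ l ∧ P q.1 q.2 then g q.1 q.2 else 0) ≤
      ∑ j ∈ Finset.range (l + 1), B j := by
  rw [ENNReal.tsum_prod (f := fun j z => if j ≤ l ∧ P j z then g j z else 0)]
  rw [tsum_eq_sum (s := Finset.range (l + 1))]
  · apply Finset.sum_le_sum
    intro j hj
    have hj' : j ≤ l := Nat.lt_succ_iff.1 (Finset.mem_range.1 hj)
    refine le_trans (le_of_eq ?_) (h j hj')
    congr 1
    funext z
    simp [hj']
  · intro j hj
    have hj' : ¬ j ≤ l := fun h => hj (Finset.mem_range.2 (Nat.lt_succ_iff.2 h))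
    simp [hj']

end Sum

variable {V : Type*}

/-- vertices with level between `a` and `b` -/
def slab (lev : V → ℤ) (a b : ℤ) : Set V := {v | a ≤ lev v ∧ lev v ≤ b}

/-- vertices with level at least `a` and less than `b`, or equal to `y` -/
def fslab (lev : V → ℤ) (a b : ℤ) (y : V) : Set V := {v | (a ≤ lev v ∧ lev v < b) ∨ v = y}

theorem mem_slab {lev : V → ℤ} {a b : ℤ} {v : V} : v ∈ slab lev a b ↔ a ≤ lev v ∧ lev v ≤ b :=
  Iff.rfl

theorem mem_fslab {lev : V → ℤ} {a b : ℤ} {v y : V} :
    v ∈ fslab lev a b y ↔ (a ≤ lev v ∧ lev v < b) ∨ v = y := Iff.rfl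

theorem slab_neg (lev : V → ℤ) (a b : ℤ) : slab (fun v => - lev v) (-b) (-a) = slab lev a b := by
  ext v
  rw [mem_slab, mem_slab]
  constructor <;> rintro ⟨h1, h2⟩ <;> constructor <;> linarith

theorem exists_min {G : SimpleGraph V} (lev : V → ℤ) {x y : V} (w : G.Walk x y) :
    ∃ v ∈ w.support, ∀ u ∈ w.support, lev v ≤ lev u := by
  classical
  obtain ⟨v, hv, h⟩ := Finset.exists_min_image w.support.toFinset lev
    ⟨x, List.mem_toFinset.2 w.start_mem_support⟩
  exact ⟨v, List.mem_toFinset.1 hv, fun u hu => h u (List.mem_toFinset.2 hu)⟩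

theorem walk_reach {H : SimpleGraph V} {S : Set V} {x y : V} (w : H.Walk x y)
    (h : ∀ v ∈ w.support, v ∈ S) : (res H S).Reachable x y := by
  induction w with
  | nil => exact SimpleGraph.Reachable.refl _
  | @cons u v t hadj w ih =>
    have h1 : u ∈ S := h _ (by rw [SimpleGraph.Walk.support_cons]; exact List.mem_cons_self ..)
    have h2 : ∀ a ∈ w.support, a ∈ S := fun a ha => h a (by
      rw [SimpleGraph.Walk.support_cons]
      exact List.mem_cons_of_mem _ ha)
    have h3 : (res H S).Adj u v := ⟨hadj, h1, h2 _ w.start_mem_support⟩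
    exact h3.reachable.trans (ih h2)

variable [DecidableEq V] {H : SimpleGraph V} {p : ℝ}

theorem cut2_res (h0 : 0 ≤ p) (h1 : p ≤ 1 / 2) {S : Set V} {x y : V} (hx : x ∈ S)
    {κ : Type*} (good : κ → Prop) [DecidablePred good] (z : κ → V) (S₁ S₂ : κ → Set V)
    (h : ∀ w : (res H S).Walk x y, w.IsPath → (∀ v ∈ w.support, v ∈ S) →
      ∃ k, good k ∧ ∃ (w₁ : (res H S).Walk x (z k))
      (w₂ : (res H S).Walk (z k) y), w = w₁.append w₂ ∧
      (∀ v ∈ w₁.support, v ∈ S₁ k) ∧ (∀ v ∈ w₂.support, v ∈ S₂ k)) :
    tau (res H S) p x y ≤ ∑' k, if good k then tau (res H (S₁ k)) p x (z k) *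
      tau (res H (S₂ k)) p (z k) y else 0 := by
  refine (cut2 h0 h1 x y good z S₁ S₂
    (fun w hw => h w hw (support_res w hx))).trans ?_
  apply ENNReal.tsum_le_tsum
  intro k
  split_ifs
  · exact mul_le_mul' (tau_mono_graph (res_res_le _ _ _) _ _ _)
      (tau_mono_graph (res_res_le _ _ _) _ _ _)
  · exact le_rfl

/-- full crossings of slabs, upwards, have mass at most one -/
def Cross (H : SimpleGraph V) (p : ℝ) (lev : V → ℤ) : Prop :=
  ∀ (z : V) (m : ℕ), ∑' y, (if lev y = lev z + m then
    tau (res H (slab lev (lev z) (lev z + m))) p z y else 0) ≤ 1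

/-- mass of first visits to level `lev x + n` before leaving the slab -/
noncomputable def U (H : SimpleGraph V) (p : ℝ) (lev : V → ℤ) (l n : ℕ) (x : V) : ℝ≥0∞ :=
  ∑' y, if lev y = lev x + n then
    tau (res H (fslab lev (lev x - l) (lev x + n) y)) p x y else 0

theorem U_zero (h0 : 0 ≤ p) (h1 : p ≤ 1) (lev : V → ℤ) (l : ℕ) (x : V) :
    U H p lev l 0 x ≤ 1 := by
  unfold U
  calc ∑' y, (if lev y = lev x + (0 : ℕ) then
        tau (res H (fslab lev (lev x - l) (lev x + (0 : ℕ)) y)) p x y else 0)
      ≤ ∑' y, (if y = x then 1 else 0) := by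
        apply ENNReal.tsum_le_tsum
        intro y
        by_cases hy : y = x
        · rw [if_pos hy]
          split_ifs
          · exact tau_le_one _ h0 h1 _ _
          · exact zero_le_one
        · rw [if_neg hy]
          split_ifs
          · rw [tau_res_eq_zero]
            · rw [mem_fslab]
              rintro (⟨_, h⟩ | h)
              · simp at h
              · exact hy h.symm
            · exact fun h => hy h.symm
          · exact le_rfl
    _ = 1 := tsum_ite_eq x (fun _ => 1)

theorem U_succ (h0 : 0 ≤ p) (h1 : p ≤ 1 / 2) {lev : V → ℤ} (hc : Cross H p lev) (l n : ℕ)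
    (x : V) : U H p lev l (n + 1) x ≤
      ∑ j ∈ Finset.range (l + 1), U H p (fun v => - lev v) n j x := by
  classical
  have key := sum_split (fun y => lev y = lev x + (n + 1 : ℕ))
    (fun q : ℕ × V => q.1 ≤ l ∧ - lev q.2 = - lev x + q.1)
    (fun y => tau (res H (fslab lev (lev x - l) (lev x + (n + 1 : ℕ)) y)) p x y)
    (fun q => tau (res H (fslab (fun v => - lev v) (- lev x - n) (- lev x + q.1) q.2)) p x q.2)
    (fun q y => tau (res H (slab lev (lev q.2) (lev q.2 + (n + 1 + q.1 : ℕ)))) p q.2 y) 1 ?_ ?_
  · rw [one_mul] at key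
    refine key.trans ?_
    apply tsum_fst_le l (fun j z => - lev z = - lev x + j)
      (fun j z => tau (res H (fslab (fun v => - lev v) (- lev x - n) (- lev x + j) z)) p x z)
    intro j _
    exact le_rfl
  · intro y hy
    apply cut2_res h0 h1 (by
      rw [mem_fslab]
      left
      constructor <;> push_cast <;> linarith) _ (fun q : ℕ × V => q.2)
      (fun q => fslab (fun v => - lev v) (- lev x - n) (- lev x + q.1) q.2)
      (fun q => slab lev (lev q.2) (lev q.2 + (n + 1 + q.1 : ℕ)))
    intro w hw hS
    obtain ⟨v0, hv0, hmin⟩ := exists_min lev w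
    obtain ⟨z, hz, w₁, w₂, hw12, hfirst⟩ := first_hit {v | lev v = lev v0} w ⟨v0, hv0, rfl⟩
    rw [Set.mem_ofPred_eq] at hz
    have hx0 : lev v0 ≤ lev x := hmin x w.start_mem_support
    obtain ⟨j, hj⟩ := Int.eq_ofNat_of_zero_le (show 0 ≤ lev x - lev v0 by linarith)
    have hjl : j ≤ l := by
      have := hS v0 hv0
      rw [mem_fslab] at this
      rcases this with h | h
      · have : (j : ℤ) ≤ l := by linarith [h.1]
        exact_mod_cast this
      · exfalso
        rw [h, hy] at hx0
        push_cast at hx0
        linarith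
    refine ⟨(j, z), ⟨hjl, ?_⟩, w₁, w₂, hw12, ?_, ?_⟩
    · change - lev z = - lev x + (j : ℤ)
      linarith
    · intro v hv
      have hvw : v ∈ w.support := by
        rw [hw12, SimpleGraph.Walk.mem_support_append_iff]
        exact Or.inl hv
      rw [mem_fslab]
      by_cases hvz : v = z
      · right
        exact hvz
      · left
        have h2 := hS v hvw
        rw [mem_fslab] at h2
        rcases h2 with h2 | h2
        · have h3 : lev v ≠ lev v0 := fun h => hvz (hfirst v hv h)
          have h4 := hmin v hvw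
          have h5 : lev v0 < lev v := lt_of_le_of_ne h4 (Ne.symm h3)
          refine ⟨?_, ?_⟩
          · have := h2.2
            push_cast at this
            linarith [Int.lt_add_one_iff.1 (show lev v < (lev x + n) + 1 by linarith)]
          · change - lev v < - lev x + (j : ℤ)
            linarith
        · exfalso
          apply hvz
          rw [h2]
          exact end_notMem (hw12 ▸ hw) (h2 ▸ hv)
    · intro v hv
      have hvw : v ∈ w.support := by
        rw [hw12, SimpleGraph.Walk.mem_support_append_iff]
        exact Or.inr hv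
      rw [mem_slab]
      have h4 := hmin v hvw
      refine ⟨?_, ?_⟩
      · change lev z ≤ lev v
        rw [hz]
        exact h4
      · change lev v ≤ lev z + ((n + 1 + j : ℕ) : ℤ)
        have h2 := hS v hvw
        rw [mem_fslab] at h2
        push_cast at h2 ⊢
        rcases h2 with h2 | h2
        · linarith [h2.2]
        · rw [h2, hy]
          push_cast
          linarith
  · rintro ⟨j, z⟩ ⟨hj, hz⟩
    refine le_trans (le_of_eq ?_) (hc z (n + 1 + j))
    congr 1
    funext y
    have : (lev y = lev x + (n + 1 : ℕ)) ↔ (lev y = lev z + (n + 1 + j : ℕ)) := by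
      change - lev z = - lev x + (j : ℤ) at hz
      push_cast
      constructor <;> intro h <;> linarith
    simp only [this]

theorem U_le (h0 : 0 ≤ p) (h1 : p ≤ 1 / 2) (x : V) (N : ℕ) : ∀ (lev : V → ℤ),
    Cross H p lev → Cross H p (fun v => - lev v) → ∀ l n : ℕ, l + n ≤ N →
      U H p lev l n x ≤ 2 ^ (l + n) := by
  induction N with
  | zero =>
    intro lev _ _ l n hln
    have hl : l = 0 := by omega
    have hn : n = 0 := by omega
    subst hl hn
    simpa using U_zero h0 (by linarith) lev 0 x
  | succ N ih =>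
    intro lev hc hc' l n hln
    cases n with
    | zero =>
      refine (U_zero h0 (by linarith) lev l x).trans ?_
      exact one_le_pow₀ (by norm_num)
    | succ n =>
      refine (U_succ h0 h1 hc l n x).trans ?_
      calc ∑ j ∈ Finset.range (l + 1), U H p (fun v => - lev v) n j x
          ≤ ∑ j ∈ Finset.range (l + 1), 2 ^ n * 2 ^ j := by
            apply Finset.sum_le_sum
            intro j hj
            have hj' : j ≤ l := Nat.lt_succ_iff.1 (Finset.mem_range.1 hj)
            rw [← pow_add]
            apply ih (fun v => - lev v) hc' (by simpa using hc) n j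
            omega
        _ = 2 ^ n * ∑ j ∈ Finset.range (l + 1), 2 ^ j := by rw [Finset.mul_sum]
        _ ≤ 2 ^ n * 2 ^ (l + 1) := mul_le_mul' le_rfl (geom_two _)
        _ = 2 ^ (l + (n + 1)) := by
            rw [← pow_add]
            congr 1
            omega

/-- returns to the top of a slab -/
theorem ret_top_le (h0 : 0 ≤ p) (h1 : p ≤ 1 / 2) {lev : V → ℤ} (hc : Cross H p lev)
    (hc' : Cross H p (fun v => - lev v)) (m : ℕ) (x : V) :
    ∑' y, (if lev y = lev x then tau (res H (slab lev (lev x - m) (lev x))) p x y else 0) ≤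
      (m : ℝ≥0∞) + 1 := by
  classical
  have key := sum_split (fun y => lev y = lev x)
    (fun q : ℕ × V => q.1 ≤ m ∧ - lev q.2 = - lev x + q.1)
    (fun y => tau (res H (slab lev (lev x - m) (lev x))) p x y)
    (fun q => tau (res H (slab (fun v => - lev v) (- lev x) (- lev x + q.1))) p x q.2)
    (fun q y => tau (res H (slab lev (lev q.2) (lev q.2 + (q.1 : ℕ)))) p q.2 y) 1 ?_ ?_
  · rw [one_mul] at key
    refine key.trans ?_
    refine (tsum_fst_le m (fun j z => - lev z = - lev x + j)
      (fun j z => tau (res H (slab (fun v => - lev v) (- lev x) (- lev x + j))) p x z)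
      (fun _ => 1) ?_).trans ?_
    · intro j _
      exact hc' x j
    · simp
  · intro y hy
    apply cut2_res h0 h1 (by
      rw [mem_slab]
      constructor
      · have : (0 : ℤ) ≤ m := by positivity
        linarith
      · exact le_rfl) _ (fun q : ℕ × V => q.2)
      (fun q => slab (fun v => - lev v) (- lev x) (- lev x + q.1))
      (fun q => slab lev (lev q.2) (lev q.2 + (q.1 : ℕ)))
    intro w hw hS
    obtain ⟨v0, hv0, hmin⟩ := exists_min lev w
    obtain ⟨z, hz, w₁, w₂, hw12, hfirst⟩ := first_hit {v | lev v = lev v0} w ⟨v0, hv0, rfl⟩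
    rw [Set.mem_ofPred_eq] at hz
    have hx0 : lev v0 ≤ lev x := hmin x w.start_mem_support
    obtain ⟨j, hj⟩ := Int.eq_ofNat_of_zero_le (show 0 ≤ lev x - lev v0 by linarith)
    have hjl : j ≤ m := by
      have := hS v0 hv0
      rw [mem_slab] at this
      have : (j : ℤ) ≤ m := by linarith [this.1]
      exact_mod_cast this
    refine ⟨(j, z), ⟨hjl, ?_⟩, w₁, w₂, hw12, ?_, ?_⟩
    · change - lev z = - lev x + (j : ℤ)
      linarith
    · intro v hv
      have hvw : v ∈ w.support := by
        rw [hw12, SimpleGraph.Walk.mem_support_append_iff]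
        exact Or.inl hv
      have h2 := hS v hvw
      rw [mem_slab] at h2
      have h4 := hmin v hvw
      rw [mem_slab]
      refine ⟨?_, ?_⟩
      · linarith [h2.2]
      · change - lev v ≤ - lev x + (j : ℤ)
        linarith
    · intro v hv
      have hvw : v ∈ w.support := by
        rw [hw12, SimpleGraph.Walk.mem_support_append_iff]
        exact Or.inr hv
      have h2 := hS v hvw
      rw [mem_slab] at h2
      have h4 := hmin v hvw
      rw [mem_slab]
      refine ⟨?_, ?_⟩
      · change lev z ≤ lev v
        rw [hz]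
        exact h4
      · change lev v ≤ lev z + (j : ℤ)
        linarith [h2.2]
  · rintro ⟨j, z⟩ ⟨hj, hz⟩
    refine le_trans (le_of_eq ?_) (hc z j)
    congr 1
    funext y
    have : (lev y = lev x) ↔ (lev y = lev z + (j : ℕ)) := by
      change - lev z = - lev x + (j : ℤ) at hz
      constructor <;> intro h <;> linarith
    simp only [this]

/-- visits to the top of a slab -/
theorem top_le (h0 : 0 ≤ p) (h1 : p ≤ 1 / 2) {lev : V → ℤ} (hc : Cross H p lev)
    (hc' : Cross H p (fun v => - lev v)) (l n : ℕ) (x : V) {a b : ℤ} (ha : a = lev x - l)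
    (hb : b = lev x + n) :
    ∑' y, (if lev y = b then tau (res H (slab lev a b)) p x y else 0) ≤
      ((l + n : ℕ) + 1) * 2 ^ (l + n) := by
  classical
  subst ha hb
  have key := sum_split (fun y => lev y = lev x + n)
    (fun z : V => lev z = lev x + n)
    (fun y => tau (res H (slab lev (lev x - l) (lev x + n))) p x y)
    (fun z => tau (res H (fslab lev (lev x - l) (lev x + n) z)) p x z)
    (fun z y => tau (res H (slab lev (lev z - (l + n : ℕ)) (lev z))) p z y)
    ((l + n : ℕ) + 1) ?_ ?_
  · refine key.trans (mul_le_mul' le_rfl ?_)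
    exact U_le h0 h1 x (l + n) lev hc hc' l n le_rfl
  · intro y hy
    apply cut2_res h0 h1 (by
      rw [mem_slab]
      constructor <;> linarith [(show (0 : ℤ) ≤ l by positivity),
        (show (0 : ℤ) ≤ n by positivity)]) _ (fun z : V => z)
      (fun z => fslab lev (lev x - l) (lev x + n) z)
      (fun z => slab lev (lev z - (l + n : ℕ)) (lev z))
    intro w hw hS
    obtain ⟨z, hz, w₁, w₂, hw12, hfirst⟩ := first_hit {v | lev v = lev x + n} w
      ⟨y, w.end_mem_support, hy⟩
    rw [Set.mem_ofPred_eq] at hz
    refine ⟨z, hz, w₁, w₂, hw12, ?_, ?_⟩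
    · intro v hv
      have hvw : v ∈ w.support := by
        rw [hw12, SimpleGraph.Walk.mem_support_append_iff]
        exact Or.inl hv
      have h2 := hS v hvw
      rw [mem_slab] at h2
      rw [mem_fslab]
      by_cases hvz : v = z
      · exact Or.inr hvz
      · left
        refine ⟨h2.1, lt_of_le_of_ne h2.2 (fun h => hvz (hfirst v hv h))⟩
    · intro v hv
      have hvw : v ∈ w.support := by
        rw [hw12, SimpleGraph.Walk.mem_support_append_iff]
        exact Or.inr hv
      have h2 := hS v hvw
      rw [mem_slab] at h2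
      rw [mem_slab]
      push_cast
      constructor <;> linarith [h2.1, h2.2]
  · intro z hz
    refine le_trans (le_of_eq ?_) (ret_top_le h0 h1 hc hc' (l + n) z)
    congr 1
    funext y
    have : (lev y = lev x + n) ↔ (lev y = lev z) := by rw [hz]
    simp only [this]

/-- visits to the bottom of a slab -/
theorem bot_le (h0 : 0 ≤ p) (h1 : p ≤ 1 / 2) {lev : V → ℤ} (hc : Cross H p lev)
    (hc' : Cross H p (fun v => - lev v)) (l n : ℕ) (x : V) {a b : ℤ} (ha : a = lev x - l)
    (hb : b = lev x + n) :
    ∑' y, (if lev y = a then tau (res H (slab lev a b)) p x y else 0) ≤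
      ((l + n : ℕ) + 1) * 2 ^ (l + n) := by
  have key := top_le h0 h1 hc' (by simpa using hc) n l x (a := -b) (b := -a)
    (by linarith) (by linarith)
  rw [slab_neg, add_comm n l] at key
  refine le_trans (le_of_eq ?_) key
  congr 1
  funext y
  have : (- lev y = - a) ↔ (lev y = a) := neg_inj
  simp only [this]

/-- the pointwise bound in terms of slabs connecting the two points -/
theorem tau_range (h0 : 0 ≤ p) (h1 : p ≤ 1 / 2) {lev : V → ℤ} (hc : Cross H p lev)
    (hc' : Cross H p (fun v => - lev v)) (c : ℝ≥0∞)
    (hP : ∀ (z₁ z₂ : V) (m : ℕ), lev z₂ = lev z₁ + m →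
      tau (res H (slab lev (lev z₁) (lev z₂))) p z₁ z₂ ≤ c ^ m) (x y : V) :
    tau H p x y ≤ ∑' q : ℕ × ℕ, ⨆ (_ : (res H (slab lev (lev x - q.1) (lev x + q.2))).Reachable
      x y), 2 * (c ^ (q.1 + q.2) * (((q.1 + q.2 : ℕ) + 1) * 2 ^ (q.1 + q.2)) ^ 2) := by
  classical
  have hcut := cut3 (H := H) h0 h1 x y
    (κ := (ℕ × ℕ) × (Bool × (V × V)))
    (fun k => (res H (slab lev (lev x - k.1.1) (lev x + k.1.2))).Reachable x y ∧
      (if k.2.1 = true then (lev k.2.2.1 = lev x - k.1.1 ∧ lev k.2.2.2 = lev x + k.1.2) else
        (lev k.2.2.1 = lev x + k.1.2 ∧ lev k.2.2.2 = lev x - k.1.1)))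
    (fun k => k.2.2.1) (fun k => k.2.2.2)
    (fun k => slab lev (lev x - k.1.1) (lev x + k.1.2))
    (fun k => slab lev (lev x - k.1.1) (lev x + k.1.2))
    (fun k => slab lev (lev x - k.1.1) (lev x + k.1.2)) ?_
  · refine hcut.trans ?_
    rw [ENNReal.tsum_prod']
    apply ENNReal.tsum_le_tsum
    rintro ⟨l, n⟩
    by_cases hr : (res H (slab lev (lev x - l) (lev x + n))).Reachable x y
    swap
    · simp [hr]
    have hxs : x ∈ slab lev (lev x - l) (lev x + n) := by
      rw [mem_slab]
      constructor <;> linarith [(show (0 : ℤ) ≤ l by positivity),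
        (show (0 : ℤ) ≤ n by positivity)]
    have hys : y ∈ slab lev (lev x - l) (lev x + n) := by
      obtain ⟨w⟩ := hr
      exact support_res w hxs y w.end_mem_support
    rw [mem_slab] at hys
    obtain ⟨l', hl'⟩ := Int.eq_ofNat_of_zero_le
      (show 0 ≤ lev y - (lev x - l) by linarith [hys.1])
    obtain ⟨n', hn'⟩ := Int.eq_ofNat_of_zero_le
      (show 0 ≤ (lev x + n) - lev y by linarith [hys.2])
    have hm : l' + n' = l + n := by
      have : (l' : ℤ) + n' = l + n := by linarith
      exact_mod_cast this
    set S := slab lev (lev x - l) (lev x + n) with hS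
    set B : ℝ≥0∞ := ((l + n : ℕ) + 1) * 2 ^ (l + n) with hB
    have x1 := bot_le h0 h1 hc hc' l n x rfl rfl
    have x2 := top_le h0 h1 hc hc' l n x rfl rfl
    have y1 := bot_le h0 h1 hc hc' l' n' y (a := lev x - l) (b := lev x + n) (by linarith)
      (by linarith)
    have y2 := top_le h0 h1 hc hc' l' n' y (a := lev x - l) (b := lev x + n) (by linarith)
      (by linarith)
    rw [hm, ← hS, ← hB] at y1 y2
    rw [← hS, ← hB] at x1 x2
    simp only [hr, iSup_pos]
    rw [ENNReal.tsum_prod', tsum_bool, two_mul]
    have bound : ∀ (P Q : V → Prop) [DecidablePred P] [DecidablePred Q],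
        (∀ z₁ z₂, P z₁ → Q z₂ → tau (res H S) p z₁ z₂ ≤ c ^ (l + n)) →
        ∑' z, (if P z then tau (res H S) p x z else 0) ≤ B →
        ∑' z, (if Q z then tau (res H S) p y z else 0) ≤ B →
        ∑' z : V × V, (if P z.1 ∧ Q z.2 then tau (res H S) p x z.1 *
          (tau (res H S) p z.1 z.2 * tau (res H S) p z.2 y) else 0) ≤
          c ^ (l + n) * B ^ 2 := by
      intro P Q _ _ hPQ hB1 hB2
      rw [ENNReal.tsum_prod']
      calc ∑' z₁, ∑' z₂, (if P z₁ ∧ Q z₂ then tau (res H S) p x z₁ *
            (tau (res H S) p z₁ z₂ * tau (res H S) p z₂ y) else 0)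
          ≤ ∑' z₁, ∑' z₂, c ^ (l + n) * ((if P z₁ then tau (res H S) p x z₁ else 0) *
              (if Q z₂ then tau (res H S) p y z₂ else 0)) := by
            apply ENNReal.tsum_le_tsum
            intro z₁
            apply ENNReal.tsum_le_tsum
            intro z₂
            by_cases hP1 : P z₁
            · by_cases hQ2 : Q z₂
              · rw [if_pos ⟨hP1, hQ2⟩, if_pos hP1, if_pos hQ2, tau_comm _ p z₂ y]
                calc tau (res H S) p x z₁ * (tau (res H S) p z₁ z₂ * tau (res H S) p y z₂)
                    ≤ tau (res H S) p x z₁ * (c ^ (l + n) * tau (res H S) p y z₂) :=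
                      mul_le_mul' le_rfl (mul_le_mul' (hPQ _ _ hP1 hQ2) le_rfl)
                  _ = _ := by ring
              · rw [if_neg (fun h => hQ2 h.2)]
                exact zero_le
            · rw [if_neg (fun h => hP1 h.1)]
              exact zero_le
        _ = c ^ (l + n) * ((∑' z₁, (if P z₁ then tau (res H S) p x z₁ else 0)) *
              ∑' z₂, (if Q z₂ then tau (res H S) p y z₂ else 0)) := by
            simp_rw [ENNReal.tsum_mul_left]
            rw [ENNReal.tsum_mul_right]
        _ ≤ c ^ (l + n) * (B * B) := mul_le_mul' le_rfl (mul_le_mul' hB1 hB2)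
        _ = _ := by rw [sq]
    apply add_le_add
    · -- false
      have := bound (fun z => lev z = lev x + n) (fun z => lev z = lev x - l) ?_ x2 y1
      · refine le_trans (le_of_eq ?_) this
        congr 1
        funext z
        exact if_congr (by simpa using fun _ _ => hr) rfl rfl
      · intro z₁ z₂ e1 e2
        have := hP z₂ z₁ (l + n) (by rw [e1, e2]; push_cast; ring)
        rw [e1, e2, ← hS, tau_comm] at this
        exact this
    · have := bound (fun z => lev z = lev x - l) (fun z => lev z = lev x + n) ?_ x1 y2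
      · refine le_trans (le_of_eq ?_) this
        congr 1
        funext z
        exact if_congr (by simpa using fun _ _ => hr) rfl rfl
      · intro z₁ z₂ e1 e2
        have := hP z₁ z₂ (l + n) (by rw [e1, e2]; push_cast; ring)
        rw [e1, e2, ← hS] at this
        exact this
  · intro w _
    obtain ⟨u, hu, hmin⟩ := exists_min lev w
    obtain ⟨v, hv, hmax'⟩ := exists_min (fun a => - lev a) w
    have hmax : ∀ a ∈ w.support, lev a ≤ lev v := fun a ha => by
      have := hmax' a ha
      change - lev v ≤ - lev a at this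
      linarith
    obtain ⟨l, hl⟩ := Int.eq_ofNat_of_zero_le
      (show 0 ≤ lev x - lev u by linarith [hmin x w.start_mem_support])
    obtain ⟨n, hn⟩ := Int.eq_ofNat_of_zero_le
      (show 0 ≤ lev v - lev x by linarith [hmax x w.start_mem_support])
    have hws : ∀ a ∈ w.support, a ∈ slab lev (lev x - l) (lev x + n) := by
      intro a ha
      rw [mem_slab]
      constructor <;> linarith [hmin a ha, hmax a ha]
    have hr := walk_reach w hws
    rcases two_points w hu hv with ⟨w₁, w₂, w₃, hw⟩ | ⟨w₁, w₂, w₃, hw⟩
    · refine ⟨((l, n), (true, (u, v))), ⟨hr, ?_⟩, w₁, w₂, w₃, hw, ?_, ?_, ?_⟩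
      · rw [if_pos rfl]
        constructor
        · change lev u = lev x - (l : ℤ)
          linarith
        · change lev v = lev x + (n : ℤ)
          linarith
      · intro a ha
        apply hws
        rw [hw, SimpleGraph.Walk.mem_support_append_iff]
        exact Or.inl ha
      · intro a ha
        apply hws
        rw [hw, SimpleGraph.Walk.mem_support_append_iff, SimpleGraph.Walk.mem_support_append_iff]
        exact Or.inr (Or.inl ha)
      · intro a ha
        apply hws
        rw [hw, SimpleGraph.Walk.mem_support_append_iff, SimpleGraph.Walk.mem_support_append_iff]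
        exact Or.inr (Or.inr ha)
    · refine ⟨((l, n), (false, (v, u))), ⟨hr, ?_⟩, w₁, w₂, w₃, hw, ?_, ?_, ?_⟩
      · rw [if_neg (by simp)]
        constructor
        · change lev v = lev x + (n : ℤ)
          linarith
        · change lev u = lev x - (l : ℤ)
          linarith
      · intro a ha
        apply hws
        rw [hw, SimpleGraph.Walk.mem_support_append_iff]
        exact Or.inl ha
      · intro a ha
        apply hws
        rw [hw, SimpleGraph.Walk.mem_support_append_iff, SimpleGraph.Walk.mem_support_append_iff]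
        exact Or.inr (Or.inl ha)
      · intro a ha
        apply hws
        rw [hw, SimpleGraph.Walk.mem_support_append_iff, SimpleGraph.Walk.mem_support_append_iff]
        exact Or.inr (Or.inr ha)

end Pool.Agent.H5.Perc
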