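import Pool.Agent.H5.Perc.Kernel

set_option autoImplicit false

/-! Boundedness on `ℓ^{3/2}` of the two-point operator of the tree of copies. -/

namespace Pool.Agent.H5.Perc

open scoped ENNReal
open MeasureTheory

/-! ### Hölder inequalities for sums in `[0, ∞]` -/

theorem holder_tsum {α : Type*} (a b : α → ℝ≥0∞) {p q : ℝ} (hpq : p.HolderConjugate q) :
    ∑' i, a i * b i ≤ (∑' i, a i ^ p) ^ (1 / p) * (∑' i, b i ^ q) ^ (1 / q) := by
  let _ : MeasurableSpace α := ⊤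
  have h := ENNReal.lintegral_mul_le_Lp_mul_Lq (Measure.count : Measure α) hpq
    (f := a) (g := b) (by exact (measurable_from_top).aemeasurable)
    (by exact (measurable_from_top).aemeasurable)
  rw [lintegral_count' measurable_from_top, lintegral_count' measurable_from_top,
    lintegral_count' measurable_from_top] at h
  exact h

theorem holder32 {α : Type*} (a b : α → ℝ≥0∞) :
    (∑' i, a i * b i) ^ (3 / 2 : ℝ) ≤
      (∑' i, a i ^ (3 : ℝ)) ^ (1 / 2 : ℝ) * ∑' i, b i ^ (3 / 2 : ℝ) := by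
  have hpq : (3 : ℝ).HolderConjugate (3 / 2) := by
    rw [Real.holderConjugate_iff]
    norm_num
  have h := holder_tsum a b hpq
  have h2 := ENNReal.rpow_le_rpow h (by norm_num : (0 : ℝ) ≤ 3 / 2)
  rw [ENNReal.mul_rpow_of_nonneg _ _ (by norm_num), ← ENNReal.rpow_mul, ← ENNReal.rpow_mul] at h2
  norm_num at h2 ⊢
  exact h2

theorem jensen32 {α : Type*} (t b : α → ℝ≥0∞) :
    (∑' i, t i * b i) ^ (3 / 2 : ℝ) ≤
      (∑' i, t i) ^ (1 / 2 : ℝ) * ∑' i, t i * b i ^ (3 / 2 : ℝ) := by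
  have h := holder32 (fun i => t i ^ (1 / 3 : ℝ)) (fun i => t i ^ (2 / 3 : ℝ) * b i)
  have e1 : ∀ i, t i ^ (1 / 3 : ℝ) * (t i ^ (2 / 3 : ℝ) * b i) = t i * b i := by
    intro i
    rw [← mul_assoc, ← ENNReal.rpow_add_of_nonneg _ _ (by norm_num) (by norm_num)]
    norm_num
  have e2 : ∀ i, (t i ^ (1 / 3 : ℝ)) ^ (3 : ℝ) = t i := by
    intro i
    rw [← ENNReal.rpow_mul]
    norm_num
  have e3 : ∀ i, (t i ^ (2 / 3 : ℝ) * b i) ^ (3 / 2 : ℝ) = t i * b i ^ (3 / 2 : ℝ) := by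
    intro i
    rw [ENNReal.mul_rpow_of_nonneg _ _ (by norm_num), ← ENNReal.rpow_mul]
    norm_num
  simp only [e1, e2, e3] at h
  exact h

theorem geom32 (a : ℕ → ℝ≥0∞) :
    (∑' i, a i) ^ (3 / 2 : ℝ) ≤ 2 * ∑' i, (2 : ℝ≥0∞) ^ i * a i ^ (3 / 2 : ℝ) := by
  have h := holder32 (fun i : ℕ => (((2 : ℝ≥0∞)⁻¹) ^ i) ^ (2 / 3 : ℝ))
    (fun i => ((2 : ℝ≥0∞) ^ i) ^ (2 / 3 : ℝ) * a i)
  have e1 : ∀ i : ℕ, (((2 : ℝ≥0∞)⁻¹) ^ i) ^ (2 / 3 : ℝ) *
      (((2 : ℝ≥0∞) ^ i) ^ (2 / 3 : ℝ) * a i) = a i := by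
    intro i
    rw [← mul_assoc, ← ENNReal.mul_rpow_of_nonneg _ _ (by norm_num), ← mul_pow,
      ENNReal.inv_mul_cancel (by norm_num) (by norm_num), one_pow, ENNReal.one_rpow, one_mul]
  have e2 : ∀ i : ℕ, ((((2 : ℝ≥0∞)⁻¹) ^ i) ^ (2 / 3 : ℝ)) ^ (3 : ℝ) ≤ ((2 : ℝ≥0∞)⁻¹) ^ i := by
    intro i
    rw [← ENNReal.rpow_mul]
    have hle : ((2 : ℝ≥0∞)⁻¹) ^ i ≤ 1 := pow_le_one₀ (by positivity) (by
      rw [ENNReal.inv_le_one]
      norm_num)
    calc (((2 : ℝ≥0∞)⁻¹) ^ i) ^ (2 / 3 * 3 : ℝ)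
        ≤ (((2 : ℝ≥0∞)⁻¹) ^ i) ^ (1 : ℝ) :=
          ENNReal.rpow_le_rpow_of_exponent_ge hle (by norm_num)
      _ = _ := ENNReal.rpow_one _
  have e3 : ∀ i : ℕ, (((2 : ℝ≥0∞) ^ i) ^ (2 / 3 : ℝ) * a i) ^ (3 / 2 : ℝ) =
      (2 : ℝ≥0∞) ^ i * a i ^ (3 / 2 : ℝ) := by
    intro i
    rw [ENNReal.mul_rpow_of_nonneg _ _ (by norm_num), ← ENNReal.rpow_mul]
    norm_num
  simp only [e1, e3] at h
  refine h.trans ?_
  gcongr
  have h4 : ∑' i : ℕ, ((((2 : ℝ≥0∞)⁻¹) ^ i) ^ (2 / 3 : ℝ)) ^ (3 : ℝ) ≤ 2 := by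
    calc ∑' i : ℕ, ((((2 : ℝ≥0∞)⁻¹) ^ i) ^ (2 / 3 : ℝ)) ^ (3 : ℝ)
        ≤ ∑' i : ℕ, ((2 : ℝ≥0∞)⁻¹) ^ i := ENNReal.tsum_le_tsum e2
      _ = 2 := by
        rw [ENNReal.tsum_geometric, ENNReal.one_sub_inv_two, inv_inv]
  calc (∑' i : ℕ, ((((2 : ℝ≥0∞)⁻¹) ^ i) ^ (2 / 3 : ℝ)) ^ (3 : ℝ)) ^ (1 / 2 : ℝ)
      ≤ (2 : ℝ≥0∞) ^ (1 / 2 : ℝ) := ENNReal.rpow_le_rpow h4 (by norm_num)
    _ ≤ (2 : ℝ≥0∞) ^ (1 : ℝ) :=
        ENNReal.rpow_le_rpow_of_exponent_le (by norm_num) (by norm_num)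
    _ = 2 := ENNReal.rpow_one _

/-! ### sums over lists -/

/-- lists are empty or have a head -/
def listEquiv (α : Type*) : Option (α × List α) ≃ List α where
  toFun
    | none => []
    | some (a, l) => a :: l
  invFun
    | [] => none
    | a :: l => some (a, l)
  left_inv x := by
    rcases x with _ | ⟨a, l⟩ <;> rfl
  right_inv x := by
    rcases x with _ | ⟨a, l⟩ <;> rfl

theorem tsum_opt {α : Type*} (F : Option α → ℝ≥0∞) : ∑' x, F x = F none + ∑' a, F (some a) := by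
  rw [← (Equiv.optionEquivSumPUnit.{0} α).symm.tsum_eq F, Summable.tsum_sum ENNReal.summable ENNReal.summable, add_comm]
  congr 1
  simp

theorem tsum_list {α : Type*} (F : List α → ℝ≥0∞) :
    ∑' m, F m = F [] + ∑' (g : α) (m : List α), F (g :: m) := by
  rw [← (listEquiv α).tsum_eq F, tsum_opt, ENNReal.tsum_prod']
  rfl

/-! ### the operators -/

section Ops

variable {Γ : Type}

/-- going up one copy -/
noncomputable def opU (w : Γ → ℝ≥0∞) (F : List Γ × Γ → ℝ≥0∞) : List Γ × Γ → ℝ≥0∞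
  | ([], _) => 0
  | (g :: l, h) => w h * F (l, g)

/-- moving inside a copy -/
noncomputable def opB (t : Γ → Γ → ℝ≥0∞) (F : List Γ × Γ → ℝ≥0∞) : List Γ × Γ → ℝ≥0∞ :=
  fun x => ∑' h', t x.2 h' * F (x.1, h')

/-- going down one copy -/
noncomputable def opD (w : Γ → ℝ≥0∞) (F : List Γ × Γ → ℝ≥0∞) : List Γ × Γ → ℝ≥0∞ :=
  fun x => ∑' h, w h * F (x.2 :: x.1, h)

/-- `3/2`-th power of the `ℓ^{3/2}` norm -/
noncomputable def nrm {α : Type*} (F : α → ℝ≥0∞) : ℝ≥0∞ := ∑' x, F x ^ (3 / 2 : ℝ)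

theorem nrm_mono {α : Type*} {F G : α → ℝ≥0∞} (h : ∀ x, F x ≤ G x) : nrm F ≤ nrm G :=
  ENNReal.tsum_le_tsum (fun x => ENNReal.rpow_le_rpow (h x) (by norm_num))

theorem nrm_opU (w : Γ → ℝ≥0∞) (F : List Γ × Γ → ℝ≥0∞) :
    nrm (opU w F) = (∑' h, w h ^ (3 / 2 : ℝ)) * nrm F := by
  unfold nrm
  rw [ENNReal.tsum_prod', tsum_list]
  have e1 : ∑' h : Γ, opU w F ([], h) ^ (3 / 2 : ℝ) = 0 := by
    have : ∀ h : Γ, opU w F ([], h) ^ (3 / 2 : ℝ) = 0 := by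
      intro h
      change (0 : ℝ≥0∞) ^ (3 / 2 : ℝ) = 0
      rw [ENNReal.zero_rpow_of_pos (by norm_num)]
    simp [this]
  have e2 : ∀ (g : Γ) (l : List Γ), ∑' h : Γ, opU w F (g :: l, h) ^ (3 / 2 : ℝ) =
      (∑' h, w h ^ (3 / 2 : ℝ)) * F (l, g) ^ (3 / 2 : ℝ) := by
    intro g l
    rw [← ENNReal.tsum_mul_right]
    apply tsum_congr
    intro h
    change (w h * F (l, g)) ^ (3 / 2 : ℝ) = _
    rw [ENNReal.mul_rpow_of_nonneg _ _ (by norm_num)]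
  rw [e1, zero_add, ENNReal.tsum_prod']
  simp only [e2]
  simp only [ENNReal.tsum_mul_left]
  rw [ENNReal.tsum_comm]

theorem nrm_opD_le (w : Γ → ℝ≥0∞) (F : List Γ × Γ → ℝ≥0∞) :
    nrm (opD w F) ≤ (∑' h, w h ^ (3 : ℝ)) ^ (1 / 2 : ℝ) * nrm F := by
  unfold nrm
  have e1 : ∀ x : List Γ × Γ, opD w F x ^ (3 / 2 : ℝ) ≤
      (∑' h, w h ^ (3 : ℝ)) ^ (1 / 2 : ℝ) * ∑' h, F (x.2 :: x.1, h) ^ (3 / 2 : ℝ) := by
    intro x
    exact holder32 w (fun h => F (x.2 :: x.1, h))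
  refine (ENNReal.tsum_le_tsum e1).trans ?_
  rw [ENNReal.tsum_mul_left]
  refine mul_le_mul' le_rfl ?_
  rw [ENNReal.tsum_prod', ENNReal.tsum_prod' (f := fun x : List Γ × Γ => F x ^ (3 / 2 : ℝ)),
    tsum_list (fun m => ∑' h, F (m, h) ^ (3 / 2 : ℝ)), ENNReal.tsum_comm]
  exact le_add_self

theorem nrm_opB_le (t : Γ → Γ → ℝ≥0∞) {χ : ℝ≥0∞} (hr : ∀ a, ∑' b, t a b ≤ χ)
    (hc : ∀ b, ∑' a, t a b ≤ χ) (F : List Γ × Γ → ℝ≥0∞) :
    nrm (opB t F) ≤ χ ^ (3 / 2 : ℝ) * nrm F := by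
  unfold nrm
  have e1 : ∀ x : List Γ × Γ, opB t F x ^ (3 / 2 : ℝ) ≤
      χ ^ (1 / 2 : ℝ) * ∑' h', t x.2 h' * F (x.1, h') ^ (3 / 2 : ℝ) := by
    intro x
    refine (jensen32 (fun h' => t x.2 h') (fun h' => F (x.1, h'))).trans ?_
    gcongr
    exact hr x.2
  refine (ENNReal.tsum_le_tsum e1).trans ?_
  rw [ENNReal.tsum_mul_left, ENNReal.tsum_prod',
    ENNReal.tsum_prod' (f := fun x : List Γ × Γ => F x ^ (3 / 2 : ℝ))]
  have e2 : ∀ l : List Γ, ∑' (h : Γ) (h' : Γ), t h h' * F (l, h') ^ (3 / 2 : ℝ) ≤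
      χ * ∑' h', F (l, h') ^ (3 / 2 : ℝ) := by
    intro l
    rw [ENNReal.tsum_comm, ← ENNReal.tsum_mul_left]
    apply ENNReal.tsum_le_tsum
    intro h'
    rw [ENNReal.tsum_mul_right]
    gcongr
    exact hc h'
  calc χ ^ (1 / 2 : ℝ) * ∑' (l : List Γ), ∑' (h : Γ) (h' : Γ), t h h' * F (l, h') ^ (3 / 2 : ℝ)
      ≤ χ ^ (1 / 2 : ℝ) * ∑' (l : List Γ), χ * ∑' h', F (l, h') ^ (3 / 2 : ℝ) :=
        mul_le_mul' le_rfl (ENNReal.tsum_le_tsum e2)
    _ = χ ^ (3 / 2 : ℝ) * ∑' (l : List Γ), ∑' h', F (l, h') ^ (3 / 2 : ℝ) := by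
        rw [ENNReal.tsum_mul_left, ← mul_assoc]
        congr 1
        have : (3 / 2 : ℝ) = 1 / 2 + 1 := by norm_num
        rw [this, ENNReal.rpow_add_of_nonneg _ _ (by norm_num) (by norm_num), ENNReal.rpow_one]

theorem nrm_tsum_le {α : Type*} (A : ℕ → α → ℝ≥0∞) :
    nrm (fun x => ∑' i, A i x) ≤ 2 * ∑' i, (2 : ℝ≥0∞) ^ i * nrm (A i) := by
  unfold nrm
  refine (ENNReal.tsum_le_tsum (fun x => geom32 (fun i => A i x))).trans ?_
  rw [ENNReal.tsum_mul_left, ENNReal.tsum_comm]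
  simp only [ENNReal.tsum_mul_left]
  exact le_rfl

theorem nrm_iterU (w : Γ → ℝ≥0∞) (i : ℕ) (F : List Γ × Γ → ℝ≥0∞) :
    nrm ((opU w)^[i] F) = (∑' h, w h ^ (3 / 2 : ℝ)) ^ i * nrm F := by
  induction i with
  | zero => simp
  | succ i ih =>
    rw [Function.iterate_succ_apply', nrm_opU, ih, pow_succ]
    ring

theorem nrm_iterD_le (w : Γ → ℝ≥0∞) (i : ℕ) (F : List Γ × Γ → ℝ≥0∞) :
    nrm ((opD w)^[i] F) ≤ ((∑' h, w h ^ (3 : ℝ)) ^ (1 / 2 : ℝ)) ^ i * nrm F := by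
  induction i with
  | zero => simp
  | succ i ih =>
    rw [Function.iterate_succ_apply']
    refine (nrm_opD_le _ _).trans ?_
    calc _ ≤ (∑' h, w h ^ (3 : ℝ)) ^ (1 / 2 : ℝ) *
          (((∑' h, w h ^ (3 : ℝ)) ^ (1 / 2 : ℝ)) ^ i * nrm F) := by gcongr
      _ = _ := by rw [pow_succ]; ring

/-- the kernel of `U^i B D^j` -/
noncomputable def ker0 (w : Γ → ℝ≥0∞) (t : Γ → Γ → ℝ≥0∞) :
    ℕ → (List Γ × Γ) → (List Γ × Γ) → ℝ≥0∞
  | 0, x, y => by classical exact if x.1 = y.1 then t x.2 y.2 else 0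
  | _ + 1, _, ([], _) => 0
  | j + 1, x, (g :: m, h) => ker0 w t j x (m, g) * w h

/-- the kernel of `U^i B D^j` -/
noncomputable def ker (w : Γ → ℝ≥0∞) (t : Γ → Γ → ℝ≥0∞) :
    ℕ → ℕ → (List Γ × Γ) → (List Γ × Γ) → ℝ≥0∞
  | 0, j, x, y => ker0 w t j x y
  | _ + 1, _, ([], _), _ => 0
  | i + 1, j, (g :: l, h), y => w h * ker w t i j (l, g) y

theorem ker_succ_right (w : Γ → ℝ≥0∞) (t : Γ → Γ → ℝ≥0∞) :
    ∀ (i j : ℕ) (x : List Γ × Γ) (g : Γ) (m : List Γ) (h : Γ),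
      ker w t i (j + 1) x (g :: m, h) = ker w t i j x (m, g) * w h
  | 0, j, x, g, m, h => rfl
  | i + 1, j, ([], _), g, m, h => by simp [ker]
  | i + 1, j, (g' :: l, h'), g, m, h => by
    change w h' * ker w t i (j + 1) (l, g') (g :: m, h) = w h' * ker w t i j (l, g') (m, g) * w h
    rw [ker_succ_right w t i j, mul_assoc]

theorem ker0_tsum (w : Γ → ℝ≥0∞) (t : Γ → Γ → ℝ≥0∞) (j : ℕ) (x : List Γ × Γ)
    (F : List Γ × Γ → ℝ≥0∞) :
    ∑' y, ker0 w t j x y * F y = opB t ((opD w)^[j] F) x := by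
  classical
  induction j generalizing F with
  | zero =>
    rw [ENNReal.tsum_prod', tsum_eq_single x.1]
    · change ∑' h', ker0 w t 0 x (x.1, h') * F (x.1, h') = ∑' h', t x.2 h' * F (x.1, h')
      apply tsum_congr
      intro h'
      have : ker0 w t 0 x (x.1, h') = t x.2 h' := by simp [ker0]
      rw [this]
    · intro m hm
      have : ∀ h', ker0 w t 0 x (m, h') = 0 := by
        intro h'
        simp [ker0, Ne.symm hm]
      simp [this]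
  | succ j ih =>
    rw [Function.iterate_succ_apply, ← ih (opD w F), ENNReal.tsum_prod', tsum_list]
    have e1 : ∑' h : Γ, ker0 w t (j + 1) x ([], h) * F ([], h) = 0 := by
      have : ∀ h : Γ, ker0 w t (j + 1) x ([], h) = 0 := fun h => rfl
      simp [this]
    rw [e1, zero_add, ENNReal.tsum_prod', ENNReal.tsum_comm]
    apply tsum_congr
    intro m
    apply tsum_congr
    intro g
    change ∑' h, (ker0 w t j x (m, g) * w h) * F (g :: m, h) =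
      ker0 w t j x (m, g) * ∑' h, w h * F (g :: m, h)
    rw [← ENNReal.tsum_mul_left]
    apply tsum_congr
    intro h
    rw [mul_assoc]

theorem ker_tsum (w : Γ → ℝ≥0∞) (t : Γ → Γ → ℝ≥0∞) (i j : ℕ) (x : List Γ × Γ)
    (F : List Γ × Γ → ℝ≥0∞) :
    ∑' y, ker w t i j x y * F y = (opU w)^[i] (opB t ((opD w)^[j] F)) x := by
  induction i generalizing x with
  | zero => exact ker0_tsum w t j x F
  | succ i ih =>
    rw [Function.iterate_succ_apply']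
    match x with
    | ([], h) =>
      have : ∀ y, ker w t (i + 1) j ([], h) y = 0 := fun y => rfl
      simp [this, opU]
    | (g :: l, h) =>
      change ∑' y, (w h * ker w t i j (l, g) y) * F y = w h * _
      rw [← ih (l, g), ← ENNReal.tsum_mul_left]
      apply tsum_congr
      intro y
      rw [mul_assoc]

end Ops

/-! ### the main bound -/

section Main

variable {Γ : Type} [Group Γ] [DecidableEq Γ] {H : SimpleGraph Γ}

theorem tau_le_ker {p : ℝ} (h0 : 0 ≤ p) (h1 : p ≤ 1) (n : ℕ) :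
    ∀ x y : TV Γ, x.1.1.length + y.1.1.length = n →
      ∃ i j, tau (TG H) p x y ≤
        ker (fun h => ENNReal.ofReal p * tau H p h 1) (fun a b => tau H p a b) i j x.1 y.1 := by
  classical
  induction n with
  | zero =>
    intro x y hn
    refine ⟨0, 0, ?_⟩
    obtain ⟨⟨l, a⟩, hl⟩ := x
    obtain ⟨⟨m, b⟩, hm⟩ := y
    have hlm : l = [] ∧ m = [] := by
      simp only [Nat.add_eq_zero_iff, List.length_eq_zero_iff] at hn
      exact hn
    obtain ⟨rfl, rfl⟩ := hlm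
    refine (tau_copy_le h0 h1 [] hl a b).trans ?_
    simp [ker, ker0]
  | succ n ih =>
    intro x y hn
    obtain ⟨⟨l, a⟩, hl⟩ := x
    obtain ⟨⟨m, b⟩, hm⟩ := y
    by_cases hlm : l = m
    · subst hlm
      refine ⟨0, 0, ?_⟩
      refine (tau_copy_le h0 h1 l hl a b).trans ?_
      simp [ker, ker0]
    · by_cases hs : l <:+ m
      · -- `y` is deeper
        match m, hm, hs, hn, hlm with
        | [], hm, hs, hn, hlm => exact absurd (List.suffix_nil.1 hs) hlm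
        | g :: m, hm, hs, hn, hlm =>
          have hns : ¬ (g :: m) <:+ l := by
            intro h
            exact hlm (List.IsSuffix.eq_of_length hs
              (le_antisymm hs.length_le h.length_le))
          have hb := tau_sub_le (H := H) h0 h1 hm b (y := ⟨(l, a), hl⟩) hns
          obtain ⟨i, j, hij⟩ := ih ⟨(l, a), hl⟩ (copy m hm.2 g) (by
            simp only [List.length_cons, copy] at hn ⊢
            omega)
          refine ⟨i, j + 1, ?_⟩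
          rw [ker_succ_right, tau_comm]
          refine hb.trans ?_
          rw [mul_comm, tau_comm (TG H) p (copy m hm.2 g)]
          exact mul_le_mul' hij le_rfl
      · match l, hl, hs, hn, hlm with
        | [], hl, hs, hn, hlm => exact absurd (List.nil_suffix) hs
        | g :: l, hl, hs, hn, hlm =>
          have hb := tau_sub_le (H := H) h0 h1 hl a (y := ⟨(m, b), hm⟩) hs
          obtain ⟨i, j, hij⟩ := ih (copy l hl.2 g) ⟨(m, b), hm⟩ (by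
            simp only [List.length_cons, copy] at hn ⊢
            omega)
          refine ⟨i + 1, j, ?_⟩
          refine hb.trans ?_
          exact mul_le_mul' le_rfl hij

/-- extension by zero of a function on the vertices -/
noncomputable def ext0 (f : TV Γ → ℝ≥0∞) : List Γ × Γ → ℝ≥0∞ := by
  classical exact fun x => if h : Valid x.1 then f ⟨x, h⟩ else 0

theorem ext0_val (f : TV Γ → ℝ≥0∞) (x : TV Γ) : ext0 f x.1 = f x := by
  unfold ext0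
  rw [dif_pos x.2]

theorem tsum_sub_le (K F : List Γ × Γ → ℝ≥0∞) :
    ∑' y : TV Γ, K y.1 * F y.1 ≤ ∑' y, K y * F y :=
  ENNReal.tsum_comp_le_tsum_of_injective (f := Subtype.val) Subtype.val_injective
    (fun y => K y * F y)

theorem nrm_ext0 (f : TV Γ → ℝ≥0∞) : nrm (ext0 f) = nrm f := by
  classical
  unfold nrm
  symm
  have : ∀ x : TV Γ, f x ^ (3 / 2 : ℝ) = (fun y => ext0 f y ^ (3 / 2 : ℝ)) x.1 := by
    intro x
    simp only [ext0_val]
  rw [tsum_congr this]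
  refine tsum_subtype_eq_of_support_subset (s := {x : List Γ × Γ | Valid x.1})
    (f := fun y => ext0 f y ^ (3 / 2 : ℝ)) ?_
  intro x hx
  by_contra hv
  apply hx
  change ext0 f x ^ (3 / 2 : ℝ) = 0
  have : ext0 f x = 0 := by
    unfold ext0
    rw [dif_neg (show ¬ Valid x.1 from hv)]
  rw [this, ENNReal.zero_rpow_of_pos (by norm_num)]

theorem two_mul_geom {r : ℝ≥0∞} (hr : r ≤ 4⁻¹) : ∑' i : ℕ, (2 : ℝ≥0∞) ^ i * r ^ i ≤ 2 := by
  have h1 : ∀ i : ℕ, (2 : ℝ≥0∞) ^ i * r ^ i ≤ (2⁻¹ : ℝ≥0∞) ^ i := by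
    intro i
    rw [← mul_pow]
    have h2 : 2 * r ≤ 2⁻¹ := by
      calc 2 * r ≤ 2 * 4⁻¹ := by gcongr
        _ = 2⁻¹ := by
          rw [show (4 : ℝ≥0∞) = 2 * 2 by norm_num, ENNReal.mul_inv (by norm_num) (by norm_num),
            ← mul_assoc, ENNReal.mul_inv_cancel (by norm_num) (by norm_num), one_mul]
    gcongr
  refine (ENNReal.tsum_le_tsum h1).trans ?_
  rw [ENNReal.tsum_geometric, ENNReal.one_sub_inv_two, inv_inv]

theorem operator_bound {p : ℝ} (h0 : 0 ≤ p) (h1 : p ≤ 1) {χ : ℝ≥0∞}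
    (hr : ∀ a, ∑' b, tau H p a b ≤ χ)
    (hw : ∑' h, (ENNReal.ofReal p * tau H p h 1) ^ (3 / 2 : ℝ) ≤ 4⁻¹)
    (hw' : (∑' h, (ENNReal.ofReal p * tau H p h 1) ^ (3 : ℝ)) ^ (1 / 2 : ℝ) ≤ 4⁻¹)
    (f : TV Γ → ℝ≥0∞) :
    ∑' x : TV Γ, (∑' y : TV Γ, tau (TG H) p x y * f y) ^ (3 / 2 : ℝ) ≤
      16 * χ ^ (3 / 2 : ℝ) * ∑' x : TV Γ, f x ^ (3 / 2 : ℝ) := by
  set w : Γ → ℝ≥0∞ := fun h => ENNReal.ofReal p * tau H p h 1 with hwdef
  set t : Γ → Γ → ℝ≥0∞ := fun a b => tau H p a b with ht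
  set F := ext0 f with hF
  have hc : ∀ b, ∑' a, t a b ≤ χ := by
    intro b
    refine le_trans (le_of_eq ?_) (hr b)
    apply tsum_congr
    intro a
    exact tau_comm H p a b
  -- pointwise bound
  have hpt : ∀ x : TV Γ, ∑' y : TV Γ, tau (TG H) p x y * f y ≤
      ∑' i, ∑' j, (opU w)^[i] (opB t ((opD w)^[j] F)) x.1 := by
    intro x
    calc ∑' y : TV Γ, tau (TG H) p x y * f y
        ≤ ∑' y : TV Γ, (∑' i, ∑' j, ker w t i j x.1 y.1) * F y.1 := by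
          apply ENNReal.tsum_le_tsum
          intro y
          rw [hF, ext0_val]
          obtain ⟨i, j, hij⟩ := tau_le_ker (H := H) h0 h1 _ x y rfl
          gcongr
          refine hij.trans ?_
          refine le_trans ?_ (ENNReal.le_tsum i)
          exact ENNReal.le_tsum j
      _ ≤ ∑' y : List Γ × Γ, (∑' i, ∑' j, ker w t i j x.1 y) * F y :=
          tsum_sub_le (fun y => ∑' i, ∑' j, ker w t i j x.1 y) F
      _ = ∑' i, ∑' j, ∑' y : List Γ × Γ, ker w t i j x.1 y * F y := by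
          simp only [← ENNReal.tsum_mul_right]
          rw [ENNReal.tsum_comm]
          apply tsum_congr
          intro i
          rw [ENNReal.tsum_comm]
      _ = _ := by
          apply tsum_congr
          intro i
          apply tsum_congr
          intro j
          exact ker_tsum w t i j x.1 F
  have step1 : ∑' x : TV Γ, (∑' y : TV Γ, tau (TG H) p x y * f y) ^ (3 / 2 : ℝ) ≤
      nrm (fun x : List Γ × Γ => ∑' i, ∑' j, (opU w)^[i] (opB t ((opD w)^[j] F)) x) := by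
    unfold nrm
    refine (ENNReal.tsum_le_tsum (fun x => ENNReal.rpow_le_rpow (hpt x) (by norm_num))).trans ?_
    exact ENNReal.tsum_comp_le_tsum_of_injective (f := Subtype.val) Subtype.val_injective
      (fun x : List Γ × Γ =>
        (∑' i, ∑' j, (opU w)^[i] (opB t ((opD w)^[j] F)) x) ^ (3 / 2 : ℝ))
  refine step1.trans ?_
  refine (nrm_tsum_le (fun i x => ∑' j, (opU w)^[i] (opB t ((opD w)^[j] F)) x)).trans ?_
  have hj : ∀ i, nrm (fun x : List Γ × Γ => ∑' j, (opU w)^[i] (opB t ((opD w)^[j] F)) x) ≤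
      4⁻¹ ^ i * (4 * χ ^ (3 / 2 : ℝ) * nrm F) := by
    intro i
    refine (nrm_tsum_le (fun j x => (opU w)^[i] (opB t ((opD w)^[j] F)) x)).trans ?_
    have h3 : ∀ j, nrm ((opU w)^[i] (opB t ((opD w)^[j] F))) ≤
        4⁻¹ ^ i * χ ^ (3 / 2 : ℝ) * nrm F * 4⁻¹ ^ j := by
      intro j
      rw [nrm_iterU]
      calc (∑' h, w h ^ (3 / 2 : ℝ)) ^ i * nrm (opB t ((opD w)^[j] F))
          ≤ 4⁻¹ ^ i * (χ ^ (3 / 2 : ℝ) * (4⁻¹ ^ j * nrm F)) := by
            gcongr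
            refine (nrm_opB_le t hr hc _).trans ?_
            gcongr
            refine (nrm_iterD_le w j F).trans ?_
            gcongr
        _ = _ := by ring
    calc 2 * ∑' j, (2 : ℝ≥0∞) ^ j * nrm ((opU w)^[i] (opB t ((opD w)^[j] F)))
        ≤ 2 * ∑' j : ℕ, (4⁻¹ ^ i * χ ^ (3 / 2 : ℝ) * nrm F) * ((2 : ℝ≥0∞) ^ j * 4⁻¹ ^ j) := by
          refine mul_le_mul' le_rfl (ENNReal.tsum_le_tsum fun j => ?_)
          refine (mul_le_mul' le_rfl (h3 j)).trans (le_of_eq ?_)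
          ring
      _ = 2 * ((4⁻¹ ^ i * χ ^ (3 / 2 : ℝ) * nrm F) * ∑' j : ℕ, ((2 : ℝ≥0∞) ^ j * 4⁻¹ ^ j)) := by
          rw [ENNReal.tsum_mul_left]
      _ ≤ 2 * ((4⁻¹ ^ i * χ ^ (3 / 2 : ℝ) * nrm F) * 2) := by
          gcongr
          exact two_mul_geom le_rfl
      _ = _ := by ring
  calc 2 * ∑' i, (2 : ℝ≥0∞) ^ i *
        nrm (fun x : List Γ × Γ => ∑' j, (opU w)^[i] (opB t ((opD w)^[j] F)) x)
      ≤ 2 * ∑' i : ℕ, (4 * χ ^ (3 / 2 : ℝ) * nrm F) * ((2 : ℝ≥0∞) ^ i * 4⁻¹ ^ i) := by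
        refine mul_le_mul' le_rfl (ENNReal.tsum_le_tsum fun i => ?_)
        refine (mul_le_mul' le_rfl (hj i)).trans (le_of_eq ?_)
        ring
    _ = 2 * ((4 * χ ^ (3 / 2 : ℝ) * nrm F) * ∑' i : ℕ, ((2 : ℝ≥0∞) ^ i * 4⁻¹ ^ i)) := by
        rw [ENNReal.tsum_mul_left]
    _ ≤ 2 * ((4 * χ ^ (3 / 2 : ℝ) * nrm F) * 2) := by
        gcongr
        exact two_mul_geom le_rfl
    _ = 16 * χ ^ (3 / 2 : ℝ) * nrm f := by
        rw [hF, nrm_ext0]
        ring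
    _ = _ := rfl

end Main

end Pool.Agent.H5.Perc
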