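import Pool.Agent.H5.Perc.Graph

set_option autoImplicit false

/-!
The free product of a left invariant graph `H` on a group `Γ` with an edge:
a tree of copies of `H`, consecutive copies being joined by single edges.
A vertex is a pair `(l, h)`: `l` lists (most recent first) the points at which the copies were
left and `h` is the position in the current copy, entered at `1`.
-/

namespace Pool.Agent.H5.Perc

variable {Γ : Type} [Group Γ]

/-- every crossing point except the one in the root copy is different from the entrance `1` -/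
def Valid : List Γ → Prop
  | [] => True
  | g :: l => (l = [] ∨ g ≠ 1) ∧ Valid l

theorem valid_nil : Valid ([] : List Γ) := trivial

theorem valid_cons {g : Γ} {l : List Γ} : Valid (g :: l) ↔ (l = [] ∨ g ≠ 1) ∧ Valid l := Iff.rfl

/-- vertices of the tree of copies -/
abbrev TV (Γ : Type) [Group Γ] : Type := {x : List Γ × Γ // Valid x.1}

/-- raw adjacency -/
def adjR (H : SimpleGraph Γ) (x y : List Γ × Γ) : Prop :=
  (x.1 = y.1 ∧ H.Adj x.2 y.2) ∨ (y.1 = x.2 :: x.1 ∧ y.2 = 1) ∨ (x.1 = y.2 :: y.1 ∧ x.2 = 1)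

/-- the tree of copies of `H` -/
def TG (H : SimpleGraph Γ) : SimpleGraph (TV Γ) where
  Adj x y := adjR H x.1 y.1
  symm := ⟨by
    rintro x y (⟨h1, h2⟩ | ⟨h1, h2⟩ | ⟨h1, h2⟩)
    · exact Or.inl ⟨h1.symm, h2.symm⟩
    · exact Or.inr (Or.inr ⟨h1, h2⟩)
    · exact Or.inr (Or.inl ⟨h1, h2⟩)⟩
  loopless := ⟨by
    rintro x (⟨h1, h2⟩ | ⟨h1, h2⟩ | ⟨h1, h2⟩)
    · exact h2.ne rfl
    · exact absurd (congrArg List.length h1) (by simp)
    · exact absurd (congrArg List.length h1) (by simp)⟩

variable {H : SimpleGraph Γ}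

theorem TG_adj {x y : TV Γ} : (TG H).Adj x y ↔ adjR H x.1 y.1 := Iff.rfl

/-- the copy of `H` with list `l` -/
def copy (l : List Γ) (hl : Valid l) (h : Γ) : TV Γ := ⟨(l, h), hl⟩

theorem adj_copy {l : List Γ} (hl : Valid l) {h h' : Γ} (hh : H.Adj h h') :
    (TG H).Adj (copy l hl h) (copy l hl h') := Or.inl ⟨rfl, hh⟩

theorem adj_cross {l : List Γ} {g : Γ} (hl : Valid (g :: l)) :
    (TG H).Adj (copy l hl.2 g) (copy (g :: l) hl 1) := Or.inr (Or.inl ⟨rfl, rfl⟩)

theorem reach_copy (hc : H.Connected) {l : List Γ} (hl : Valid l) (h h' : Γ) :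
    (TG H).Reachable (copy l hl h) (copy l hl h') := by
  let f : H →g TG H := ⟨copy l hl, fun hh => adj_copy hl hh⟩
  exact (hc.preconnected h h').map f

theorem TG_connected (hc : H.Connected) : (TG H).Connected := by
  have key : ∀ (l : List Γ) (hl : Valid l) (h : Γ),
      (TG H).Reachable (copy [] valid_nil 1) (copy l hl h) := by
    intro l
    induction l with
    | nil =>
      intro hl h
      exact reach_copy hc hl 1 h
    | cons g l ih =>
      intro hl h
      exact ((ih hl.2 g).trans (adj_cross hl).reachable).trans (reach_copy hc hl 1 h)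
  have : Nonempty (TV Γ) := ⟨copy [] valid_nil 1⟩
  refine ⟨?_⟩
  intro x y
  exact (key x.1.1 x.2 x.1.2).symm.trans (key y.1.1 y.2 y.1.2)

/-! ### local finiteness -/

theorem TG_neighbor_finite (hf : ∀ a, (H.neighborSet a).Finite) (x : TV Γ) :
    ((TG H).neighborSet x).Finite := by
  classical
  have h1 : ((fun y : TV Γ => y.1) '' (TG H).neighborSet x).Finite := by
    obtain ⟨⟨l, h⟩, hl⟩ := x
    have hfin : (((fun h' : Γ => (l, h')) '' H.neighborSet h) ∪ {(h :: l, (1 : Γ))} ∪
        {(l.tail, l.headD 1)} : Set (List Γ × Γ)).Finite :=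
      (((hf h).image _).union (Set.finite_singleton _)).union (Set.finite_singleton _)
    refine hfin.subset ?_
    rintro _ ⟨⟨⟨m, h'⟩, hm⟩, hadj, rfl⟩
    rcases hadj with ⟨e1, e2⟩ | ⟨e1, e2⟩ | ⟨e1, e2⟩
    · left; left
      exact ⟨h', e2, by rw [Prod.mk.injEq]; exact ⟨e1, rfl⟩⟩
    · left; right
      change (m, h') = _
      rw [Prod.mk.injEq]
      exact ⟨e1, e2⟩
    · right
      change (m, h') = _
      change l = h' :: m at e1
      subst e1
      rfl
  exact Set.Finite.of_finite_image h1 (Subtype.val_injective.injOn)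

/-! ### automorphisms -/

/-- left translation of the root copy, on lists -/
def trL (γ : Γ) : List Γ → List Γ
  | [] => []
  | [g] => [γ * g]
  | g :: g' :: l => g :: trL γ (g' :: l)

/-- left translation of the root copy -/
def trR (γ : Γ) : List Γ × Γ → List Γ × Γ
  | ([], h) => ([], γ * h)
  | (g :: l, h) => (trL γ (g :: l), h)

theorem trL_eq_nil {γ : Γ} {l : List Γ} : trL γ l = [] ↔ l = [] := by
  match l with
  | [] => simp [trL]
  | [g] => simp [trL]
  | g :: g' :: l => simp [trL]

theorem valid_trL {γ : Γ} : ∀ {l : List Γ}, Valid l → Valid (trL γ l)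
  | [], _ => trivial
  | [g], _ => ⟨Or.inl rfl, trivial⟩
  | g :: g' :: l, h => by
    refine ⟨Or.inr ?_, valid_trL h.2⟩
    rcases h.1 with h1 | h1
    · exact absurd h1 (by simp)
    · exact h1

theorem valid_trR {γ : Γ} {x : List Γ × Γ} (h : Valid x.1) : Valid (trR γ x).1 := by
  obtain ⟨l, a⟩ := x
  match l with
  | [] => trivial
  | g :: l => exact valid_trL h

theorem trL_trL (γ δ : Γ) : ∀ l : List Γ, trL γ (trL δ l) = trL (γ * δ) l
  | [] => rfl
  | [g] => by simp [trL, mul_assoc]
  | g :: g' :: l => by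
    have ih := trL_trL γ δ (g' :: l)
    match h : trL δ (g' :: l) with
    | [] => exact absurd (trL_eq_nil.1 h) (by simp)
    | a :: m =>
      have e1 : trL δ (g :: g' :: l) = g :: a :: m := by
        change g :: trL δ (g' :: l) = _
        rw [h]
      rw [e1]
      change g :: trL γ (a :: m) = g :: trL (γ * δ) (g' :: l)
      rw [← h, ih]

theorem trL_one : ∀ l : List Γ, trL 1 l = l
  | [] => rfl
  | [g] => by simp [trL]
  | g :: g' :: l => by
    change g :: trL 1 (g' :: l) = _
    rw [trL_one (g' :: l)]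

theorem trR_trR (γ δ : Γ) (x : List Γ × Γ) : trR γ (trR δ x) = trR (γ * δ) x := by
  obtain ⟨l, a⟩ := x
  match l with
  | [] => simp [trR, mul_assoc]
  | g :: l =>
    change trR γ (trL δ (g :: l), a) = (trL (γ * δ) (g :: l), a)
    match h : trL δ (g :: l) with
    | [] => exact absurd (trL_eq_nil.1 h) (by simp)
    | b :: m =>
      change (trL γ (b :: m), a) = _
      rw [← h, trL_trL]

theorem trR_one (x : List Γ × Γ) : trR 1 x = x := by
  obtain ⟨l, a⟩ := x
  match l with
  | [] => simp [trR]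
  | g :: l =>
    change (trL 1 (g :: l), a) = _
    rw [trL_one]

theorem trR_cons (γ : Γ) (l : List Γ) (h : Γ) :
    trL γ (h :: l) = (trR γ (l, h)).2 :: (trR γ (l, h)).1 := by
  match l with
  | [] => rfl
  | g :: l => rfl

theorem trR_adj (hinv : ∀ g a b, H.Adj a b → H.Adj (g * a) (g * b)) (γ : Γ)
    {x y : List Γ × Γ} (h : adjR H x y) : adjR H (trR γ x) (trR γ y) := by
  have cross : ∀ x y : List Γ × Γ, y.1 = x.2 :: x.1 → y.2 = 1 →
      (trR γ y).1 = (trR γ x).2 :: (trR γ x).1 ∧ (trR γ y).2 = 1 := by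
    rintro ⟨l, a⟩ ⟨m, b⟩ h1 h2
    simp only at h1 h2
    subst h1 h2
    exact ⟨trR_cons γ l a, rfl⟩
  rcases h with ⟨h1, h2⟩ | ⟨h1, h2⟩ | ⟨h1, h2⟩
  · left
    obtain ⟨l, a⟩ := x
    obtain ⟨m, b⟩ := y
    simp only at h1 h2
    subst h1
    match l with
    | [] => exact ⟨rfl, hinv _ _ _ h2⟩
    | g :: l => exact ⟨rfl, h2⟩
  · right; left
    exact cross x y h1 h2
  · right; right
    exact cross y x h1 h2

/-- left translation as an automorphism of the tree of copies -/
def trIso (hinv : ∀ g a b, H.Adj a b → H.Adj (g * a) (g * b)) (γ : Γ) : TG H ≃g TG H where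
  toFun x := ⟨trR γ x.1, valid_trR x.2⟩
  invFun x := ⟨trR γ⁻¹ x.1, valid_trR x.2⟩
  left_inv x := by
    apply Subtype.ext
    change trR γ⁻¹ (trR γ x.1) = x.1
    rw [trR_trR, inv_mul_cancel, trR_one]
  right_inv x := by
    apply Subtype.ext
    change trR γ (trR γ⁻¹ x.1) = x.1
    rw [trR_trR, mul_inv_cancel, trR_one]
  map_rel_iff' := by
    intro x y
    constructor
    · intro h
      have := trR_adj hinv γ⁻¹ (TG_adj.1 h)
      change adjR H (trR γ⁻¹ (trR γ x.1)) (trR γ⁻¹ (trR γ y.1)) at this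
      rw [trR_trR, trR_trR, inv_mul_cancel, trR_one, trR_one] at this
      exact this
    · intro h
      exact trR_adj hinv γ (TG_adj.1 h)

open Classical in
/-- the flip exchanging the root copy and the copy attached at `1`, on lists -/
noncomputable def flL : List Γ → List Γ
  | [] => [1]
  | [g] => if g = 1 then [] else [g, 1]
  | g :: g' :: l => g :: flL (g' :: l)

theorem flL_cons {g : Γ} {l : List Γ} (h : l ≠ []) : flL (g :: l) = g :: flL l := by
  match l with
  | [] => exact absurd rfl h
  | a :: m => rfl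

theorem flL_single {g : Γ} (h : g ≠ 1) : flL [g] = [g, 1] := by
  simp [flL, h]

theorem flL_one : flL [(1 : Γ)] = [] := by
  simp [flL]

theorem valid_flL : ∀ {l : List Γ}, Valid l → Valid (flL l)
  | [], _ => ⟨Or.inl rfl, trivial⟩
  | [g], _ => by
    by_cases hg : g = 1
    · subst hg
      rw [flL_one]
      trivial
    · rw [flL_single hg]
      exact ⟨Or.inr hg, Or.inl rfl, trivial⟩
  | g :: g' :: l, h => by
    rw [flL_cons (by simp)]
    refine ⟨Or.inr ?_, valid_flL h.2⟩
    rcases h.1 with h1 | h1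
    · exact absurd h1 (by simp)
    · exact h1

theorem flL_flL : ∀ {l : List Γ}, Valid l → flL (flL l) = l
  | [], _ => flL_one
  | [g], _ => by
    by_cases hg : g = 1
    · subst hg
      rw [flL_one]
      rfl
    · rw [flL_single hg, flL_cons (by simp), flL_one]
  | g :: g' :: l, h => by
    have hg : g ≠ 1 := by
      rcases h.1 with h1 | h1
      · exact absurd h1 (by simp)
      · exact h1
    have ih := flL_flL h.2
    rw [flL_cons (by simp)]
    by_cases h2 : flL (g' :: l) = []
    · rw [h2] at ih ⊢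
      rw [flL_single hg, ← ih]
      rfl
    · rw [flL_cons h2, ih]

/-- the flip commutes with crossing edges -/
theorem flL_cross {l : List Γ} {h : Γ} (hv : Valid (h :: l)) :
    flL (h :: l) = h :: flL l ∨ (flL l = h :: flL (h :: l) ∧ h = 1) := by
  by_cases hl : l = []
  · subst hl
    by_cases hh : h = 1
    · subst hh
      right
      rw [flL_one]
      exact ⟨rfl, rfl⟩
    · left
      rw [flL_single hh]
      rfl
  · left
    exact flL_cons hl

theorem flR_adj {x y : List Γ × Γ} (hx : Valid x.1) (hy : Valid y.1) (h : adjR H x y) :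
    adjR H (flL x.1, x.2) (flL y.1, y.2) := by
  have cross : ∀ x y : List Γ × Γ, Valid y.1 → y.1 = x.2 :: x.1 → y.2 = 1 →
      ((flL y.1 = x.2 :: flL x.1 ∧ y.2 = 1) ∨ (flL x.1 = y.2 :: flL y.1 ∧ x.2 = 1)) := by
    rintro ⟨l, a⟩ ⟨m, b⟩ hv h1 h2
    simp only at h1 h2 hv ⊢
    subst h1 h2
    rcases flL_cross hv with h3 | ⟨h3, h4⟩
    · left
      exact ⟨h3, rfl⟩
    · right
      rw [h4] at h3 ⊢
      exact ⟨h3, rfl⟩
  rcases h with ⟨h1, h2⟩ | ⟨h1, h2⟩ | ⟨h1, h2⟩
  · left
    exact ⟨congrArg flL h1, h2⟩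
  · rcases cross x y hy h1 h2 with h3 | h3
    · exact Or.inr (Or.inl h3)
    · exact Or.inr (Or.inr h3)
  · rcases cross y x hx h1 h2 with h3 | h3
    · exact Or.inr (Or.inr h3)
    · exact Or.inr (Or.inl h3)

/-- the flip as an automorphism -/
noncomputable def flIso : TG H ≃g TG H where
  toFun x := ⟨(flL x.1.1, x.1.2), valid_flL x.2⟩
  invFun x := ⟨(flL x.1.1, x.1.2), valid_flL x.2⟩
  left_inv x := by
    apply Subtype.ext
    change (flL (flL x.1.1), x.1.2) = x.1
    rw [flL_flL x.2]
  right_inv x := by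
    apply Subtype.ext
    change (flL (flL x.1.1), x.1.2) = x.1
    rw [flL_flL x.2]
  map_rel_iff' := by
    intro x y
    constructor
    · intro h
      have := flR_adj (H := H) (valid_flL x.2) (valid_flL y.2) (TG_adj.1 h)
      change adjR H (flL (flL x.1.1), x.1.2) (flL (flL y.1.1), y.1.2) at this
      rw [flL_flL x.2, flL_flL y.2] at this
      exact this
    · intro h
      exact flR_adj x.2 y.2 (TG_adj.1 h)

/-- the root -/
def root : TV Γ := ⟨([], 1), trivial⟩

theorem trL_append (γ g : Γ) : ∀ l : List Γ, trL γ (l ++ [g]) = l ++ [γ * g]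
  | [] => rfl
  | [a] => rfl
  | a :: b :: l => by
    change a :: trL γ (b :: l ++ [g]) = _
    rw [trL_append γ g (b :: l)]
    rfl

theorem flL_append : ∀ l : List Γ, (∀ a ∈ l, a ≠ 1) → flL l = l ++ [1]
  | [], _ => rfl
  | [a], h => by
    rw [flL_single (h a (by simp))]
    rfl
  | a :: b :: l, h => by
    rw [flL_cons (by simp), flL_append (b :: l) (fun c hc => h c (List.mem_cons_of_mem _ hc))]
    rfl

theorem ne_one_of_valid_append {g : Γ} : ∀ {l : List Γ}, Valid (l ++ [g]) → ∀ a ∈ l, a ≠ 1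
  | [], _ => by simp
  | a :: l, h => by
    intro b hb
    rcases List.mem_cons.1 hb with rfl | hb
    · rcases h.1 with h1 | h1
      · exact absurd h1 (by simp)
      · exact h1
    · exact ne_one_of_valid_append h.2 b hb

theorem valid_of_valid_append {g : Γ} : ∀ {l : List Γ}, Valid (l ++ [g]) → Valid l
  | [], _ => trivial
  | a :: l, h => by
    refine ⟨Or.inr ?_, valid_of_valid_append h.2⟩
    exact ne_one_of_valid_append h a (by simp)

/-- the tree of copies is vertex transitive -/
theorem TG_transitive (hinv : ∀ g a b, H.Adj a b → H.Adj (g * a) (g * b)) (x : TV Γ) :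
    ∃ φ : TG H ≃g TG H, φ root = x := by
  obtain ⟨⟨l, h⟩, hl⟩ := x
  induction l using List.reverseRecOn with
  | nil =>
    refine ⟨trIso hinv h, ?_⟩
    apply Subtype.ext
    change (([] : List Γ), h * 1) = _
    rw [mul_one]
  | append_singleton l g ih =>
    obtain ⟨φ, hφ⟩ := ih (valid_of_valid_append hl)
    refine ⟨(φ.trans flIso).trans (trIso hinv g), ?_⟩
    change trIso hinv g (flIso (φ root)) = _
    rw [hφ]
    apply Subtype.ext
    change trR g (flL l, h) = (l ++ [g], h)
    rw [flL_append l (ne_one_of_valid_append hl)]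
    have : trR g (l ++ [1], h) = (trL g (l ++ [1]), h) := by
      match l with
      | [] => rfl
      | a :: m => rfl
    rw [this, trL_append, mul_one]

end Pool.Agent.H5.Perc
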